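import Pool.Agent.Lib.MP_aab329_nt.Lattice

set_option autoImplicit false

namespace Pool.MP_aab329_nt.SerreP

private lemma natAbs_le_mx (x : Fin 3 → ℤ) (i : Fin 3) : (x i).natAbs ≤ mx x :=
  Finset.le_sup (f := fun i => (x i).natAbs) (Finset.mem_univ i)

private lemma nsq_le_of_mx (x : Fin 3 → ℤ) (B : ℕ) (h : mx x ≤ B) : nsq x ≤ 3 * (B : ℤ) ^ 2 := by
  have h1 : ∀ i, x i * x i ≤ (B : ℤ) ^ 2 := by
    intro i
    have h2 := le_trans (natAbs_le_mx x i) h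
    have h3 : |x i| ≤ (B : ℤ) := by
      rw [Int.abs_eq_natAbs]
      exact_mod_cast h2
    have h4 := abs_le.mp h3
    nlinarith [h4.1, h4.2]
  have h5 := h1 0
  have h6 := h1 1
  have h7 := h1 2
  unfold nsq dot
  linarith

private lemma mx_sq_le (y : Fin 3 → ℤ) : ((mx y : ℕ) : ℤ) ^ 2 ≤ nsq y := by
  obtain ⟨i, -, hi⟩ := Finset.exists_mem_eq_sup Finset.univ Finset.univ_nonempty
    (fun i => (y i).natAbs)
  have h1 : mx y = (y i).natAbs := hi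
  rw [h1]
  have h2 : (((y i).natAbs : ℕ) : ℤ) ^ 2 = y i * y i := by
    rw [sq]
    exact Int.natAbs_mul_self
  rw [h2]
  have h3 : ∀ j : Fin 3, y j * y j ≤ y 0 * y 0 + y 1 * y 1 + y 2 * y 2 := by
    intro j
    have e0 := mul_self_nonneg (y 0)
    have e1 := mul_self_nonneg (y 1)
    have e2 := mul_self_nonneg (y 2)
    fin_cases j
    · show y 0 * y 0 ≤ _
      linarith
    · show y 1 * y 1 ≤ _
      linarith
    · show y 2 * y 2 ≤ _
      linarith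
  exact h3 i

private lemma mx_pos (y : Fin 3 → ℤ) (hy : prim y) : 1 ≤ mx y := by
  by_contra hc
  have h0 : mx y = 0 := by omega
  have h1 : ∀ i, y i = 0 := by
    intro i
    have := natAbs_le_mx y i
    rw [h0] at this
    exact Int.natAbs_eq_zero.mp (by omega)
  have h2 : Finset.univ.gcd y = 0 := by
    rw [Finset.gcd_eq_zero_iff]
    intro i _
    exact h1 i
  unfold prim at hy
  rw [h2] at hy
  exact absurd hy (by norm_num)

/-- counting integers with `a^2 q ≤ 6 B^2` -/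
private lemma coord_bound (B : ℕ) (q : ℤ) (hq : 1 ≤ q) (hqB : q ≤ 6 * (B : ℤ) ^ 2) :
    ∃ a : ℤ, (∀ z : ℤ, z ^ 2 * q ≤ 6 * (B : ℤ) ^ 2 → z ∈ Finset.Icc (-a) a) ∧
      ((Finset.Icc (-a) a).card : ℝ) ≤ 3 * Real.sqrt (6 * (B : ℝ) ^ 2 / q) := by
  set A := Real.sqrt (6 * (B : ℝ) ^ 2 / q) with hA
  have hq' : (1 : ℝ) ≤ q := by exact_mod_cast hq
  have hqB' : (q : ℝ) ≤ 6 * (B : ℝ) ^ 2 := by exact_mod_cast hqB
  have hA1 : 1 ≤ A := by
    rw [hA]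
    refine Real.one_le_sqrt.mpr ?_
    rw [le_div_iff₀ (by linarith)]
    linarith
  refine ⟨⌊A⌋, ?_, ?_⟩
  · intro z hz
    have h1 : (z : ℝ) ^ 2 * q ≤ 6 * (B : ℝ) ^ 2 := by exact_mod_cast hz
    have h2 : |(z : ℝ)| ≤ A := by
      rw [hA]
      refine Real.abs_le_sqrt ?_
      rw [le_div_iff₀ (by linarith)]
      exact h1
    have h3 := abs_le.mp h2
    rw [Finset.mem_Icc]
    constructor
    · have h4 : -z ≤ ⌊A⌋ := Int.le_floor.mpr (by push_cast; linarith [h3.1])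
      linarith
    · exact Int.le_floor.mpr h3.2
  · have hfl : 0 ≤ ⌊A⌋ := Int.floor_nonneg.mpr (by linarith)
    rw [Int.card_Icc]
    have h1 : ((⌊A⌋ + 1 - -⌊A⌋).toNat : ℝ) = ((⌊A⌋ + 1 - -⌊A⌋ : ℤ) : ℝ) := by
      have h2 : (((⌊A⌋ + 1 - -⌊A⌋).toNat : ℤ)) = ⌊A⌋ + 1 - -⌊A⌋ := Int.toNat_of_nonneg (by linarith)
      exact_mod_cast h2
    rw [h1]
    push_cast
    have := Int.floor_le A
    linarith

/-- All integral points of a line. From `reduced_basis`: `x = α u + β v` with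
`α^2 nsq u ≤ 2 nsq x ≤ 6 B^2`, `β^2 nsq v ≤ 6 B^2`, and `nsq v ≤ 2 nsq y ≤ 18 B ≤ 6 B^2`, so
both bounds for `|α|`, `|β|` are at least `1` and the number of pairs is at most
`9 * 6 B^2 / sqrt (nsq u nsq v) ≤ 54 B^2 / mx y`. -/
theorem any_line : ∃ C : ℝ, 0 < C ∧ ∀ B : ℕ, 3 ≤ B → ∀ y : Fin 3 → ℤ, prim y →
    nsq y ≤ 9 * B →
    ({x : Fin 3 → ℤ | mx x ≤ B ∧ dot y x = 0}.ncard : ℝ) ≤ C * ((B : ℝ) ^ 2 / mx y) := by
  refine ⟨54, by norm_num, ?_⟩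
  intro B hB y hy hyB
  obtain ⟨u, v, -, -, hbas, hred, hdet, hu1, huv, hvy, -⟩ := reduced_basis y hy
  have hB' : (3 : ℤ) ≤ (B : ℤ) := by exact_mod_cast hB
  have hv6 : nsq v ≤ 6 * (B : ℤ) ^ 2 := by nlinarith
  obtain ⟨a, ha1, ha2⟩ := coord_bound B (nsq u) hu1 (le_trans huv hv6)
  obtain ⟨b, hb1, hb2⟩ := coord_bound B (nsq v) (le_trans hu1 huv) hv6
  have hm := mx_pos y hy
  have hm2 := mx_sq_le y
  -- the counting injection
  have hcount : {x : Fin 3 → ℤ | mx x ≤ B ∧ dot y x = 0}.ncard ≤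
      (Finset.Icc (-a) a ×ˢ Finset.Icc (-b) b).card := by
    classical
    have hsub : {x : Fin 3 → ℤ | mx x ≤ B ∧ dot y x = 0} ⊆
        ((Finset.Icc (-a) a ×ˢ Finset.Icc (-b) b).image
          (fun p : ℤ × ℤ => (fun c => p.1 * u c + p.2 * v c : Fin 3 → ℤ)) : Finset (Fin 3 → ℤ)) := by
      rintro x ⟨hx1, hx2⟩
      obtain ⟨α, β, rfl⟩ := hbas x hx2
      have h1 := hred α β
      have h2 := nsq_le_of_mx _ B hx1
      rw [Finset.mem_coe, Finset.mem_image]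
      refine ⟨(α, β), ?_, rfl⟩
      rw [Finset.mem_product]
      refine ⟨ha1 α ?_, hb1 β ?_⟩
      · have : 0 ≤ β ^ 2 * nsq v := mul_nonneg (sq_nonneg _) (by linarith)
        linarith
      · have : 0 ≤ α ^ 2 * nsq u := mul_nonneg (sq_nonneg _) (by linarith)
        linarith
    refine le_trans (Set.ncard_le_ncard hsub (Finset.finite_toSet _)) ?_
    rw [Set.ncard_coe_finset]
    exact Finset.card_image_le
  have hc2 : ({x : Fin 3 → ℤ | mx x ≤ B ∧ dot y x = 0}.ncard : ℝ) ≤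
      ((Finset.Icc (-a) a).card : ℝ) * ((Finset.Icc (-b) b).card : ℝ) := by
    have := hcount
    rw [Finset.card_product] at this
    exact_mod_cast this
  refine le_trans hc2 ?_
  have hBpos : (0 : ℝ) < B := by
    have : (3 : ℝ) ≤ B := by exact_mod_cast hB
    linarith
  have hmR : (1 : ℝ) ≤ (mx y : ℝ) := by exact_mod_cast hm
  have huR : (1 : ℝ) ≤ (nsq u : ℝ) := by exact_mod_cast hu1
  have hvR : (1 : ℝ) ≤ (nsq v : ℝ) := by exact_mod_cast (le_trans hu1 huv)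
  have hprod : Real.sqrt (6 * (B : ℝ) ^ 2 / (nsq u : ℝ)) * Real.sqrt (6 * (B : ℝ) ^ 2 / (nsq v : ℝ)) ≤
      6 * ((B : ℝ) ^ 2 / (mx y : ℝ)) := by
    rw [← Real.sqrt_mul (by positivity)]
    refine Real.sqrt_le_iff.mpr ⟨by positivity, ?_⟩
    have h1 : ((mx y : ℕ) : ℝ) ^ 2 ≤ (nsq u : ℝ) * (nsq v : ℝ) := by
      have : ((mx y : ℕ) : ℤ) ^ 2 ≤ nsq u * nsq v := le_trans hm2 hdet
      exact_mod_cast this
    have h2 : 6 * (B : ℝ) ^ 2 / (nsq u : ℝ) * (6 * (B : ℝ) ^ 2 / (nsq v : ℝ)) =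
        36 * (B : ℝ) ^ 4 / ((nsq u : ℝ) * (nsq v : ℝ)) := by
      field_simp
      ring
    have h3 : (6 * ((B : ℝ) ^ 2 / (mx y : ℝ))) ^ 2 = 36 * (B : ℝ) ^ 4 / (mx y : ℝ) ^ 2 := by
      field_simp
      ring
    rw [h2, h3]
    exact div_le_div_of_nonneg_left (by positivity) (by positivity) h1
  calc ((Finset.Icc (-a) a).card : ℝ) * ((Finset.Icc (-b) b).card : ℝ)
      ≤ (3 * Real.sqrt (6 * (B : ℝ) ^ 2 / (nsq u : ℝ))) * (3 * Real.sqrt (6 * (B : ℝ) ^ 2 / (nsq v : ℝ))) :=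
        mul_le_mul ha2 hb2 (by positivity) (by positivity)
    _ = 9 * (Real.sqrt (6 * (B : ℝ) ^ 2 / (nsq u : ℝ)) * Real.sqrt (6 * (B : ℝ) ^ 2 / (nsq v : ℝ))) := by ring
    _ ≤ 9 * (6 * ((B : ℝ) ^ 2 / (mx y : ℝ))) := by linarith
    _ = 54 * ((B : ℝ) ^ 2 / mx y) := by ring

end Pool.MP_aab329_nt.SerreP
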