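import Pool.Agent.Lib.MP_aab329_nt.Defs

set_option autoImplicit false

namespace Pool.MP_aab329_nt.SerreP

/-- the cross product of `u` and `v` is `y` -/
private def IsCr (y u v : Fin 3 → ℤ) : Prop :=
  u 1 * v 2 - u 2 * v 1 = y 0 ∧ u 2 * v 0 - u 0 * v 2 = y 1 ∧ u 0 * v 1 - u 1 * v 0 = y 2

private theorem lat_ne_zero (y : Fin 3 → ℤ) (hy : prim y) : ¬ (y 0 = 0 ∧ y 1 = 0 ∧ y 2 = 0) := by
  rintro ⟨h0, h1, h2⟩
  unfold prim at hy
  have : Finset.univ.gcd y = 0 := by
    rw [Finset.gcd_eq_zero_iff]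
    intro i _
    fin_cases i
    · exact h0
    · exact h1
    · exact h2
  rw [this] at hy
  exact absurd hy (by norm_num)

private theorem lat_dvd (y : Fin 3 → ℤ) (hy : prim y) (d : ℤ) (h0 : d ∣ y 0) (h1 : d ∣ y 1)
    (h2 : d ∣ y 2) : d ∣ 1 := by
  unfold prim at hy
  rw [← hy]
  apply Finset.dvd_gcd
  intro i _
  fin_cases i
  · exact h0
  · exact h1
  · exact h2

private theorem lat_bezout (y : Fin 3 → ℤ) (hy : prim y) :
    ∃ c0 c1 c2 : ℤ, c0 * y 0 + c1 * y 1 + c2 * y 2 = 1 := by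
  have hg := Int.gcd_eq_gcd_ab (y 0) (y 1)
  have hcop : Int.gcd (Int.gcd (y 0) (y 1)) (y 2) = 1 := by
    have hd : ((Int.gcd (Int.gcd (y 0) (y 1)) (y 2) : ℕ) : ℤ) ∣ 1 := by
      apply lat_dvd y hy
      · exact (Int.gcd_dvd_left _ _).trans (Int.gcd_dvd_left _ _)
      · exact (Int.gcd_dvd_left _ _).trans (Int.gcd_dvd_right _ _)
      · exact Int.gcd_dvd_right _ _
    have := Int.natAbs_dvd_natAbs.mpr hd
    simpa using this
  have hg2 := Int.gcd_eq_gcd_ab (Int.gcd (y 0) (y 1)) (y 2)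
  rw [hcop] at hg2
  refine ⟨Int.gcdA (y 0) (y 1) * Int.gcdA (Int.gcd (y 0) (y 1)) (y 2),
    Int.gcdB (y 0) (y 1) * Int.gcdA (Int.gcd (y 0) (y 1)) (y 2),
    Int.gcdB (Int.gcd (y 0) (y 1)) (y 2), ?_⟩
  push_cast at hg2
  linear_combination (-1) * hg2 - Int.gcdA (Int.gcd (y 0) (y 1)) (y 2) * hg

private theorem lat_exists (y : Fin 3 → ℤ) (hy : prim y) : ∃ u v, IsCr y u v := by
  by_cases hg : Int.gcd (y 0) (y 1) = 0
  · rw [Int.gcd_eq_zero_iff] at hg
    exact ⟨![1, 0, 0], ![0, y 2, 0], by simp [hg.1], by simp [hg.2], by simp⟩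
  · have hgz : ((Int.gcd (y 0) (y 1) : ℕ) : ℤ) ≠ 0 := by exact_mod_cast hg
    obtain ⟨s, hs⟩ : ((Int.gcd (y 0) (y 1) : ℕ) : ℤ) ∣ y 0 := Int.gcd_dvd_left _ _
    obtain ⟨t, ht⟩ : ((Int.gcd (y 0) (y 1) : ℕ) : ℤ) ∣ y 1 := Int.gcd_dvd_right _ _
    have hb := Int.gcd_eq_gcd_ab (y 0) (y 1)
    set g : ℤ := ((Int.gcd (y 0) (y 1) : ℕ) : ℤ) with hgdef
    set A := Int.gcdA (y 0) (y 1)
    set B := Int.gcdB (y 0) (y 1)
    have hst : s * A + t * B = 1 := by
      have : g * (s * A + t * B) = g * 1 := by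
        linear_combination (-1) * hb - A * hs - B * ht
      exact mul_left_cancel₀ hgz this
    refine ⟨![t, -s, 0], ![A * y 2, B * y 2, -g], ?_, ?_, ?_⟩
    · simp
      rw [mul_comm, ← hs]
    · simp
      rw [mul_comm, ← ht]
    · simp
      linear_combination (y 2) * hst

/-- Gauss reduction of the lattice `y x = 0`.
Proof. `u`: a nonzero vector of the lattice `L = {x | dot y x = 0}` with `nsq u` minimal; `v`: a
vector of `L` not a rational multiple of `u` (equivalently not in `ℤ u`, since `u` is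
primitive) with `nsq v` minimal.
Minimality of `v` against `v ± u` gives `2 |dot u v| ≤ nsq u ≤ nsq v`, hence
`a^2 nsq u + b^2 nsq v ≤ 2 nsq (a u + b v)` also for rational `a, b`. Basis: for `x ∈ L` write
`x = a u + b v` with rational `a, b`, subtract nearest integers: the remainder `x'` has
`nsq x' ≤ (3/4) nsq v < nsq v`, so it is a multiple of `u`, so `b` is an integer, and then `a` is
an integer by minimality of `u`. The cross product of `u` and `v` is a nonzero integral multiple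
of `y`, so `nsq y ≤ nsq u * nsq v`. The vectors `(y1, -y0, 0)`, `(y2, 0, -y0)`, `(0, y2, -y1)`
of `L` span a space of dimension `2` and have `nsq ≤ nsq y`, so `nsq v ≤ nsq y`. -/
theorem reduced_basis (y : Fin 3 → ℤ) (hy : prim y) :
    ∃ u v : Fin 3 → ℤ, dot y u = 0 ∧ dot y v = 0 ∧
      (∀ x : Fin 3 → ℤ, dot y x = 0 → ∃ α β : ℤ, x = fun c => α * u c + β * v c) ∧
      (∀ α β : ℤ, α ^ 2 * nsq u + β ^ 2 * nsq v ≤ 2 * nsq (fun c => α * u c + β * v c)) ∧
      nsq y ≤ nsq u * nsq v ∧ 1 ≤ nsq u ∧ nsq u ≤ nsq v ∧ nsq v ≤ 2 * nsq y ∧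
      LinearIndependent ℚ ![rat u, rat v] := by
  have hnn : ∀ x : Fin 3 → ℤ, 0 ≤ nsq x := by
    intro x
    unfold nsq dot
    nlinarith [sq_nonneg (x 0), sq_nonneg (x 1), sq_nonneg (x 2)]
  -- a minimizing pair, `nsq u ≤ nsq v`
  have hmin : ∃ u v, IsCr y u v ∧ nsq u ≤ nsq v ∧
      ∀ u' v', IsCr y u' v' → nsq u + nsq v ≤ nsq u' + nsq v' := by
    obtain ⟨u₀, v₀, h₀⟩ := lat_exists y hy
    obtain ⟨⟨u, v⟩, huv, hm⟩ := WellFounded.has_min
      (measure (fun w : (Fin 3 → ℤ) × (Fin 3 → ℤ) => (nsq w.1 + nsq w.2).toNat)).wf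
      {w | IsCr y w.1 w.2} ⟨(u₀, v₀), h₀⟩
    have hm' : ∀ u' v', IsCr y u' v' → nsq u + nsq v ≤ nsq u' + nsq v' := by
      intro u' v' h'
      have h1 := hm (u', v') h'
      have h2 : ¬ ((nsq u' + nsq v').toNat < (nsq u + nsq v).toNat) := h1
      have h3 := hnn u'
      have h4 := hnn v'
      have h5 := hnn u
      have h6 := hnn v
      omega
    rcases le_total (nsq u) (nsq v) with h | h
    · exact ⟨u, v, huv, h, hm'⟩
    · refine ⟨v, fun c => - u c, ?_, ?_, ?_⟩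
      · obtain ⟨h0, h1, h2⟩ := huv
        refine ⟨?_, ?_, ?_⟩
        · rw [← h0]; ring
        · rw [← h1]; ring
        · rw [← h2]; ring
      · have : nsq (fun c => - u c) = nsq u := by
          unfold nsq dot
          ring
        rw [this]
        exact h
      · intro u' v' h'
        have : nsq (fun c => - u c) = nsq u := by
          unfold nsq dot
          ring
        rw [this, add_comm]
        exact hm' u' v' h'
  obtain ⟨u, v, ⟨c0, c1, c2⟩, huv, hm⟩ := hmin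
  have hU := hnn u
  have hV := hnn v
  -- reducedness
  have hw1 : 2 * dot u v ≤ nsq u := by
    have := hm u (fun c => v c - u c) ⟨by rw [← c0]; ring, by rw [← c1]; ring, by rw [← c2]; ring⟩
    have e : nsq (fun c => v c - u c) = nsq v - 2 * dot u v + nsq u := by
      unfold nsq dot
      ring
    rw [e] at this
    linarith
  have hw2 : -(2 * dot u v) ≤ nsq u := by
    have := hm u (fun c => v c + u c) ⟨by rw [← c0]; ring, by rw [← c1]; ring, by rw [← c2]; ring⟩
    have e : nsq (fun c => v c + u c) = nsq v + 2 * dot u v + nsq u := by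
      unfold nsq dot
      ring
    rw [e] at this
    linarith
  have hlag : nsq y = nsq u * nsq v - dot u v ^ 2 := by
    unfold nsq dot
    rw [← c0, ← c1, ← c2]
    ring
  have hu1 : 1 ≤ nsq u := by
    by_contra hcon
    have h0 : nsq u = 0 := by omega
    unfold nsq dot at h0
    have a0 : u 0 = 0 := by nlinarith [sq_nonneg (u 0), sq_nonneg (u 1), sq_nonneg (u 2)]
    have a1 : u 1 = 0 := by nlinarith [sq_nonneg (u 0), sq_nonneg (u 1), sq_nonneg (u 2)]
    have a2 : u 2 = 0 := by nlinarith [sq_nonneg (u 0), sq_nonneg (u 1), sq_nonneg (u 2)]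
    apply lat_ne_zero y hy
    rw [← c0, ← c1, ← c2, a0, a1, a2]
    simp
  obtain ⟨b0, b1, b2, hb⟩ := lat_bezout y hy
  refine ⟨u, v, ?_, ?_, ?_, ?_, ?_, hu1, huv, ?_, ?_⟩
  · unfold dot
    rw [← c0, ← c1, ← c2]
    ring
  · unfold dot
    rw [← c0, ← c1, ← c2]
    ring
  · intro x hx
    unfold dot at hx
    refine ⟨b0 * (x 1 * v 2 - x 2 * v 1) + b1 * (x 2 * v 0 - x 0 * v 2)
        + b2 * (x 0 * v 1 - x 1 * v 0),
      b0 * (u 1 * x 2 - u 2 * x 1) + b1 * (u 2 * x 0 - u 0 * x 2)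
        + b2 * (u 0 * x 1 - u 1 * x 0), ?_⟩
    rw [← c0, ← c1, ← c2] at hx hb
    funext i
    fin_cases i
    · change x 0 = _ * u 0 + _ * v 0
      linear_combination (- x 0) * hb + b0 * hx
    · change x 1 = _ * u 1 + _ * v 1
      linear_combination (- x 1) * hb + b1 * hx
    · change x 2 = _ * u 2 + _ * v 2
      linear_combination (- x 2) * hb + b2 * hx
  · intro α β
    have e : nsq (fun c => α * u c + β * v c)
        = α ^ 2 * nsq u + 2 * (α * β) * dot u v + β ^ 2 * nsq v := by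
      unfold nsq dot
      ring
    rw [e]
    have h1 : -(4 * (α * β) * dot u v) ≤ (α ^ 2 + β ^ 2) * nsq u := by
      have h2 : |2 * dot u v| ≤ nsq u := abs_le.mpr ⟨by linarith, hw1⟩
      have h3 : |2 * (α * β)| ≤ α ^ 2 + β ^ 2 := by
        rw [abs_le]
        constructor <;> nlinarith [sq_nonneg (α + β), sq_nonneg (α - β)]
      calc -(4 * (α * β) * dot u v) ≤ |4 * (α * β) * dot u v| := neg_le_abs _
        _ = |2 * (α * β)| * |2 * dot u v| := by rw [← abs_mul]; congr 1; ring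
        _ ≤ (α ^ 2 + β ^ 2) * nsq u := mul_le_mul h3 h2 (abs_nonneg _) (by positivity)
    have h2 : β ^ 2 * nsq u ≤ β ^ 2 * nsq v := mul_le_mul_of_nonneg_left huv (sq_nonneg _)
    nlinarith
  · rw [hlag]
    nlinarith [sq_nonneg (dot u v)]
  · rw [hlag]
    have h1 : (2 * dot u v) ^ 2 ≤ nsq u * nsq v := by
      have h2 : |2 * dot u v| ≤ nsq u := abs_le.mpr ⟨by linarith, hw1⟩
      calc (2 * dot u v) ^ 2 = |2 * dot u v| * |2 * dot u v| := by rw [abs_mul_abs_self]; ring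
        _ ≤ nsq u * nsq v := mul_le_mul h2 (h2.trans huv) (abs_nonneg _) hU
    have h3 : nsq v ≤ nsq u * nsq v := le_mul_of_one_le_left hV hu1
    nlinarith
  · rw [LinearIndependent.pair_iff]
    intro s t hst
    have e0 := congrFun hst 0
    have e1 := congrFun hst 1
    have e2 := congrFun hst 2
    simp only [Pi.add_apply, Pi.smul_apply, smul_eq_mul, rat, Pi.zero_apply] at e0 e1 e2
    have q0 : (u 1 : ℚ) * v 2 - u 2 * v 1 = y 0 := by exact_mod_cast c0
    have q1 : (u 2 : ℚ) * v 0 - u 0 * v 2 = y 1 := by exact_mod_cast c1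
    have q2 : (u 0 : ℚ) * v 1 - u 1 * v 0 = y 2 := by exact_mod_cast c2
    have hbq : (b0 : ℚ) * y 0 + b1 * y 1 + b2 * y 2 = 1 := by exact_mod_cast hb
    have s0 : s * y 0 = 0 := by rw [← q0]; linear_combination (v 2 : ℚ) * e1 - (v 1 : ℚ) * e2
    have s1 : s * y 1 = 0 := by rw [← q1]; linear_combination (v 0 : ℚ) * e2 - (v 2 : ℚ) * e0
    have s2 : s * y 2 = 0 := by rw [← q2]; linear_combination (v 1 : ℚ) * e0 - (v 0 : ℚ) * e1
    have t0 : t * y 0 = 0 := by rw [← q0]; linear_combination (u 1 : ℚ) * e2 - (u 2 : ℚ) * e1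
    have t1 : t * y 1 = 0 := by rw [← q1]; linear_combination (u 2 : ℚ) * e0 - (u 0 : ℚ) * e2
    have t2 : t * y 2 = 0 := by rw [← q2]; linear_combination (u 0 : ℚ) * e1 - (u 1 : ℚ) * e0
    constructor
    · linear_combination (-s) * hbq + b0 * s0 + b1 * s1 + b2 * s2
    · linear_combination (-t) * hbq + b0 * t0 + b1 * t1 + b2 * t2

end Pool.MP_aab329_nt.SerreP
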