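import Pool.Agent.Lib.MP_aab329_nt.Defs

set_option autoImplicit false

namespace Pool.MP_aab329_nt.SerreP

open Polynomial

private theorem eval2_natDegree_le {P : MvPolynomial (Fin 3) ℤ} {n : ℕ}
    (hP : P.IsHomogeneous n) (x : Fin 3 → ℚ[X]) (hx : ∀ c, (x c).natDegree ≤ 1) :
    (MvPolynomial.eval₂ (Int.castRingHom ℚ[X]) x P).natDegree ≤ n := by
  rw [MvPolynomial.eval₂_eq']
  apply natDegree_sum_le_of_forall_le
  intro d hd
  have hdeg : d.sum (fun _ e => e) = n := by
    have := hP (MvPolynomial.mem_support_iff.mp hd)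
    simpa [Finsupp.weight_apply, Finsupp.sum] using this
  refine natDegree_mul_le.trans ?_
  have h1 : ((Int.castRingHom ℚ[X]) (MvPolynomial.coeff d P)).natDegree = 0 := by
    rw [eq_intCast]
    exact natDegree_intCast _
  have h2 : (∏ i, x i ^ d i).natDegree ≤ ∑ i, d i := by
    refine (natDegree_prod_le _ _).trans ?_
    refine Finset.sum_le_sum fun i _ => ?_
    refine natDegree_pow_le.trans ?_
    exact (Nat.mul_le_mul_left _ (hx i)).trans (by omega)
  rw [h1, zero_add]
  refine h2.trans ?_
  rw [← hdeg, Finsupp.sum_fintype]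
  simp

private theorem gline_coeff_le {m D : ℕ} {f : (MvPolynomial (Fin 3) ℤ)[X]} (hf : WMonic m D f)
    (u v : Fin 3 → ℚ) {i : ℕ} (hi : i ≤ D) : ((gline f u v).coeff i).natDegree ≤ m * (D - i) := by
  unfold gline
  rw [sp_coeff]
  apply eval2_natDegree_le (hf.hom i hi)
  intro c
  exact natDegree_linear_le

/-- Degrees of the coefficients of the restriction to a line (for `i ≤ D` even at most
`m * (D - i)`). -/
theorem gline_coeff_natDegree {m D : ℕ} {f : (MvPolynomial (Fin 3) ℤ)[X]} (hf : WMonic m D f)
    (u v : Fin 3 → ℚ) (i : ℕ) : ((gline f u v).coeff i).natDegree ≤ m * D := by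
  rcases le_or_gt i D with hi | hi
  · exact (gline_coeff_le hf u v hi).trans (Nat.mul_le_mul_left _ (Nat.sub_le _ _))
  · have h1 : (gline f u v).natDegree = D := sp_natDegree hf _
    rw [coeff_eq_zero_of_natDegree_lt (by omega), natDegree_zero]
    exact Nat.zero_le _

/-- A polynomial root along a line has degree at most `m` (compare degrees in
`p^D + ∑ i < D, f_i p^i = 0`, where `natDegree f_i ≤ m (D - i)`). -/
theorem root_natDegree_le {m D : ℕ} (hD : 1 ≤ D) {f : (MvPolynomial (Fin 3) ℤ)[X]}
    (hf : WMonic m D f) (u v : Fin 3 → ℚ) (p : ℚ[X]) (hp : (gline f u v).eval p = 0) :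
    p.natDegree ≤ m := by
  by_contra hcon
  rw [not_le] at hcon
  have hnd : (gline f u v).natDegree = D := sp_natDegree hf _
  have hmon : (gline f u v).Monic := sp_monic hf _
  have hlead : (gline f u v).coeff D = 1 := by
    rw [← hnd]
    exact hmon
  rw [eval_eq_sum_range, hnd, Finset.sum_range_succ, hlead, one_mul] at hp
  have h1 : p ^ D = -∑ i ∈ Finset.range D, (gline f u v).coeff i * p ^ i := by
    linear_combination hp
  have h2 : (p ^ D).natDegree = D * p.natDegree := natDegree_pow p D
  have hpos : 0 < D * p.natDegree := Nat.mul_pos (by omega) (by omega)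
  have h3 : (∑ i ∈ Finset.range D, (gline f u v).coeff i * p ^ i).natDegree ≤
      D * p.natDegree - 1 := by
    apply natDegree_sum_le_of_forall_le
    intro i hi
    have hiD : i < D := Finset.mem_range.mp hi
    refine natDegree_mul_le.trans ?_
    rw [natDegree_pow]
    have h4 := gline_coeff_le hf u v hiD.le
    have h5 : m * (D - i) < p.natDegree * (D - i) :=
      Nat.mul_lt_mul_of_pos_right hcon (by omega)
    have h6 : p.natDegree * (D - i) + i * p.natDegree = D * p.natDegree := by
      rw [mul_comm i, ← mul_add, Nat.sub_add_cancel hiD.le, mul_comm]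
    omega
  rw [h1, natDegree_neg] at h2
  omega

end Pool.MP_aab329_nt.SerreP
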