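import Pool.Agent.Lib.MP_aab329_nt.Defs

set_option autoImplicit false

namespace Pool.MP_aab329_nt.SerreP

open Polynomial

private theorem mobius_span (y : Fin 3 → ℤ) (hy : y ≠ 0) (u v : Fin 3 → ℚ)
    (hli : LinearIndependent ℚ ![u, v]) (hu : dot (rat y) u = 0) (hv : dot (rat y) v = 0)
    (w : Fin 3 → ℚ) (hw : dot (rat y) w = 0) : ∃ a b : ℚ, a • u + b • v = w := by
  let φ : (Fin 3 → ℚ) →ₗ[ℚ] ℚ :=
    { toFun := fun w => dot (rat y) w
      map_add' := fun a b => by simp only [dot, Pi.add_apply]; ring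
      map_smul' := fun a b => by
        simp only [dot, Pi.smul_apply, smul_eq_mul, RingHom.id_apply]; ring }
  have hsurj : Function.Surjective φ := by
    obtain ⟨i, hi⟩ := Function.ne_iff.1 hy
    have hi' : (y i : ℚ) ≠ 0 := by exact_mod_cast hi
    have hφ : φ (Pi.single i 1) = (y i : ℚ) := by
      show dot (rat y) (Pi.single i 1) = (y i : ℚ)
      unfold dot rat
      fin_cases i <;> simp
    intro t
    refine ⟨(t / (y i : ℚ)) • Pi.single i 1, ?_⟩
    rw [map_smul, hφ, smul_eq_mul, div_mul_cancel₀ _ hi']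
  have hker : Module.finrank ℚ (LinearMap.ker φ) = 2 := by
    have h1 := LinearMap.finrank_range_add_finrank_ker φ
    rw [LinearMap.range_eq_top.2 hsurj, finrank_top, Module.finrank_self,
      Module.finrank_fin_fun] at h1
    omega
  have hspan : Module.finrank ℚ (Submodule.span ℚ (Set.range ![u, v])) = 2 := by
    rw [finrank_span_eq_card hli, Fintype.card_fin]
  have hle : Submodule.span ℚ (Set.range ![u, v]) ≤ LinearMap.ker φ := by
    rw [Submodule.span_le]
    rintro x ⟨i, rfl⟩
    fin_cases i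
    · exact hu
    · exact hv
  have heq : Submodule.span ℚ (Set.range ![u, v]) = LinearMap.ker φ :=
    Submodule.eq_of_le_of_finrank_eq hle (by rw [hspan, hker])
  have hmem : w ∈ Submodule.span ℚ (Set.range ![u, v]) := by
    rw [heq]; exact hw
  have hr : Set.range ![u, v] = {u, v} := by
    rw [Matrix.range_cons, Matrix.range_cons, Matrix.range_empty, Set.union_empty]
    rfl
  rw [hr] at hmem
  exact Submodule.mem_span_pair.1 hmem

/-- Change of basis on a line. Write `u' = c1 u + c2 v`, `v' = c3 u + c4 v` (`y ≠ 0`), then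
`X u' + v' = (c2 X + c4) * (x u + v)` with `x = (c1 X + c3) / (c2 X + c4)` in `RatFunc ℚ`
(or `FractionRing ℚ[X]`); `(c2, c4) ≠ 0`. If `(gline f u v).eval p = 0` then by `sp_eval_smul`,
`sp_map` the element `(c2 X + c4)^m * p(x)` is a root of the monic polynomial `gline f u' v'` over
the fraction field, so it lies in `ℚ[X]` (`isInteger_of_is_root_of_monic`). -/
theorem root_any_basis {m D : ℕ} {f : (MvPolynomial (Fin 3) ℤ)[X]} (hf : WMonic m D f)
    (y : Fin 3 → ℤ) (hy : y ≠ 0) (hb : BadLine f y) (u v : Fin 3 → ℚ)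
    (hli : LinearIndependent ℚ ![u, v]) (hu : dot (rat y) u = 0) (hv : dot (rat y) v = 0) :
    ∃ p : ℚ[X], (gline f u v).eval p = 0 := by
  obtain ⟨u₀, v₀, hli₀, hu₀, hv₀, p₀, hp₀⟩ := hb
  obtain ⟨c1, c2, h12⟩ := mobius_span y hy u₀ v₀ hli₀ hu₀ hv₀ u hu
  obtain ⟨c3, c4, h34⟩ := mobius_span y hy u₀ v₀ hli₀ hu₀ hv₀ v hv
  have hc : ¬ (c2 = 0 ∧ c4 = 0) := by
    rintro ⟨h2, h4⟩
    rw [h2, zero_smul, add_zero] at h12
    rw [h4, zero_smul, add_zero] at h34
    rw [LinearIndependent.pair_iff] at hli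
    have h5 := hli c3 (-c1) (by
      rw [← h12, ← h34, smul_smul, smul_smul, ← add_smul]
      rw [show c3 * c1 + -c1 * c3 = 0 by ring, zero_smul])
    have h6 : c1 = 0 := by linarith [h5.2]
    have h7 := hli 1 0 (by rw [← h12, h6]; simp)
    exact one_ne_zero h7.1
  set K := RatFunc ℚ
  let φ : ℚ[X] →+* K := algebraMap ℚ[X] K
  have hφinj : Function.Injective φ := IsFractionRing.injective ℚ[X] K
  set den : K := φ (C c2 * X + C c4) with hden
  have hden0 : den ≠ 0 := by
    rw [hden]
    intro h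
    have h1 : (C c2 * X + C c4 : ℚ[X]) = 0 := by
      apply hφinj
      rw [h, map_zero]
    apply hc
    constructor
    · have := congrArg (fun q : ℚ[X] => q.coeff 1) h1
      simpa using this
    · have := congrArg (fun q : ℚ[X] => q.coeff 0) h1
      simpa using this
  set x : K := φ (C c1 * X + C c3) / den with hx
  let ψ : ℚ[X] →+* K := (Polynomial.aeval x).toRingHom
  have hψ : ∀ a b : ℚ, ψ (C a * X + C b) = algebraMap ℚ K a * x + algebraMap ℚ K b := by
    intro a b
    show Polynomial.aeval x (C a * X + C b) = _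
    rw [map_add, map_mul, Polynomial.aeval_C, Polynomial.aeval_X, Polynomial.aeval_C]
  have hφC : ∀ a : ℚ, φ (C a) = algebraMap ℚ K a := by
    intro a
    show algebraMap ℚ[X] K (algebraMap ℚ ℚ[X] a) = _
    rw [← IsScalarTower.algebraMap_apply]
  have hroot : (sp f (fun c => ψ (C (u₀ c) * X + C (v₀ c)))).eval (ψ p₀) = 0 := by
    rw [← sp_map, Polynomial.eval_map, Polynomial.eval₂_hom]
    unfold gline at hp₀
    rw [hp₀, map_zero]
  have hco : ∀ c, φ (C (u c) * X + C (v c)) = den * ψ (C (u₀ c) * X + C (v₀ c)) := by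
    intro c
    have e1 : u c = c1 * u₀ c + c2 * v₀ c := by
      have := congrFun h12 c
      simpa using this.symm
    have e2 : v c = c3 * u₀ c + c4 * v₀ c := by
      have := congrFun h34 c
      simpa using this.symm
    rw [hψ, hx, mul_add, ← mul_assoc, mul_comm den (algebraMap ℚ K (u₀ c)), mul_assoc,
      mul_div_cancel₀ _ hden0, hden, ← hφC, ← hφC, ← map_mul, ← map_mul, ← map_add, e1, e2]
    congr 1
    simp only [map_add, map_mul]
    ring
  have hbig : (sp f (fun c => φ (C (u c) * X + C (v c)))).eval (den ^ m * ψ p₀) = 0 := by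
    rw [show (fun c => φ (C (u c) * X + C (v c))) =
      fun c => den * ψ (C (u₀ c) * X + C (v₀ c)) from funext hco]
    rw [sp_eval_smul hf, hroot, mul_zero]
  rw [← sp_map] at hbig
  have hmonic : (gline f u v).Monic := sp_monic hf _
  have haev : Polynomial.aeval (den ^ m * ψ p₀) (gline f u v) = 0 := by
    rw [Polynomial.aeval_def, ← Polynomial.eval_map]
    exact hbig
  obtain ⟨p, hp⟩ := isInteger_of_is_root_of_monic hmonic haev
  refine ⟨p, ?_⟩
  apply hφinj
  rw [map_zero, ← Polynomial.eval₂_hom, ← Polynomial.eval_map]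
  show ((gline f u v).map φ).eval (algebraMap ℚ[X] K p) = 0
  rw [hp]
  exact hbig

/-- For `D = 3` the restriction to a line which is not bad is irreducible: a monic polynomial of
degree `3` over `ℚ[X]` is irreducible iff it has no root in `ℚ[X]`. -/
theorem irreducible_of_not_bad {m : ℕ} {f : (MvPolynomial (Fin 3) ℤ)[X]} (hf : WMonic m 3 f)
    (y : Fin 3 → ℤ) (hb : ¬ BadLine f y) (u v : Fin 3 → ℚ)
    (hli : LinearIndependent ℚ ![u, v]) (hu : dot (rat y) u = 0) (hv : dot (rat y) v = 0) :
    Irreducible (gline f u v) := by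
  have hmonic : (gline f u v).Monic := sp_monic hf _
  have hdeg : (gline f u v).natDegree = 3 := sp_natDegree hf _
  rw [hmonic.irreducible_iff_roots_eq_zero_of_degree_le_three (by omega) (by omega)]
  by_contra hne
  obtain ⟨p, hp⟩ := Multiset.exists_mem_of_ne_zero hne
  rw [Polynomial.mem_roots hmonic.ne_zero] at hp
  exact hb ⟨u, v, hli, hu, hv, p, hp⟩

end Pool.MP_aab329_nt.SerreP
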