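import Pool.Agent.Lib.MP_aab329_nt.Defs

set_option autoImplicit false

namespace Pool.MP_aab329_nt.SerreP

open Polynomial

private lemma abs_coord {B : ℕ} {x : Fin 3 → ℤ} (h : mx x ≤ B) (i : Fin 3) :
    |((x i : ℤ) : ℝ)| ≤ B := by
  have : (x i).natAbs ≤ B :=
    (Finset.le_sup (f := fun i => (x i).natAbs) (Finset.mem_univ i)).trans h
  have h2 : |x i| ≤ (B : ℤ) := by
    rw [Int.abs_eq_natAbs]
    exact_mod_cast this
  exact_mod_cast h2

private lemma mv_bound (P : MvPolynomial (Fin 3) ℤ) :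
    ∃ (E : ℕ) (C : ℝ), 0 ≤ C ∧ ∀ (B : ℕ) (x : Fin 3 → ℤ), 1 ≤ B → mx x ≤ B →
      |((MvPolynomial.eval₂ (Int.castRingHom ℤ) x P : ℤ) : ℝ)| ≤ C * (B : ℝ) ^ E := by
  induction P using MvPolynomial.induction_on with
  | C a =>
    refine ⟨0, |(a : ℝ)|, abs_nonneg _, ?_⟩
    intro B x _ _
    simp
  | add p q hp hq =>
    obtain ⟨E1, C1, h1, h1'⟩ := hp
    obtain ⟨E2, C2, h2, h2'⟩ := hq
    refine ⟨E1 + E2, C1 + C2, by positivity, ?_⟩
    intro B x hB hx
    have hB' : (1 : ℝ) ≤ B := by exact_mod_cast hB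
    have a1 := h1' B x hB hx
    have a2 := h2' B x hB hx
    rw [MvPolynomial.eval₂_add]
    push_cast
    refine (abs_add_le _ _).trans ?_
    have b1 : (B : ℝ) ^ E1 ≤ (B : ℝ) ^ (E1 + E2) := pow_le_pow_right₀ hB' (by omega)
    have b2 : (B : ℝ) ^ E2 ≤ (B : ℝ) ^ (E1 + E2) := pow_le_pow_right₀ hB' (by omega)
    calc _ ≤ C1 * (B : ℝ) ^ E1 + C2 * (B : ℝ) ^ E2 := add_le_add a1 a2
      _ ≤ C1 * (B : ℝ) ^ (E1 + E2) + C2 * (B : ℝ) ^ (E1 + E2) := by gcongr
      _ = _ := by ring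
  | mul_X p i hp =>
    obtain ⟨E1, C1, h1, h1'⟩ := hp
    refine ⟨E1 + 1, C1, h1, ?_⟩
    intro B x hB hx
    have a1 := h1' B x hB hx
    rw [MvPolynomial.eval₂_mul, MvPolynomial.eval₂_X]
    push_cast
    rw [abs_mul]
    calc _ ≤ (C1 * (B : ℝ) ^ E1) * B := by
          apply mul_le_mul a1 (abs_coord hx i) (abs_nonneg _) (by positivity)
      _ = _ := by ring

private lemma coeffs_bound (f : (MvPolynomial (Fin 3) ℤ)[X]) (N : ℕ) :
    ∃ (E : ℕ) (C : ℝ), 0 ≤ C ∧ ∀ i < N, ∀ (B : ℕ) (x : Fin 3 → ℤ), 1 ≤ B → mx x ≤ B →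
      |(((sp f x).coeff i : ℤ) : ℝ)| ≤ C * (B : ℝ) ^ E := by
  induction N with
  | zero => exact ⟨0, 0, le_rfl, fun i hi => absurd hi (by omega)⟩
  | succ N ih =>
    obtain ⟨E1, C1, h1, h1'⟩ := ih
    obtain ⟨E2, C2, h2, h2'⟩ := mv_bound (f.coeff N)
    refine ⟨E1 + E2, C1 + C2, by positivity, ?_⟩
    intro i hi B x hB hx
    have hB' : (1 : ℝ) ≤ B := by exact_mod_cast hB
    have b1 : (B : ℝ) ^ E1 ≤ (B : ℝ) ^ (E1 + E2) := pow_le_pow_right₀ hB' (by omega)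
    have b2 : (B : ℝ) ^ E2 ≤ (B : ℝ) ^ (E1 + E2) := pow_le_pow_right₀ hB' (by omega)
    have hpos : (0 : ℝ) ≤ (B : ℝ) ^ (E1 + E2) := by positivity
    rcases Nat.lt_succ_iff_lt_or_eq.mp hi with h | h
    · refine (h1' i h B x hB hx).trans ?_
      calc C1 * (B : ℝ) ^ E1 ≤ C1 * (B : ℝ) ^ (E1 + E2) := by gcongr
        _ ≤ _ := by gcongr; linarith
    · subst h
      rw [sp_coeff]
      refine (h2' B x hB hx).trans ?_
      calc C2 * (B : ℝ) ^ E2 ≤ C2 * (B : ℝ) ^ (E1 + E2) := by gcongr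
        _ ≤ _ := by gcongr; linarith

/-- Size of the integral roots and of the derivative. (A root of a monic polynomial is at most
`1 +` the sum of the absolute values of the other coefficients; each coefficient `f_i(x)` is
bounded by a constant times a power of `B`.) -/
theorem root_size {m D : ℕ} {f : (MvPolynomial (Fin 3) ℤ)[X]} (hf : WMonic m D f) :
    ∃ (E : ℕ) (C : ℝ), 1 ≤ C ∧ ∀ (B : ℕ) (x : Fin 3 → ℤ) (τ : ℤ), 2 ≤ B → mx x ≤ B →
      (sp f x).eval τ = 0 →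
      |(τ : ℝ)| ≤ C * (B : ℝ) ^ E ∧
      |(((derivative (sp f x)).eval τ : ℤ) : ℝ)| ≤ C * (B : ℝ) ^ E := by
  obtain ⟨E, C0, hC0, hb⟩ := coeffs_bound f (D + 1)
  set C1 : ℝ := 1 + D * C0 with hC1
  have hC1' : 1 ≤ C1 := by rw [hC1]; nlinarith [(Nat.cast_nonneg D : (0 : ℝ) ≤ D)]
  refine ⟨E + E * D, C1 + (D + 1) * (C0 * D * C1 ^ D), ?_, ?_⟩
  · have : 0 ≤ ((D : ℝ) + 1) * (C0 * D * C1 ^ D) := by positivity
    linarith
  intro B x τ hB hx hroot
  have hB1 : 1 ≤ B := by omega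
  have hB' : (1 : ℝ) ≤ B := by exact_mod_cast hB1
  have hco : ∀ i < D + 1, |(((sp f x).coeff i : ℤ) : ℝ)| ≤ C0 * (B : ℝ) ^ E :=
    fun i hi => hb i hi B x hB1 hx
  have hmon := sp_monic hf x
  have hnd := sp_natDegree hf x
  have hBE : (1 : ℝ) ≤ (B : ℝ) ^ E := one_le_pow₀ hB'
  -- the root
  have hτ : |(τ : ℝ)| ≤ C1 * (B : ℝ) ^ E := by
    by_cases hle : |(τ : ℝ)| ≤ 1
    · calc |(τ : ℝ)| ≤ 1 := hle
        _ = 1 * 1 := by ring
        _ ≤ C1 * (B : ℝ) ^ E := by gcongr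
    push Not at hle
    rw [Polynomial.eval_eq_sum_range, hnd, Finset.sum_range_succ] at hroot
    have hlc : (sp f x).coeff D = 1 := by
      have := hmon.coeff_natDegree
      rwa [hnd] at this
    rw [hlc, one_mul] at hroot
    rcases Nat.eq_zero_or_pos D with h0 | h0
    · subst h0
      simp at hroot
    have hroot' : (τ : ℝ) ^ D = - ∑ i ∈ Finset.range D,
        (((sp f x).coeff i : ℤ) : ℝ) * (τ : ℝ) ^ i := by
      have : ((∑ i ∈ Finset.range D, (sp f x).coeff i * τ ^ i + τ ^ D : ℤ) : ℝ) = 0 := by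
        rw [hroot]; simp
      push_cast at this
      linarith
    have h3 : |(τ : ℝ)| ^ D ≤ (D * (C0 * (B : ℝ) ^ E)) * |(τ : ℝ)| ^ (D - 1) := by
      rw [← abs_pow, hroot', abs_neg]
      refine (Finset.abs_sum_le_sum_abs _ _).trans ?_
      calc ∑ i ∈ Finset.range D, |(((sp f x).coeff i : ℤ) : ℝ) * (τ : ℝ) ^ i|
          ≤ ∑ i ∈ Finset.range D, (C0 * (B : ℝ) ^ E) * |(τ : ℝ)| ^ (D - 1) := by
            apply Finset.sum_le_sum
            intro i hi
            have hi' := Finset.mem_range.mp hi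
            rw [abs_mul, abs_pow]
            apply mul_le_mul (hco i (by omega)) _ (by positivity) (by positivity)
            exact pow_le_pow_right₀ hle.le (by omega)
        _ = _ := by rw [Finset.sum_const, Finset.card_range, nsmul_eq_mul]; ring
    have h4 : |(τ : ℝ)| ^ D = |(τ : ℝ)| * |(τ : ℝ)| ^ (D - 1) := by
      rw [← pow_succ']; congr 1; omega
    rw [h4] at h3
    have h5 : |(τ : ℝ)| ≤ D * (C0 * (B : ℝ) ^ E) := by
      apply le_of_mul_le_mul_right h3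
      have : (0 : ℝ) < |(τ : ℝ)| := by linarith
      positivity
    calc |(τ : ℝ)| ≤ D * (C0 * (B : ℝ) ^ E) := h5
      _ = (D * C0) * (B : ℝ) ^ E := by ring
      _ ≤ C1 * (B : ℝ) ^ E := by gcongr; rw [hC1]; linarith
  have hT1 : 1 ≤ C1 * (B : ℝ) ^ E := by
    calc (1 : ℝ) = 1 * 1 := by ring
      _ ≤ C1 * (B : ℝ) ^ E := by gcongr
  have hpw : (B : ℝ) ^ E ≤ (B : ℝ) ^ (E + E * D) := pow_le_pow_right₀ hB' (by omega)
  have hpw0 : (0 : ℝ) ≤ (B : ℝ) ^ (E + E * D) := by positivity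
  have hX : 0 ≤ ((D : ℝ) + 1) * (C0 * D * C1 ^ D) := by positivity
  constructor
  · calc |(τ : ℝ)| ≤ C1 * (B : ℝ) ^ E := hτ
      _ ≤ C1 * (B : ℝ) ^ (E + E * D) := by gcongr
      _ ≤ _ := by gcongr; linarith
  · have hder : (derivative (sp f x)).eval τ =
        ∑ i ∈ Finset.range (D + 1), (sp f x).coeff i * i * τ ^ (i - 1) := by
      rw [Polynomial.derivative_eval,
        Polynomial.sum_over_range' _ (by simp) (D + 1) (by rw [hnd]; omega)]
    rw [hder]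
    push_cast
    refine (Finset.abs_sum_le_sum_abs _ _).trans ?_
    calc ∑ i ∈ Finset.range (D + 1),
          |(((sp f x).coeff i : ℤ) : ℝ) * (i : ℝ) * (τ : ℝ) ^ (i - 1)|
        ≤ ∑ i ∈ Finset.range (D + 1), (C0 * (B : ℝ) ^ E) * D * (C1 * (B : ℝ) ^ E) ^ D := by
          apply Finset.sum_le_sum
          intro i hi
          have hi' := Finset.mem_range.mp hi
          rw [abs_mul, abs_mul, abs_pow]
          have e1 := hco i hi'
          have e2 : |(i : ℝ)| ≤ D := by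
            rw [abs_of_nonneg (Nat.cast_nonneg i)]
            exact_mod_cast Nat.lt_succ_iff.mp hi'
          have e3 : |(τ : ℝ)| ^ (i - 1) ≤ (C1 * (B : ℝ) ^ E) ^ D :=
            calc |(τ : ℝ)| ^ (i - 1) ≤ (C1 * (B : ℝ) ^ E) ^ (i - 1) := by gcongr
              _ ≤ _ := pow_le_pow_right₀ hT1 (by omega)
          gcongr
      _ = ((D : ℝ) + 1) * (C0 * D * C1 ^ D) * (B : ℝ) ^ (E + E * D) := by
          rw [Finset.sum_const, Finset.card_range, nsmul_eq_mul, mul_pow, ← pow_mul, pow_add]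
          push_cast
          ring
      _ ≤ _ := by gcongr; linarith

end Pool.MP_aab329_nt.SerreP
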