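import Pool.Agent.Lib.MP_aab329_nt.CurveBound
import Pool.Agent.Lib.MP_aab329_nt.Lattice
import Pool.Agent.Lib.MP_aab329_nt.Mobius
import Pool.Agent.Lib.MP_aab329_nt.RootSize
import Pool.Agent.Lib.MP_aab329_nt.LineDeg

set_option autoImplicit false

namespace Pool.MP_aab329_nt.SerreP

open Polynomial Real

private theorem gl_dot_rat (y u : Fin 3 → ℤ) (h : dot y u = 0) : dot (rat y) (rat u) = 0 := by
  unfold dot rat at *
  exact_mod_cast h

private theorem gl_cop (u v x : Fin 3 → ℤ) (α β : ℤ) (hx : x = fun c => α * u c + β * v c)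
    (hp : prim x) : IsCoprime α β := by
  rw [Int.isCoprime_iff_gcd_eq_one]
  have h1 : ((Int.gcd α β : ℕ) : ℤ) ∣ Finset.univ.gcd x := by
    apply Finset.dvd_gcd
    intro c _
    rw [hx]
    exact dvd_add (Dvd.dvd.mul_right (Int.gcd_dvd_left ..) _)
      (Dvd.dvd.mul_right (Int.gcd_dvd_right ..) _)
  unfold prim at hp
  rw [hp] at h1
  have h2 := Int.natAbs_dvd_natAbs.2 h1
  simpa using h2

private theorem gl_pm (u x : Fin 3 → ℤ) (α : ℤ) (hx : x = fun c => α * u c) (hp : prim x) :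
    x = u ∨ x = -u := by
  have h1 : α ∣ Finset.univ.gcd x := by
    apply Finset.dvd_gcd
    intro c _
    rw [hx]
    exact Dvd.intro _ rfl
  unfold prim at hp
  rw [hp] at h1
  rcases Int.isUnit_iff.1 (isUnit_of_dvd_one h1) with h | h
  · left; rw [hx, h]; funext c; simp
  · right; rw [hx, h]; funext c; simp

private theorem gl_nsq_le (x : Fin 3 → ℤ) (B : ℕ) (hx : mx x ≤ B) : nsq x ≤ 3 * (B : ℤ) ^ 2 := by
  have h : ∀ i, (x i).natAbs ≤ B := by
    unfold mx at hx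
    rw [Finset.sup_le_iff] at hx
    exact fun i => hx i (Finset.mem_univ i)
  have h2 : ∀ i, x i * x i ≤ (B : ℤ) ^ 2 := by
    intro i
    have h3 : |x i| ≤ (B : ℤ) := by
      rw [Int.abs_eq_natAbs]
      exact_mod_cast h i
    have h4 := abs_le.1 h3
    nlinarith [h4.1, h4.2]
  unfold nsq dot
  have a0 := h2 0
  have a1 := h2 1
  have a2 := h2 2
  linarith

private theorem gl_mx_sq_le (y : Fin 3 → ℤ) : ((mx y : ℕ) : ℤ) ^ 2 ≤ nsq y := by
  obtain ⟨i, -, hi⟩ := Finset.exists_mem_eq_sup (Finset.univ : Finset (Fin 3))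
    Finset.univ_nonempty (fun i => (y i).natAbs)
  have h1 : ((mx y : ℕ) : ℤ) ^ 2 = y i * y i := by
    unfold mx
    rw [hi, sq]
    exact Int.natAbs_mul_self' (y i)
  rw [h1]
  unfold nsq dot
  fin_cases i <;> simp <;> nlinarith [mul_self_nonneg (y 0), mul_self_nonneg (y 1),
    mul_self_nonneg (y 2)]

private theorem gl_mx_pos (y : Fin 3 → ℤ) (hy : prim y) : 1 ≤ mx y := by
  by_contra hcon
  have h0 : mx y = 0 := by omega
  have h1 : ∀ i, y i = 0 := by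
    intro i
    have : (y i).natAbs ≤ mx y := by
      unfold mx
      exact Finset.le_sup (f := fun i => (y i).natAbs) (Finset.mem_univ i)
    rw [h0] at this
    exact Int.natAbs_eq_zero.1 (by omega)
  have h2 : Finset.univ.gcd y = 0 := by
    rw [Finset.gcd_eq_zero_iff]
    exact fun i _ => h1 i
  unfold prim at hy
  rw [h2] at hy
  exact absurd hy (by norm_num)

private theorem gl_coord (a n : ℤ) (B : ℕ) (hn : 1 ≤ n) (h : a ^ 2 * n ≤ 6 * (B : ℤ) ^ 2) :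
    |(a : ℝ)| ≤ √6 * B / √(n : ℝ) := by
  have hn' : (0 : ℝ) < n := by exact_mod_cast (by omega : (0 : ℤ) < n)
  have hs : 0 < √(n : ℝ) := Real.sqrt_pos.2 hn'
  rw [le_div_iff₀ hs]
  have h1 : (a : ℝ) ^ 2 * n ≤ 6 * (B : ℝ) ^ 2 := by exact_mod_cast h
  have h2 : |(a : ℝ)| * √(n : ℝ) = √((a : ℝ) ^ 2 * n) := by
    rw [Real.sqrt_mul (sq_nonneg _), Real.sqrt_sq_eq_abs]
  have h3 : √6 * (B : ℝ) = √(6 * (B : ℝ) ^ 2) := by
    rw [Real.sqrt_mul (by norm_num), Real.sqrt_sq (by positivity)]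
  rw [h2, h3]
  exact Real.sqrt_le_sqrt h1

private theorem gl_hh {m : ℕ} {f : (MvPolynomial (Fin 3) ℤ)[X]} (hf : WMonic m 3 f)
    (u v x : Fin 3 → ℤ) (α β τ : ℤ) (hβ : β ≠ 0) (hx : x = fun c => α * u c + β * v c)
    (hr : (sp f x).eval τ = 0) :
    ((gline f (rat u) (rat v)).map (evalRingHom ((α : ℚ) / (β : ℚ)))).eval
      ((τ : ℚ) / (β : ℚ) ^ m) = 0 := by
  have hβ' : (β : ℚ) ≠ 0 := by exact_mod_cast hβ
  unfold gline
  rw [sp_map]
  have h1 := sp_eval_smul hf (β : ℚ) ((τ : ℚ) / (β : ℚ) ^ m)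
    (fun c => (evalRingHom ((α : ℚ) / (β : ℚ))) (C (rat u c) * X + C (rat v c)))
  have h2 : (β : ℚ) ^ m * ((τ : ℚ) / (β : ℚ) ^ m) = τ := by
    field_simp
  have h3 : (fun c => (β : ℚ) * (evalRingHom ((α : ℚ) / (β : ℚ))) (C (rat u c) * X + C (rat v c)))
      = fun c => (Int.castRingHom ℚ) (x c) := by
    funext c
    rw [hx]
    simp only [coe_evalRingHom, eval_add, eval_mul, eval_C, eval_X, rat, eq_intCast]
    push_cast
    field_simp
  rw [h2, h3, ← sp_map, Polynomial.eval_intCast_map, Int.cast_id, hr, map_zero] at h1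
  have h4 : (β : ℚ) ^ (m * 3) ≠ 0 := pow_ne_zero _ hβ'
  exact (mul_eq_zero.1 h1.symm).resolve_left h4

/-- Points of the thin set on a good line, `D = 3`. From `reduced_basis` as in `any_line`:
`U = sqrt 6 B / sqrt (nsq u)`, `V = sqrt 6 B / sqrt (nsq v)`, `U, V ≥ 1`, `U V ≤ 6 B^2 / mx y`;
`x` primitive makes `α, β` coprime; `β = 0` gives `x = ± u`; otherwise `curve_bound` with
`D = e = 3`, `M = 3 m`, `h = gline f (rat u) (rat v)` (irreducible: `irreducible_of_not_bad`;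
`hh` by `sp_map`, `sp_eval_smul`), `W = C' B^E'` from `root_size`. -/
theorem good_line {m : ℕ} (hm : 1 ≤ m) {f : (MvPolynomial (Fin 3) ℤ)[X]} (hf : WMonic m 3 f) :
    ∃ (c : ℕ) (C : ℝ), 0 < C ∧ ∀ B : ℕ, 3 ≤ B → ∀ y : Fin 3 → ℤ, prim y → nsq y ≤ 9 * B →
      ¬ BadLine f y →
      ({x : Fin 3 → ℤ | prim x ∧ mx x ≤ B ∧ dot y x = 0 ∧ ∃ τ : ℤ, (sp f x).eval τ = 0 ∧
        (derivative (sp f x)).eval τ ≠ 0}.ncard : ℝ) ≤
        C * ((B : ℝ) ^ 2 / mx y) ^ (1 / 3 : ℝ) * (log B) ^ c := by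
  obtain ⟨c, C, hC, hcurve⟩ := curve_bound m 3 3 (m * 3) hm (by norm_num)
  obtain ⟨E, C', hC', hroot⟩ := root_size hf
  have hlogC' : 0 ≤ log C' := Real.log_nonneg hC'
  have hlog3 : 0 ≤ log (3 : ℝ) := Real.log_nonneg (by norm_num)
  set K : ℝ := log 3 + log C' + (E + 1) with hK
  have hK0 : 0 ≤ K := by positivity
  refine ⟨c, 2 + C * 2 * K ^ c, by positivity, ?_⟩
  intro B hB y hy hyB hgood
  obtain ⟨u, v, hyu, hyv, hgen, hred, hdet, hu1, huv, hvy, hli⟩ := reduced_basis y hy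
  have hB3 : (3 : ℝ) ≤ B := by exact_mod_cast hB
  have hB0 : (0 : ℝ) < B := by linarith
  have hB1 : (1 : ℝ) ≤ B := by linarith
  have hlogB : 1 ≤ log (B : ℝ) := by
    rw [Real.le_log_iff_exp_le hB0]
    have := Real.exp_one_lt_d9
    linarith
  have hv1 : 1 ≤ nsq v := hu1.trans huv
  have hnu : (1 : ℝ) ≤ (nsq u : ℝ) := by exact_mod_cast hu1
  have hnv : (1 : ℝ) ≤ (nsq v : ℝ) := by exact_mod_cast hv1
  have hsu : 1 ≤ √(nsq u : ℝ) := by rw [Real.one_le_sqrt]; exact hnu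
  have hsv : 1 ≤ √(nsq v : ℝ) := by rw [Real.one_le_sqrt]; exact hnv
  have hmy := gl_mx_pos y hy
  have hmy0 : (0 : ℝ) < (mx y : ℝ) := by exact_mod_cast hmy
  have hs6 : √(6 : ℝ) ≤ 3 := by
    rw [Real.sqrt_le_left (by norm_num)]; norm_num
  have hs60 : 0 < √(6 : ℝ) := Real.sqrt_pos.2 (by norm_num)
  set U : ℝ := √6 * B / √(nsq u : ℝ) with hU
  set V : ℝ := √6 * B / √(nsq v : ℝ) with hV
  have hv6 : nsq v ≤ 6 * (B : ℤ) ^ 2 := by
    have : (3 : ℤ) ≤ B := by exact_mod_cast hB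
    nlinarith
  have hu6 : nsq u ≤ 6 * (B : ℤ) ^ 2 := huv.trans hv6
  have hsB : √6 * (B : ℝ) = √(6 * (B : ℝ) ^ 2) := by
    rw [Real.sqrt_mul (by norm_num), Real.sqrt_sq hB0.le]
  have hU1 : 1 ≤ U := by
    rw [hU, one_le_div (by linarith), hsB]
    apply Real.sqrt_le_sqrt
    exact_mod_cast hu6
  have hV1 : 1 ≤ V := by
    rw [hV, one_le_div (by linarith), hsB]
    apply Real.sqrt_le_sqrt
    exact_mod_cast hv6
  have hU3 : U ≤ 3 * B := by
    rw [hU]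
    refine (div_le_self (by positivity) hsu).trans ?_
    exact mul_le_mul_of_nonneg_right hs6 hB0.le
  have hV3 : V ≤ 3 * B := by
    rw [hV]
    refine (div_le_self (by positivity) hsv).trans ?_
    exact mul_le_mul_of_nonneg_right hs6 hB0.le
  have hmxle : (mx y : ℝ) ≤ √(nsq u : ℝ) * √(nsq v : ℝ) := by
    rw [← Real.sqrt_mul (by linarith)]
    apply Real.le_sqrt_of_sq_le
    exact_mod_cast (gl_mx_sq_le y).trans hdet
  have hUV : U * V ≤ 6 * ((B : ℝ) ^ 2 / mx y) := by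
    have h1 : U * V = 6 * ((B : ℝ) ^ 2 / (√(nsq u : ℝ) * √(nsq v : ℝ))) := by
      rw [hU, hV, div_mul_div_comm]
      have : √(6 : ℝ) * √(6 : ℝ) = 6 := Real.mul_self_sqrt (by norm_num)
      rw [show √6 * (B : ℝ) * (√6 * (B : ℝ)) = (√6 * √6) * (B : ℝ) ^ 2 by ring, this]
      ring
    rw [h1]
    have h2 : (B : ℝ) ^ 2 / (√(nsq u : ℝ) * √(nsq v : ℝ)) ≤ (B : ℝ) ^ 2 / mx y :=
      div_le_div_of_nonneg_left (by positivity) hmy0 hmxle
    linarith
  have hmxB : (1 : ℝ) ≤ (B : ℝ) ^ 2 / mx y := by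
    rw [one_le_div hmy0]
    have h1 : ((mx y : ℕ) : ℤ) ^ 2 ≤ 9 * B := (gl_mx_sq_le y).trans hyB
    have h2 : ((mx y : ℕ) : ℝ) ^ 2 ≤ 9 * B := by exact_mod_cast h1
    have h3 : (9 : ℝ) * B ≤ ((B : ℝ) ^ 2) ^ 2 := by
      have : (27 : ℝ) ≤ (B : ℝ) ^ 3 := by
        have := pow_le_pow_left₀ (by norm_num) hB3 3
        norm_num at this
        linarith
      nlinarith
    exact le_of_sq_le_sq (h2.trans h3) (by positivity)
  set W : ℝ := 3 * C' * (B : ℝ) ^ (E + 1) with hW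
  have hBE : (1 : ℝ) ≤ (B : ℝ) ^ E := one_le_pow₀ hB1
  have hW1 : 3 * (B : ℝ) ≤ W := by
    rw [hW, pow_succ]
    have : (1 : ℝ) ≤ C' * (B : ℝ) ^ E := by nlinarith
    nlinarith
  have hW2 : C' * (B : ℝ) ^ E ≤ W := by
    rw [hW, pow_succ]
    have : (0 : ℝ) ≤ C' * (B : ℝ) ^ E := by positivity
    nlinarith
  have hW3 : 3 ≤ W := by linarith
  have hQ := hcurve f hf u v (gline f (rat u) (rat v)) (sp_monic hf _) (sp_natDegree hf _)
    (irreducible_of_not_bad hf y hgood (rat u) (rat v) hli (gl_dot_rat y u hyu)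
      (gl_dot_rat y v hyv)) (gline_coeff_natDegree hf (rat u) (rat v)) U V W hU1 hV1
    (hU3.trans hW1) (hV3.trans hW1) hW3
  set Q : Set (ℤ × ℤ) := {q : ℤ × ℤ | ∃ τ : ℤ, IsPt m f u v (gline f (rat u) (rat v)) U V W
    q.1 q.2 τ} with hQdef
  have hQfin : Q.Finite := by
    apply ((Set.finite_Icc (-⌊U⌋) ⌊U⌋).prod (Set.finite_Icc (-⌊V⌋) ⌊V⌋)).subset
    rintro ⟨a, b⟩ ⟨τ, h⟩
    have h1 := abs_le.1 h.hα
    have h2 := abs_le.1 h.hβ
    simp only at h1 h2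
    refine ⟨⟨?_, Int.le_floor.2 h1.2⟩, ⟨?_, Int.le_floor.2 h2.2⟩⟩
    · have : -a ≤ ⌊U⌋ := Int.le_floor.2 (by push_cast; linarith)
      simp only; linarith
    · have : -b ≤ ⌊V⌋ := Int.le_floor.2 (by push_cast; linarith)
      simp only; linarith
  have hsub : {x : Fin 3 → ℤ | prim x ∧ mx x ≤ B ∧ dot y x = 0 ∧ ∃ τ : ℤ, (sp f x).eval τ = 0 ∧
        (derivative (sp f x)).eval τ ≠ 0} ⊆
      ({u, -u} : Set (Fin 3 → ℤ)) ∪ (fun q : ℤ × ℤ => fun c => q.1 * u c + q.2 * v c) '' Q := by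
    rintro x ⟨hp, hxB, hyx, τ, hτ, hτ'⟩
    obtain ⟨α, β, hx⟩ := hgen x hyx
    rcases eq_or_ne β 0 with hβ | hβ
    · left
      have hx' : x = fun c => α * u c := by
        rw [hx, hβ]; funext c; ring
      exact gl_pm u x α hx' hp
    · right
      refine ⟨(α, β), ?_, hx.symm⟩
      have hr := hred α β
      rw [← hx] at hr
      have hn := gl_nsq_le x B hxB
      have ha : 0 ≤ α ^ 2 * nsq u := mul_nonneg (sq_nonneg _) (by linarith)
      have hb : 0 ≤ β ^ 2 * nsq v := mul_nonneg (sq_nonneg _) (by linarith)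
      obtain ⟨hz1, hz2⟩ := hroot B x τ (by omega) hxB hτ
      refine ⟨τ, gl_cop u v x α β hx hp, hβ, ?_, ?_, hz1.trans hW2, ?_, ?_, ?_, ?_⟩
      · exact gl_coord α (nsq u) B hu1 (by linarith)
      · exact gl_coord β (nsq v) B hv1 (by linarith)
      · simp only [← hx]; exact hτ
      · simp only [← hx]; exact hτ'
      · simp only [← hx]; exact hz2.trans hW2
      · exact gl_hh hf u v x α β τ hβ hx hτ
  have hcard : ({x : Fin 3 → ℤ | prim x ∧ mx x ≤ B ∧ dot y x = 0 ∧ ∃ τ : ℤ,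
      (sp f x).eval τ = 0 ∧ (derivative (sp f x)).eval τ ≠ 0}.ncard : ℝ) ≤ 2 + Q.ncard := by
    have h1 := Set.ncard_le_ncard hsub ((Set.toFinite _).union (hQfin.image _))
    have h2 := Set.ncard_union_le ({u, -u} : Set (Fin 3 → ℤ))
      ((fun q : ℤ × ℤ => fun c => q.1 * u c + q.2 * v c) '' Q)
    have h3 : ({u, -u} : Set (Fin 3 → ℤ)).ncard ≤ 2 := by
      refine (Set.ncard_insert_le _ _).trans ?_
      rw [Set.ncard_singleton]
    have h4 := Set.ncard_image_le (f := fun q : ℤ × ℤ => fun c => q.1 * u c + q.2 * v c) hQfin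
    exact_mod_cast (h1.trans h2).trans (add_le_add h3 h4)
  refine hcard.trans ?_
  set R : ℝ := ((B : ℝ) ^ 2 / mx y) ^ (1 / 3 : ℝ) with hR
  have hR1 : 1 ≤ R := Real.one_le_rpow hmxB (by norm_num)
  have hUVR : (U * V) ^ (1 / ((3 : ℕ) : ℝ)) ≤ 2 * R := by
    have h1 : (U * V) ^ (1 / ((3 : ℕ) : ℝ)) ≤ (6 * ((B : ℝ) ^ 2 / mx y)) ^ (1 / ((3 : ℕ) : ℝ)) :=
      Real.rpow_le_rpow (by positivity) hUV (by norm_num)
    refine h1.trans ?_
    rw [Real.mul_rpow (by norm_num) (by positivity)]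
    have h2 : (6 : ℝ) ^ (1 / ((3 : ℕ) : ℝ)) ≤ 2 := by
      have : (6 : ℝ) ^ (1 / ((3 : ℕ) : ℝ)) ≤ (8 : ℝ) ^ (1 / ((3 : ℕ) : ℝ)) :=
        Real.rpow_le_rpow (by norm_num) (by norm_num) (by norm_num)
      refine this.trans (le_of_eq ?_)
      rw [show (8 : ℝ) = 2 ^ (3 : ℝ) by norm_num, ← Real.rpow_mul (by norm_num)]
      norm_num
    have h3 : ((B : ℝ) ^ 2 / mx y) ^ (1 / ((3 : ℕ) : ℝ)) = R := by
      rw [hR]; norm_num
    rw [h3]
    exact mul_le_mul_of_nonneg_right h2 (by linarith)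
  have hlogW : log W ≤ K * log B := by
    rw [hW, Real.log_mul (by positivity) (by positivity), Real.log_mul (by norm_num) (by linarith),
      Real.log_pow, hK]
    push_cast
    nlinarith [mul_le_mul_of_nonneg_left hlogB hlog3, mul_le_mul_of_nonneg_left hlogB hlogC']
  have hlogW0 : 0 ≤ log W := Real.log_nonneg (by linarith)
  have hlogWc : (log W) ^ c ≤ K ^ c * (log B) ^ c := by
    rw [← mul_pow]
    exact pow_le_pow_left₀ hlogW0 hlogW c
  have hLc : (1 : ℝ) ≤ (log (B : ℝ)) ^ c := one_le_pow₀ hlogB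
  have hfin : (Q.ncard : ℝ) ≤ C * (2 * R) * (K ^ c * (log B) ^ c) := by
    refine hQ.trans ?_
    have h1 : C * (U * V) ^ (1 / ((3 : ℕ) : ℝ)) ≤ C * (2 * R) :=
      mul_le_mul_of_nonneg_left hUVR hC.le
    exact mul_le_mul h1 hlogWc (by positivity) (by positivity)
  have hRL : (1 : ℝ) ≤ R * (log (B : ℝ)) ^ c := by nlinarith
  calc 2 + (Q.ncard : ℝ) ≤ 2 * (R * (log (B : ℝ)) ^ c) + C * (2 * R) * (K ^ c * (log B) ^ c) := by
        linarith
    _ = (2 + C * 2 * K ^ c) * R * (log B) ^ c := by ring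

end Pool.MP_aab329_nt.SerreP
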