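import Pool.Agent.Lib.MP_aab329_nt.Lattice

set_option autoImplicit false

namespace Pool.MP_aab329_nt.SerreP

private theorem pz_prim_ne {a : Fin 3 → ℤ} (ha : prim a) : ∃ j, a j ≠ 0 := by
  by_contra h
  push Not at h
  unfold prim at ha
  have : Finset.univ.gcd a = 0 := by
    rw [Finset.gcd_eq_zero_iff]
    intro x _
    exact h x
  rw [this] at ha
  exact absurd ha (by norm_num)

private theorem pz_dvd {a b : Fin 3 → ℤ} (ha : prim a) (h : ∀ i j, a i * b j = a j * b i)
    (j : Fin 3) : a j ∣ b j := by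
  have h1 : a j ∣ Finset.univ.gcd (fun i => b j * a i) := by
    apply Finset.dvd_gcd
    intro i _
    exact ⟨b i, by rw [mul_comm (b j), h i j]⟩
  rw [Finset.gcd_mul_left] at h1
  unfold prim at ha
  have h2 : Finset.univ.gcd a = 1 := ha
  have h3 : (Finset.univ.gcd fun i => a i) = 1 := h2
  rw [h3, mul_one] at h1
  exact (dvd_normalize_iff).mp h1

private theorem pz_cross {a b : Fin 3 → ℤ} (ha : prim a) (hb : prim b)
    (h : ∀ i j, a i * b j = a j * b i) : b = a ∨ b = -a := by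
  obtain ⟨j, hj⟩ := pz_prim_ne ha
  have h1 := pz_dvd ha h j
  have h2 : b j ∣ a j := pz_dvd hb (fun i k => by linarith [h k i]) j
  have h3 : (a j).natAbs = (b j).natAbs :=
    Nat.dvd_antisymm (Int.natAbs_dvd_natAbs.mpr h1) (Int.natAbs_dvd_natAbs.mpr h2)
  rcases Int.natAbs_eq_natAbs_iff.mp h3 with h4 | h4
  · left
    funext i
    have := h j i
    rw [← h4, mul_comm (a i)] at this
    exact mul_left_cancel₀ hj this
  · right
    funext i
    have := h j i
    have h5 : b j = - a j := by omega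
    rw [h5] at this
    have h6 : a j * b i = a j * (- a i) := by rw [this]; ring
    exact mul_left_cancel₀ hj h6

private theorem pz_line (w : Fin 3 → ℚ) :
    {a : Fin 3 → ℤ | prim a ∧ ∃ c : ℚ, rat a = fun i => c * w i}.Finite := by
  by_cases hne : ({a : Fin 3 → ℤ | prim a ∧ ∃ c : ℚ, rat a = fun i => c * w i}).Nonempty
  · obtain ⟨a0, ha0, c0, hc0⟩ := hne
    apply Set.Finite.subset (Set.toFinite ({a0, -a0} : Set (Fin 3 → ℤ)))
    rintro a ⟨ha, c, hc⟩
    have hcr : ∀ i j, a0 i * a j = a0 j * a i := by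
      intro i j
      have e1 : ((a0 i : ℤ) : ℚ) = c0 * w i := congrFun hc0 i
      have e2 : ((a0 j : ℤ) : ℚ) = c0 * w j := congrFun hc0 j
      have e3 : ((a i : ℤ) : ℚ) = c * w i := congrFun hc i
      have e4 : ((a j : ℤ) : ℚ) = c * w j := congrFun hc j
      have : ((a0 i * a j : ℤ) : ℚ) = ((a0 j * a i : ℤ) : ℚ) := by
        push_cast
        rw [e1, e2, e3, e4]
        ring
      exact_mod_cast this
    rcases pz_cross ha0 ha hcr with h | h
    · left; exact h
    · right; exact h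
  · rw [Set.not_nonempty_iff_eq_empty] at hne
    rw [hne]
    exact Set.finite_empty

private noncomputable def pzB (Δ : MvPolynomial (Fin 3) ℤ) (u v : Fin 3 → ℤ) (x y : ℚ) : ℚ :=
  MvPolynomial.eval₂ (Int.castRingHom ℚ) (fun c => x * (u c : ℚ) + y * (v c : ℚ)) Δ

private theorem pzB_int (Δ : MvPolynomial (Fin 3) ℤ) (u v : Fin 3 → ℤ) (α β : ℤ) :
    pzB Δ u v α β = ((MvPolynomial.eval (fun c => α * u c + β * v c) Δ : ℤ) : ℚ) := by
  unfold pzB
  have h := MvPolynomial.eval₂_comp_left (Int.castRingHom ℚ) (RingHom.id ℤ)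
    (fun c => α * u c + β * v c) Δ
  have e1 : (Int.castRingHom ℚ) ((MvPolynomial.eval₂ (RingHom.id ℤ)
    (fun c => α * u c + β * v c)) Δ) = ((MvPolynomial.eval (fun c => α * u c + β * v c) Δ : ℤ) : ℚ) := by
    rfl
  rw [e1] at h
  rw [h]
  congr 1
  funext c
  simp

private theorem pzB_smul {Δ : MvPolynomial (Fin 3) ℤ} {N : ℕ} (hΔh : Δ.IsHomogeneous N)
    (u v : Fin 3 → ℤ) (x y : ℚ) (hy : y ≠ 0) :
    pzB Δ u v x y = y ^ N * pzB Δ u v (x / y) 1 := by
  unfold pzB
  rw [← eval₂_smul_hom hΔh]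
  congr 1
  funext c
  field_simp

private noncomputable def pzG (Δ : MvPolynomial (Fin 3) ℤ) (u v : Fin 3 → ℤ) : Polynomial ℚ :=
  MvPolynomial.eval₂ (Int.castRingHom (Polynomial ℚ))
    (fun c => Polynomial.C (u c : ℚ) * Polynomial.X + Polynomial.C (v c : ℚ)) Δ

private theorem pzG_eval (Δ : MvPolynomial (Fin 3) ℤ) (u v : Fin 3 → ℤ) (x : ℚ) :
    (pzG Δ u v).eval x = pzB Δ u v x 1 := by
  unfold pzG pzB
  have h := MvPolynomial.eval₂_comp_left (Polynomial.evalRingHom x)
    (Int.castRingHom (Polynomial ℚ))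
    (fun c => Polynomial.C (u c : ℚ) * Polynomial.X + Polynomial.C (v c : ℚ)) Δ
  rw [Polynomial.coe_evalRingHom] at h
  rw [h]
  have e1 : (Polynomial.evalRingHom x).comp (Int.castRingHom (Polynomial ℚ)) = Int.castRingHom ℚ :=
    RingHom.ext_int _ _
  rw [e1]
  congr 1
  funext c
  simp [mul_comm]

private noncomputable def pzH (Δ : MvPolynomial (Fin 3) ℤ) (u v : Fin 3 → ℤ) (x : ℚ) :
    Polynomial ℚ :=
  MvPolynomial.eval₂ (Int.castRingHom (Polynomial ℚ))
    (fun c => Polynomial.C (x * u c : ℚ) + Polynomial.C (v c : ℚ) * Polynomial.X) Δ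

private theorem pzH_eval (Δ : MvPolynomial (Fin 3) ℤ) (u v : Fin 3 → ℤ) (x y : ℚ) :
    (pzH Δ u v x).eval y = pzB Δ u v x y := by
  unfold pzH pzB
  have h := MvPolynomial.eval₂_comp_left (Polynomial.evalRingHom y)
    (Int.castRingHom (Polynomial ℚ))
    (fun c => Polynomial.C (x * u c : ℚ) + Polynomial.C (v c : ℚ) * Polynomial.X) Δ
  rw [Polynomial.coe_evalRingHom] at h
  rw [h]
  have e1 : (Polynomial.evalRingHom y).comp (Int.castRingHom (Polynomial ℚ)) = Int.castRingHom ℚ :=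
    RingHom.ext_int _ _
  rw [e1]
  congr 1
  funext c
  simp [mul_comm]

private theorem pz_all_zero {Δ : MvPolynomial (Fin 3) ℤ} {N : ℕ} (hΔh : Δ.IsHomogeneous N)
    (u v : Fin 3 → ℤ) (hG : pzG Δ u v = 0) (x y : ℚ) : pzB Δ u v x y = 0 := by
  have h1 : ∀ x y : ℚ, y ≠ 0 → pzB Δ u v x y = 0 := by
    intro x y hy
    rw [pzB_smul hΔh u v x y hy, ← pzG_eval, hG]
    simp
  by_cases hy : y = 0
  · have hH : pzH Δ u v x = 0 := by
      apply Polynomial.eq_zero_of_infinite_isRoot
      apply Set.Infinite.mono (s := {y : ℚ | y ≠ 0})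
      · intro t ht
        change (pzH Δ u v x).eval t = 0
        rw [pzH_eval]
        exact h1 x t ht
      · exact (Set.finite_singleton (0 : ℚ)).infinite_compl
    rw [← pzH_eval, hH]
    simp
  · exact h1 x y hy

/-- A form which does not vanish at some point of the plane `z x = 0` vanishes at only finitely
many primitive points of this plane. (Use a basis `u, v` of the lattice `z x = 0` from
`reduced_basis`; `Δ(α u + β v)` is a nonzero binary form.) -/
theorem plane_zeros_finite (Δ : MvPolynomial (Fin 3) ℤ) (N : ℕ) (hΔh : Δ.IsHomogeneous N)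
    (z Q : Fin 3 → ℤ) (hz : prim z) (hzQ : dot z Q = 0) (hQ : MvPolynomial.eval Q Δ ≠ 0) :
    {a : Fin 3 → ℤ | prim a ∧ dot z a = 0 ∧ MvPolynomial.eval a Δ = 0}.Finite := by
  obtain ⟨u, v, -, -, hb, -⟩ := reduced_basis z hz
  have hG : pzG Δ u v ≠ 0 := by
    intro hG
    obtain ⟨α, β, hQe⟩ := hb Q hzQ
    apply hQ
    have h := pz_all_zero hΔh u v hG α β
    rw [pzB_int, ← hQe] at h
    exact_mod_cast h
  have hfin : (⋃ r ∈ ((pzG Δ u v).roots.toFinset : Finset ℚ),
      {a : Fin 3 → ℤ | prim a ∧ ∃ c : ℚ, rat a = fun i => c * (r * (u i : ℚ) + (v i : ℚ))}).Finite := by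
    apply Set.Finite.biUnion (Finset.finite_toSet _)
    intro r _
    exact pz_line _
  apply Set.Finite.subset (hfin.union (pz_line (fun i => (u i : ℚ))))
  rintro a ⟨ha, hza, hΔa⟩
  obtain ⟨α, β, hae⟩ := hb a hza
  by_cases hβ : β = 0
  · right
    refine ⟨ha, α, ?_⟩
    funext i
    have := congrFun hae i
    simp only [rat]
    rw [this, hβ]
    push_cast
    ring
  · left
    have hβ' : (β : ℚ) ≠ 0 := by exact_mod_cast hβ
    simp only [Set.mem_iUnion]
    refine ⟨(α : ℚ) / β, ?_, ha, β, ?_⟩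
    · rw [Multiset.mem_toFinset, Polynomial.mem_roots hG]
      change (pzG Δ u v).eval _ = 0
      rw [pzG_eval]
      have h := pzB_smul hΔh u v α β hβ'
      rw [pzB_int, ← hae, hΔa] at h
      have h2 : (β : ℚ) ^ N ≠ 0 := pow_ne_zero _ hβ'
      have h3 : (0 : ℚ) = (β : ℚ) ^ N * pzB Δ u v (α / β) 1 := by exact_mod_cast h
      exact (mul_eq_zero.mp h3.symm).resolve_left h2
    · funext i
      have := congrFun hae i
      simp only [rat]
      rw [this]
      push_cast
      field_simp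

end Pool.MP_aab329_nt.SerreP
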