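import Pool.Agent.Lib.MP_aab329_nt.Defs

set_option autoImplicit false

namespace Pool.MP_aab329_nt.SerreP

open Polynomial

private theorem sum_range_card_le (S : Finset ℕ) : ∑ i ∈ Finset.range S.card, i ≤ ∑ x ∈ S, x := by
  induction S using Finset.induction_on_max with
  | empty => simp
  | insert a S hmax ih =>
    have hna : a ∉ S := fun h => lt_irrefl _ (hmax a h)
    rw [Finset.card_insert_of_notMem hna, Finset.sum_range_succ, Finset.sum_insert hna]
    have hsub : S ⊆ Finset.range a := fun x hx => Finset.mem_range.mpr (hmax x hx)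
    have hcard := Finset.card_le_card hsub
    rw [Finset.card_range] at hcard
    omega

private theorem sum_inj_ge {s : ℕ} (f : Fin s → ℕ) (hf : Function.Injective f) :
    s * (s - 1) / 2 ≤ ∑ i, f i := by
  have h1 := sum_range_card_le (Finset.univ.image f)
  rw [Finset.card_image_of_injective _ hf, Finset.card_univ, Fintype.card_fin,
    Finset.sum_range_id, Finset.sum_image (fun a _ b _ h => hf h)] at h1
  exact h1

/-- Interpolation determinants at points in one residue class vanish when `p` is nilpotent.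
Proof. Write `x i = x0 + p * y i`. Then `(Ψ j).eval (x i) = ∑ l < L, c j l * p ^ l * y i ^ l`
(Taylor polynomial of `Ψ j` at `x0`). Expand the determinant multilinearly in the columns `j`
(`MultilinearMap.map_sum` for `Matrix.detRowAlternating` applied to the transpose): it is the sum
over `l : Fin s → Fin L` of `∏ j, c j (l j) * p ^ l j` times `det (y i ^ l j)`. If `l` is not
injective the last determinant is `0`; if `l` is injective then `∑ j, l j ≥ s * (s - 1) / 2 ≥ N`
so the power of `p` is `0`. -/
theorem det_poly_zero {R : Type*} [CommRing R] {s : ℕ} (p : R) (N : ℕ) (hp : p ^ N = 0)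
    (hN : N ≤ s * (s - 1) / 2) (Ψ : Fin s → R[X]) (x0 : R) (x : Fin s → R)
    (hx : ∀ i, p ∣ x i - x0) :
    (Matrix.of fun i j => (Ψ j).eval (x i)).det = 0 := by
  choose y hy using hx
  obtain ⟨L, hL⟩ : ∃ L : ℕ, ∀ j, (taylor x0 (Ψ j)).natDegree < L := by
    refine ⟨∑ j, (taylor x0 (Ψ j)).natDegree + 1, fun j => ?_⟩
    have := Finset.single_le_sum (f := fun j => (taylor x0 (Ψ j)).natDegree)
      (fun i _ => Nat.zero_le _) (Finset.mem_univ j)
    omega
  have hM : ∀ i j, (Ψ j).eval (x i) =
      ∑ l ∈ Finset.range L, ((taylor x0 (Ψ j)).coeff l * p ^ l) * y i ^ l := by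
    intro i j
    have h1 : x i = p * y i + x0 := by
      rw [← hy i]
      ring
    rw [h1, ← taylor_eval, eval_eq_sum_range' (hL j)]
    refine Finset.sum_congr rfl fun l _ => ?_
    rw [mul_pow]
    ring
  rw [Matrix.det_apply]
  have h1 : ∀ σ : Equiv.Perm (Fin s),
      (Equiv.Perm.sign σ : ℤˣ) • ∏ i, (Matrix.of fun i j => (Ψ j).eval (x i)) (σ i) i =
      ∑ f ∈ Fintype.piFinset (fun _ : Fin s => Finset.range L),
        (∏ i, ((taylor x0 (Ψ i)).coeff (f i) * p ^ f i)) *
          ((Equiv.Perm.sign σ : ℤˣ) • ∏ i, y (σ i) ^ f i) := by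
    intro σ
    have e1 : ∏ i, (Matrix.of fun i j => (Ψ j).eval (x i)) (σ i) i =
        ∏ i, ∑ l ∈ Finset.range L, ((taylor x0 (Ψ i)).coeff l * p ^ l) * y (σ i) ^ l := by
      refine Finset.prod_congr rfl fun i _ => ?_
      rw [Matrix.of_apply, hM]
    rw [e1, Finset.prod_univ_sum, Finset.smul_sum]
    refine Finset.sum_congr rfl fun f _ => ?_
    rw [Finset.prod_mul_distrib, mul_smul_comm]
  rw [Finset.sum_congr rfl fun σ _ => h1 σ, Finset.sum_comm]
  refine Finset.sum_eq_zero fun f _ => ?_
  rw [← Finset.mul_sum]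
  by_cases hf : Function.Injective f
  · have h2 : ∏ i, ((taylor x0 (Ψ i)).coeff (f i) * p ^ f i) = 0 := by
      rw [Finset.prod_mul_distrib, Finset.prod_pow_eq_pow_sum]
      have h3 := sum_inj_ge f hf
      obtain ⟨k, hk⟩ := Nat.exists_eq_add_of_le (hN.trans h3)
      rw [hk, pow_add, hp, zero_mul, mul_zero]
    rw [h2, zero_mul]
  · have h2 : ∑ σ : Equiv.Perm (Fin s), (Equiv.Perm.sign σ : ℤˣ) • ∏ i, y (σ i) ^ f i =
        (Matrix.of fun i j => y i ^ f j).det := by
      rw [Matrix.det_apply]
      rfl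
    rw [h2]
    unfold Function.Injective at hf
    push Not at hf
    obtain ⟨a, b, hab, hne⟩ := hf
    have h3 : (Matrix.of fun i j => y i ^ f j).det = 0 := by
      apply Matrix.det_zero_of_column_eq hne
      intro k
      rw [Matrix.of_apply, Matrix.of_apply, hab]
    rw [h3, mul_zero]

end Pool.MP_aab329_nt.SerreP
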