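import Pool.Agent.Lib.MP_aab329_nt.Hensel
import Pool.Agent.Lib.MP_aab329_nt.DetZero

set_option autoImplicit false

namespace Pool.MP_aab329_nt.SerreP

open Polynomial

private theorem det_dvd_aux {R : Type} [CommRing R] {m D : ℕ} {f : (MvPolynomial (Fin 3) ℤ)[X]}
    (hf : WMonic m D f)
    (u v : Fin 3 → ℤ) (p : ℕ) (hp : p.Prime) {s k : ℕ} (i a b : Fin s → ℕ)
    (hk : ∀ j, m * i j + a j + b j = k) (τ α β : Fin s → ℤ) (t0 x0 : ZMod p)
    (hroot : ∀ n, (sp f (fun c => α n * u c + β n * v c)).eval (τ n) = 0)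
    (hβ : ∀ n, ¬ (p : ℤ) ∣ β n)
    (hder : ∀ n, ¬ (p : ℤ) ∣ (derivative (sp f (fun c => α n * u c + β n * v c))).eval (τ n))
    (hx : ∀ n, ((α n : ℤ) : ZMod p) = x0 * ((β n : ℤ) : ZMod p))
    (ht : ∀ n, ((τ n : ℤ) : ZMod p) = t0 * ((β n : ℤ) : ZMod p) ^ m)
    (hs2 : 0 < s) (N : ℕ) (hN : N = s * (s - 1) / 2) (hpN : ((p : ℕ) : R) ^ N = 0) :
    (((Matrix.of fun n j => τ n ^ i j * α n ^ a j * β n ^ b j).det : ℤ) : R) = 0 := by
  have hpi : Prime (p : ℤ) := Nat.prime_iff_prime_int.1 hp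
  -- integers prime to `p` are units
  have hunit : ∀ z : ℤ, ¬ (p : ℤ) ∣ z → IsUnit ((z : ℤ) : R) := by
    intro z hz
    have h1 : IsCoprime ((p : ℤ) ^ N) z := ((Prime.coprime_iff_not_dvd hpi).2 hz).pow_left
    obtain ⟨a, b, hab⟩ := h1
    have h2 := congrArg (fun t : ℤ => (t : R)) hab
    simp only [Int.cast_add, Int.cast_mul, Int.cast_pow, Int.cast_natCast, Int.cast_one] at h2
    rw [hpN, mul_zero, zero_add] at h2
    exact IsUnit.of_mul_eq_one_right _ h2
  have hib : ∀ n, ∃ w : R, w * ((β n : ℤ) : R) = 1 := fun n => by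
    obtain ⟨w, hw⟩ := (hunit _ (hβ n)).exists_left_inv
    exact ⟨w, hw⟩
  choose ib hib using hib
  -- images of integer polynomials
  have hcast : ∀ (x : Fin 3 → ℤ) (t : ℤ),
      (sp f (fun c => ((x c : ℤ) : R))).eval ((t : ℤ) : R) = (((sp f x).eval t : ℤ) : R) := by
    intro x t
    have h1 := sp_map (Int.castRingHom R) f x
    have h2 : (fun c => (Int.castRingHom R) (x c)) = fun c => ((x c : ℤ) : R) := rfl
    rw [← h2, ← h1, eval_map]
    have h3 := eval₂_at_apply (p := sp f x) (Int.castRingHom R) t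
    exact h3
  have hcastd : ∀ (x : Fin 3 → ℤ) (t : ℤ),
      (derivative (sp f (fun c => ((x c : ℤ) : R)))).eval ((t : ℤ) : R)
        = (((derivative (sp f x)).eval t : ℤ) : R) := by
    intro x t
    have h1 := sp_map (Int.castRingHom R) f x
    have h2 : (fun c => (Int.castRingHom R) (x c)) = fun c => ((x c : ℤ) : R) := rfl
    rw [← h2, ← h1, derivative_map, eval_map]
    have h3 := eval₂_at_apply (p := derivative (sp f x)) (Int.castRingHom R) t
    exact h3
  set Xn : Fin s → R := fun n => ib n * ((α n : ℤ) : R) with hXn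
  set Tn : Fin s → R := fun n => ib n ^ m * ((τ n : ℤ) : R) with hTn
  let g : R[X][X] := sp f (fun c => C ((u c : ℤ) : R) * X + C ((v c : ℤ) : R))
  have hg : ∀ x : R, g.map (evalRingHom x) =
      sp f (fun c => ((u c : ℤ) : R) * x + ((v c : ℤ) : R)) := by
    intro x
    have h1 := sp_map (evalRingHom x) f (fun c => C ((u c : ℤ) : R) * X + C ((v c : ℤ) : R))
    rw [h1]
    congr 1
    funext c
    rw [coe_evalRingHom, eval_add, eval_mul, eval_C, eval_C, eval_X]
  have hvec : ∀ n, (fun c => ((u c : ℤ) : R) * Xn n + ((v c : ℤ) : R)) =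
      fun c => ib n * (((α n * u c + β n * v c : ℤ)) : R) := by
    intro n
    funext c
    rw [hXn]
    push_cast
    linear_combination (-((v c : ℤ) : R)) * hib n
  have hroot' : ∀ n, (g.map (evalRingHom (Xn n))).eval (Tn n) = 0 := by
    intro n
    rw [hg, hvec n, hTn]
    simp only
    rw [sp_eval_smul hf, hcast, hroot n, Int.cast_zero, mul_zero]
  let z : Fin s := ⟨0, hs2⟩
  have hder' : IsUnit ((derivative (g.map (evalRingHom (Xn z)))).eval (Tn z)) := by
    rw [hg, hvec z, hTn]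
    simp only
    rw [sp_derivative_eval_smul hf, hcastd]
    have h1 : IsUnit (ib z) := IsUnit.of_mul_eq_one _ (hib z)
    exact (h1.pow _).mul (hunit _ (hder z))
  obtain ⟨Φ, hΦ⟩ := hensel_poly ((p : ℕ) : R) N hpN g (Xn z) (Tn z) hder'
  have hpd : ∀ w : ℤ, ((w : ℤ) : ZMod p) = 0 → ((p : ℕ) : R) ∣ ((w : ℤ) : R) := by
    intro w hw
    have : NeZero p := ⟨hp.ne_zero⟩
    rw [ZMod.intCast_zmod_eq_zero_iff_dvd] at hw
    obtain ⟨y, hy⟩ := hw
    refine ⟨((y : ℤ) : R), ?_⟩
    rw [hy]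
    push_cast
    rfl
  have hXd : ∀ n, ((p : ℕ) : R) ∣ Xn n - Xn z := by
    intro n
    have h1 : (((α n * β z - α z * β n : ℤ)) : ZMod p) = 0 := by
      push_cast
      rw [hx n, hx z]
      ring
    have h2 := hpd _ h1
    have h3 : Xn n - Xn z = (((α n * β z - α z * β n : ℤ)) : R) * (ib n * ib z) := by
      rw [hXn]
      push_cast
      linear_combination (-(ib n * ((α n : ℤ) : R))) * hib z + (ib z * ((α z : ℤ) : R)) * hib n
    rw [h3]
    exact h2.mul_right _
  have hib2 : ∀ n, ib n ^ m * ((β n : ℤ) : R) ^ m = 1 := by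
    intro n
    rw [← mul_pow, hib, one_pow]
  have hTd : ∀ n, ((p : ℕ) : R) ∣ Tn n - Tn z := by
    intro n
    have h1 : (((τ n * β z ^ m - τ z * β n ^ m : ℤ)) : ZMod p) = 0 := by
      push_cast
      rw [ht n, ht z]
      ring
    have h2 := hpd _ h1
    have h3 : Tn n - Tn z = (((τ n * β z ^ m - τ z * β n ^ m : ℤ)) : R) * (ib n ^ m * ib z ^ m) := by
      rw [hTn]
      push_cast
      linear_combination (-(ib n ^ m * ((τ n : ℤ) : R))) * hib2 z
        + (ib z ^ m * ((τ z : ℤ) : R)) * hib2 n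
    rw [h3]
    exact h2.mul_right _
  have hTΦ : ∀ n, Φ.eval (Xn n) = Tn n := fun n => hΦ _ _ (hXd n) (hTd n) (hroot' n)
  -- the determinant in `R`
  have hdet : (Matrix.of fun n j => (Φ ^ i j * X ^ a j : R[X]).eval (Xn n)).det = 0 :=
    det_poly_zero ((p : ℕ) : R) N hpN hN.le (fun j => Φ ^ i j * X ^ a j) (Xn z) Xn hXd
  have hmat : (Matrix.of fun n j => τ n ^ i j * α n ^ a j * β n ^ b j).map (Int.castRingHom R) =
      Matrix.of fun n j => ((β n : ℤ) : R) ^ k *
        (Matrix.of fun n j => (Φ ^ i j * X ^ a j : R[X]).eval (Xn n)) n j := by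
    ext n j
    rw [Matrix.map_apply, Matrix.of_apply, Matrix.of_apply, Matrix.of_apply, eval_mul, eval_pow,
      eval_pow, eval_X, hTΦ, ← hk j]
    have e1 : ((τ n : ℤ) : R) = ((β n : ℤ) : R) ^ m * Tn n := by
      rw [hTn]
      linear_combination (-((τ n : ℤ) : R)) * hib2 n
    have e2 : ((α n : ℤ) : R) = ((β n : ℤ) : R) * Xn n := by
      rw [hXn]
      linear_combination (-((α n : ℤ) : R)) * hib n
    rw [eq_intCast]
    push_cast
    rw [e1, e2, mul_pow, mul_pow, ← pow_mul, pow_add, pow_add]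
    ring
  have hfin : (((Matrix.of fun n j => τ n ^ i j * α n ^ a j * β n ^ b j).det : ℤ) : R) = 0 := by
    have h1 := RingHom.map_det (Int.castRingHom R)
      (Matrix.of fun n j => τ n ^ i j * α n ^ a j * β n ^ b j)
    rw [RingHom.mapMatrix_apply, hmat, Matrix.det_mul_column, hdet, mul_zero] at h1
    exact h1
  exact hfin

/-- A `p`-adic divisibility for the determinant of monomials of weighted degree `k` at integral
points `(τ; α u + β v)` of `f(T; x) = 0` in one nonsingular residue class mod `p` with `β` a unit.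
Proof. `s = 0` or `s = 1`: trivial. Let `N = s * (s - 1) / 2 ≥ 1`, `R = ZMod (p ^ N)`. In `R` the
`β n` are units; put `X n = α n / β n`, `T n = τ n / β n ^ m`. By `sp_eval_smul` and `sp_map`,
`g(T n; X n) = 0` for `g = sp f (fun c => C (u c) * X + C (v c)) : R[X][X]` and, by
`sp_derivative_eval_smul`, `g_T(T n; X n)` is a unit (an element of `ZMod (p ^ N)` which is the
image of an integer prime to `p` is a unit). All `X n` and all `T n` are congruent mod `p R`.
`hensel_poly` with base point `n = 0` gives `Φ` with `T n = Φ(X n)`; the `(n, j)` entry of the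
matrix is `β n ^ k * (X ^ a j * Φ ^ i j)(X n)` in `R`, so `det_poly_zero` gives `det = 0` in `R`. -/
theorem det_dvd {m D : ℕ} {f : (MvPolynomial (Fin 3) ℤ)[X]} (hf : WMonic m D f)
    (u v : Fin 3 → ℤ) (p : ℕ) (hp : p.Prime) {s k : ℕ} (i a b : Fin s → ℕ)
    (hk : ∀ j, m * i j + a j + b j = k) (τ α β : Fin s → ℤ) (t0 x0 : ZMod p)
    (hroot : ∀ n, (sp f (fun c => α n * u c + β n * v c)).eval (τ n) = 0)
    (hβ : ∀ n, ¬ (p : ℤ) ∣ β n)
    (hder : ∀ n, ¬ (p : ℤ) ∣ (derivative (sp f (fun c => α n * u c + β n * v c))).eval (τ n))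
    (hx : ∀ n, ((α n : ℤ) : ZMod p) = x0 * ((β n : ℤ) : ZMod p))
    (ht : ∀ n, ((τ n : ℤ) : ZMod p) = t0 * ((β n : ℤ) : ZMod p) ^ m) :
    ((p : ℤ) ^ (s * (s - 1) / 2)) ∣
      (Matrix.of fun n j => τ n ^ i j * α n ^ a j * β n ^ b j).det := by
  rcases Nat.eq_zero_or_pos (s * (s - 1) / 2) with hN0 | hN0
  · rw [hN0, pow_zero]
    exact one_dvd _
  have hs2 : 0 < s := by
    rcases Nat.eq_zero_or_pos s with h | h
    · rw [h] at hN0
      simp at hN0
    · exact h
  have hpN : ((p : ℕ) : ZMod (p ^ (s * (s - 1) / 2))) ^ (s * (s - 1) / 2) = 0 := by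
    have h := ZMod.natCast_self (p ^ (s * (s - 1) / 2))
    rwa [Nat.cast_pow] at h
  have hfin := det_dvd_aux (R := ZMod (p ^ (s * (s - 1) / 2))) hf u v p hp i a b hk τ α β t0 x0
    hroot hβ hder hx ht hs2 _ rfl hpN
  have h0 : NeZero (p ^ (s * (s - 1) / 2)) := ⟨pow_ne_zero _ hp.ne_zero⟩
  have h2 := (ZMod.intCast_zmod_eq_zero_iff_dvd _ (p ^ (s * (s - 1) / 2))).1 hfin
  rw [Nat.cast_pow] at h2
  exact h2

end Pool.MP_aab329_nt.SerreP
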