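import Pool.Agent.Lib.MP_aab329_nt.Defs

set_option autoImplicit false

namespace Pool.MP_aab329_nt.SerreP

open Polynomial

/-- Trivial upper bound of the determinant (Leibniz formula). -/
theorem det_size {s : ℕ} (i a b : Fin s → ℕ) (τ α β : Fin s → ℤ) (U V W : ℝ)
    (hτ : ∀ n, |(τ n : ℝ)| ≤ W) (hα : ∀ n, |(α n : ℝ)| ≤ U) (hβ : ∀ n, |(β n : ℝ)| ≤ V) :
    |(((Matrix.of fun n j => τ n ^ i j * α n ^ a j * β n ^ b j).det : ℤ) : ℝ)| ≤
      (s.factorial : ℝ) * (W ^ (∑ j, i j) * U ^ (∑ j, a j) * V ^ (∑ j, b j)) := by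
  rw [Matrix.det_apply']
  push_cast
  refine (Finset.abs_sum_le_sum_abs _ _).trans ?_
  have h1 : ∀ σ : Equiv.Perm (Fin s), |((Equiv.Perm.sign σ : ℤ) : ℝ) *
      ∏ x : Fin s, ((Matrix.of fun n j => τ n ^ i j * α n ^ a j * β n ^ b j) (σ x) x : ℝ)| ≤
      W ^ (∑ j, i j) * U ^ (∑ j, a j) * V ^ (∑ j, b j) := by
    intro σ
    have h2 : |((Equiv.Perm.sign σ : ℤ) : ℝ)| = 1 := by
      rcases Int.units_eq_one_or (Equiv.Perm.sign σ) with h | h <;> rw [h] <;> simp
    rw [abs_mul, h2, one_mul, Finset.abs_prod]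
    rw [← Finset.prod_pow_eq_pow_sum, ← Finset.prod_pow_eq_pow_sum, ← Finset.prod_pow_eq_pow_sum,
      ← Finset.prod_mul_distrib, ← Finset.prod_mul_distrib]
    refine Finset.prod_le_prod (fun x _ => abs_nonneg _) fun x _ => ?_
    simp only [Matrix.of_apply]
    push_cast
    rw [abs_mul, abs_mul, abs_pow, abs_pow, abs_pow]
    have hW : 0 ≤ W := (abs_nonneg _).trans (hτ x)
    have hU : 0 ≤ U := (abs_nonneg _).trans (hα x)
    exact mul_le_mul (mul_le_mul (pow_le_pow_left₀ (abs_nonneg _) (hτ _) _)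
      (pow_le_pow_left₀ (abs_nonneg _) (hα _) _) (by positivity) (by positivity))
      (pow_le_pow_left₀ (abs_nonneg _) (hβ _) _) (by positivity) (by positivity)
  refine (Finset.sum_le_sum fun σ _ => h1 σ).trans ?_
  rw [Finset.sum_const, Finset.card_univ, Fintype.card_perm, Fintype.card_fin, nsmul_eq_mul]

end Pool.MP_aab329_nt.SerreP
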