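import Pool.Agent.Lib.MP_aab329_nt.Defs

set_option autoImplicit false

namespace Pool.MP_aab329_nt.SerreP

open Polynomial

private lemma natDegree_det_le_aux {n : ℕ} (A : Matrix (Fin n) (Fin n) ℚ[X]) (d : ℕ)
    (hA : ∀ i j, (A i j).natDegree ≤ d) : A.det.natDegree ≤ n * d := by
  rw [Matrix.det_apply]
  refine natDegree_sum_le_of_forall_le _ _ fun σ _ => ?_
  refine (natDegree_smul_le _ _).trans ?_
  refine (natDegree_prod_le _ _).trans ?_
  refine (Finset.sum_le_card_nsmul _ _ d fun i _ => hA _ _).trans ?_
  simp

/-- Elimination. Take `R = resultant h G` (in `ℚ[X]`). By the Gauss lemma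
(`Polynomial.Monic.irreducible_iff_irreducible_map_fraction_map`) `h` is irreducible over the
fraction field of `ℚ[X]`, hence coprime to `G` there, so `R ≠ 0` (`resultant_ne_zero`,
`resultant_map_map`); `exists_mul_add_mul_eq_C_resultant` gives the vanishing; the Sylvester matrix
has size `< 2 e` and entries of degree `≤ k + M`. -/
theorem elim (e k M : ℕ) (he : 1 ≤ e) (h : ℚ[X][X]) (hmon : h.Monic) (hdeg : h.natDegree = e)
    (hirr : Irreducible h) (hc : ∀ i, (h.coeff i).natDegree ≤ M) (G : ℚ[X][X]) (hG : G ≠ 0)
    (hGd : G.natDegree < e) (hGc : ∀ i, (G.coeff i).natDegree ≤ k) :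
    ∃ R : ℚ[X], R ≠ 0 ∧ R.natDegree ≤ 2 * e * (k + M) ∧
      ∀ x t : ℚ, (h.map (evalRingHom x)).eval t = 0 → (G.map (evalRingHom x)).eval t = 0 →
        R.eval x = 0 := by
  have hinj : Function.Injective (algebraMap ℚ[X] (FractionRing ℚ[X])) :=
    IsFractionRing.injective _ _
  refine ⟨resultant h G, ?_, ?_, ?_⟩
  · intro h0
    have hK : Irreducible (h.map (algebraMap ℚ[X] (FractionRing ℚ[X]))) :=
      (hmon.irreducible_iff_irreducible_map_fraction_map).1 hirr
    have hGK : G.map (algebraMap ℚ[X] (FractionRing ℚ[X])) ≠ 0 := by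
      rwa [Ne, Polynomial.map_eq_zero_iff hinj]
    have hcop : IsCoprime (h.map (algebraMap ℚ[X] (FractionRing ℚ[X])))
        (G.map (algebraMap ℚ[X] (FractionRing ℚ[X]))) := by
      rw [hK.coprime_iff_not_dvd]
      intro hd
      have := natDegree_le_of_dvd hd hGK
      rw [natDegree_map_eq_of_injective hinj, natDegree_map_eq_of_injective hinj] at this
      omega
    have h1 := resultant_ne_zero _ _ hcop
    rw [natDegree_map_eq_of_injective hinj, natDegree_map_eq_of_injective hinj,
      resultant_map_map, h0, map_zero] at h1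
    exact h1 rfl
  · refine (natDegree_det_le_aux _ (k + M) ?_).trans ?_
    · intro i j
      unfold sylvester
      rw [Matrix.of_apply]
      refine Fin.addCases (fun j₁ => ?_) (fun j₁ => ?_) j
      · rw [Fin.addCases_left]
        split_ifs
        · exact (hGc _).trans (by omega)
        · simp
      · rw [Fin.addCases_right]
        split_ifs
        · exact (hc _).trans (by omega)
        · simp
    · rw [hdeg]
      exact Nat.mul_le_mul_right _ (by omega)
  · intro x t hx ht
    obtain ⟨p, q, -, -, hpq⟩ := exists_mul_add_mul_eq_C_resultant h G le_rfl le_rfl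
      (Or.inl (by omega))
    have := congrArg (fun P : ℚ[X][X] => (P.map (evalRingHom x)).eval t) hpq
    simp only [Polynomial.map_add, Polynomial.map_mul, eval_add, eval_mul, hx, ht, zero_mul,
      add_zero, map_C, eval_C, coe_evalRingHom] at this
    exact this.symm

end Pool.MP_aab329_nt.SerreP
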