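import Pool.Agent.Lib.MP_aab329_nt.Defs

set_option autoImplicit false

namespace Pool.MP_aab329_nt.SerreP

open Polynomial

/-- Exponents `(i, a)` of the monomials `T^i α^a β^(k - m i - a)` with `i < e`,
where `k = m * e + K`. -/
def idx (m e K : ℕ) : Finset (ℕ × ℕ) :=
  (Finset.range e ×ˢ Finset.range (m * e + K + 1)).filter (fun q => m * q.1 + q.2 ≤ m * e + K)

private theorem idx_sum (m e K : ℕ) (g : ℕ → ℕ → ℕ) :
    ∑ q ∈ idx m e K, g q.1 q.2 =
      ∑ i ∈ Finset.range e, ∑ a ∈ Finset.range (m * e + K - m * i + 1), g i a := by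
  rw [idx, Finset.sum_filter, Finset.sum_product]
  refine Finset.sum_congr rfl fun i hi => ?_
  rw [← Finset.sum_filter]
  refine Finset.sum_congr ?_ fun _ _ => rfl
  have hi' : m * i ≤ m * e := Nat.mul_le_mul_left m (Finset.mem_range.1 hi).le
  ext a
  simp only [Finset.mem_filter, Finset.mem_range]
  omega

private theorem idx_card (m e K : ℕ) :
    (idx m e K).card = ∑ i ∈ Finset.range e, (m * e + K - m * i + 1) := by
  rw [Finset.card_eq_sum_ones]
  have := idx_sum m e K (fun _ _ => 1)
  simp only [Finset.sum_const, Finset.card_range, smul_eq_mul, mul_one] at this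
  rw [← this]
  simp

theorem idx_card_ge (m e K : ℕ) : e * (K + 1) ≤ (idx m e K).card := by
  rw [idx_card]
  have h := Finset.card_nsmul_le_sum (Finset.range e) (fun i => m * e + K - m * i + 1) (K + 1)
    (fun i hi => by
      have hi' : m * i ≤ m * e := Nat.mul_le_mul_left m (Finset.mem_range.1 hi).le
      omega)
  rwa [Finset.card_range, smul_eq_mul] at h

theorem idx_card_le (m e K : ℕ) : (idx m e K).card ≤ e * (K + (m * e + 1)) := by
  rw [idx_card]
  have h := Finset.sum_le_card_nsmul (Finset.range e) (fun i => m * e + K - m * i + 1)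
    (K + (m * e + 1)) (fun i hi => by omega)
  rwa [Finset.card_range, smul_eq_mul] at h

theorem idx_sum_i (m e K : ℕ) : ∑ q ∈ idx m e K, q.1 ≤ e ^ 2 * (K + (m * e + 1)) := by
  have h : ∑ q ∈ idx m e K, q.1 ≤ (idx m e K).card • e := by
    refine Finset.sum_le_card_nsmul _ _ _ fun q hq => ?_
    rw [idx, Finset.mem_filter, Finset.mem_product, Finset.mem_range] at hq
    exact hq.1.1.le
  refine h.trans ?_
  rw [smul_eq_mul]
  calc (idx m e K).card * e ≤ e * (K + (m * e + 1)) * e :=
        Nat.mul_le_mul_right e (idx_card_le m e K)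
    _ = e ^ 2 * (K + (m * e + 1)) := by ring

theorem idx_sum_a (m e K : ℕ) : 2 * ∑ q ∈ idx m e K, q.2 ≤ e * (K + (m * e + 1)) ^ 2 := by
  rw [idx_sum m e K (fun _ a => a), Finset.mul_sum]
  have h := Finset.sum_le_card_nsmul (Finset.range e)
    (fun i => 2 * ∑ a ∈ Finset.range (m * e + K - m * i + 1), a)
    ((K + (m * e + 1)) ^ 2) (fun i hi => by
      have h1 := Finset.sum_range_id_mul_two (m * e + K - m * i + 1)
      have h2 : m * e + K - m * i + 1 ≤ K + (m * e + 1) := by omega
      show 2 * ∑ a ∈ Finset.range (m * e + K - m * i + 1), a ≤ (K + (m * e + 1)) ^ 2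
      rw [mul_comm, h1, pow_two]
      exact Nat.mul_le_mul h2 (by omega))
  rwa [Finset.card_range, smul_eq_mul] at h

theorem idx_sum_b (m e K : ℕ) :
    ∑ q ∈ idx m e K, (m * e + K - m * q.1 - q.2) = ∑ q ∈ idx m e K, q.2 := by
  rw [idx_sum m e K (fun _ a => a), idx_sum m e K (fun i a => m * e + K - m * i - a)]
  refine Finset.sum_congr rfl fun i _ => ?_
  rw [← Finset.sum_range_reflect (fun a => a)]
  refine Finset.sum_congr rfl fun a _ => ?_
  omega

end Pool.MP_aab329_nt.SerreP
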