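import Pool.Agent.Lib.MP_aab329_nt.Defs

set_option autoImplicit false

namespace Pool.MP_aab329_nt.SerreP

/-- If all `s × s` minors of the matrix `(F j P)` (rows `P : ι`, columns `j : Fin s`) vanish then
the columns are linearly dependent. (Otherwise the row vectors span the whole space, and `s` of
them form a basis, with nonzero determinant.) -/
theorem exists_relation {ι : Type*} {s : ℕ} (F : Fin s → ι → ℚ)
    (h : ∀ P : Fin s → ι, (Matrix.of fun n j => F j (P n)).det = 0) :
    ∃ c : Fin s → ℚ, c ≠ 0 ∧ ∀ P : ι, ∑ j, c j * F j P = 0 := by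
  classical
  let r : ι → (Fin s → ℚ) := fun P j => F j P
  by_cases htop : Submodule.span ℚ (Set.range r) = ⊤
  · exfalso
    obtain ⟨b, hbr, hbs, hbi⟩ := exists_linearIndependent ℚ (Set.range r)
    rw [htop] at hbs
    let B : Module.Basis b ℚ (Fin s → ℚ) := Module.Basis.mk hbi (by
      rw [Subtype.range_coe, hbs])
    have : Fintype b := FiniteDimensional.fintypeBasisIndex B
    have hcard : Fintype.card b = s := by
      have h1 := Module.finrank_eq_card_basis B
      rw [Module.finrank_fin_fun] at h1
      exact h1.symm
    let e : Fin s ≃ b := (Fintype.equivFinOfCardEq hcard).symm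
    have hP : ∀ n : Fin s, ∃ P : ι, r P = (e n : Fin s → ℚ) := fun n => hbr (e n).2
    choose P hP using hP
    have hli : LinearIndependent ℚ (Matrix.of fun n j => F j (P n)).row := by
      have h2 : (Matrix.of fun n j => F j (P n)).row = (fun x : b => (x : Fin s → ℚ)) ∘ e := by
        funext n
        exact hP n
      rw [h2]
      exact hbi.comp e e.injective
    rw [Matrix.linearIndependent_rows_iff_isUnit, Matrix.isUnit_iff_isUnit_det] at hli
    exact hli.ne_zero (h P)
  · obtain ⟨f, hf, hle⟩ := Submodule.exists_le_ker_of_lt_top _ (lt_top_iff_ne_top.2 htop)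
    have hfx : ∀ x : Fin s → ℚ, f x = ∑ j, f (Pi.single j 1) * x j := by
      intro x
      rw [LinearMap.pi_apply_eq_sum_univ f x]
      refine Finset.sum_congr rfl fun j _ => ?_
      rw [smul_eq_mul, mul_comm]
      congr 2
      funext k
      simp [Pi.single_apply, eq_comm]
    refine ⟨fun j => f (Pi.single j 1), ?_, fun P => ?_⟩
    · intro h0
      apply hf
      ext j
      exact congrFun h0 j
    · have h3 : r P ∈ LinearMap.ker f := hle (Submodule.subset_span ⟨P, rfl⟩)
      rw [LinearMap.mem_ker, hfx] at h3
      exact h3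

end Pool.MP_aab329_nt.SerreP
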