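import Pool.Agent.Lib.MP_aab329_nt.Defs

set_option autoImplicit false

namespace Pool.MP_aab329_nt.SerreP

open Real

/-- The numerical inequality behind the choice of the prime. Here `s` is the number of monomials,
`I`, `A`, `A` the sums of the exponents.
Proof. Let `a = m e + 1`, `ℓ = log (U V) ≤ 2 log W`. Then `a ≤ K`, `a ℓ ≤ K`, `log W ≤ K`.
`log s! ≤ s log s ≤ s ^ 2 ≤ 4 e^2 K^2`, `I log W ≤ 2 e^2 K^2`,
`A ℓ ≤ (e / 2) (K + a)^2 ℓ ≤ (e / 2) K^2 ℓ + (3 e / 2) K^2`; the sum is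
`≤ (e / 2) K^2 ℓ + (15/2) e^2 K^2`. On the other side `s (s - 1) / 2 ≥ e^2 K^2 / 2` and
`log p > 17 + ℓ / e`, so `(s (s - 1) / 2) log p > (e / 2) K^2 ℓ + (17/2) e^2 K^2`. -/
theorem numeric (e m K s I A : ℕ) (he : 1 ≤ e) (hm : 1 ≤ m) (U V W p : ℝ)
    (hU : 1 ≤ U) (hV : 1 ≤ V) (hUW : U ≤ W) (hVW : V ≤ W) (hW : 3 ≤ W)
    (hK : ((m * e + 1 : ℕ) : ℝ) * (2 * log W) ≤ K)
    (hs1 : e * (K + 1) ≤ s) (hs2 : s ≤ e * (K + (m * e + 1)))
    (hI : I ≤ e ^ 2 * (K + (m * e + 1))) (hA : 2 * A ≤ e * (K + (m * e + 1)) ^ 2)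
    (hp : exp 17 * (U * V) ^ (1 / (e : ℝ)) < p) :
    (s.factorial : ℝ) * (W ^ I * U ^ A * V ^ A) < p ^ (s * (s - 1) / 2) := by
  have hW0 : 0 < W := by linarith
  have hU0 : 0 < U := by linarith
  have hV0 : 0 < V := by linarith
  have hUV : 0 < U * V := mul_pos hU0 hV0
  set ℓ := log (U * V) with hℓ
  set L := log W with hL
  have hL1 : 1 < L := by
    rw [hL, Real.lt_log_iff_exp_lt hW0]
    linarith [Real.exp_one_lt_d9]
  have hℓ0 : 0 ≤ ℓ := log_nonneg (one_le_mul_of_one_le_of_one_le hU hV)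
  have hℓ2 : ℓ ≤ 2 * L := by
    rw [hℓ, log_mul hU0.ne' hV0.ne']
    have h1 := log_le_log hU0 hUW
    have h2 := log_le_log hV0 hVW
    linarith
  have hE : (1 : ℝ) ≤ e := by exact_mod_cast he
  have hM : (1 : ℝ) ≤ m := by exact_mod_cast hm
  have hE0 : (0 : ℝ) < e := by linarith
  obtain ⟨a, ha⟩ : ∃ a : ℝ, a = (m : ℝ) * e + 1 := ⟨_, rfl⟩
  have hcast : ((m * e + 1 : ℕ) : ℝ) = a := by rw [ha]; push_cast; rfl
  have ha2 : 2 ≤ a := by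
    rw [ha]
    nlinarith
  have hK' : a * (2 * L) ≤ (K : ℝ) := by rw [← hcast]; exact hK
  have haL : a ≤ a * L := by nlinarith
  have haK : a ≤ (K : ℝ) / 2 := by linarith
  have hK4 : (4 : ℝ) ≤ K := by linarith
  have hLK : L ≤ (K : ℝ) / 4 := by nlinarith
  have haℓ : a * ℓ ≤ K := le_trans (mul_le_mul_of_nonneg_left hℓ2 (by linarith)) hK'
  -- real versions
  have hs2' : (s : ℝ) ≤ e * (K + a) := by
    rw [← hcast]
    exact_mod_cast hs2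
  have hs1' : (e : ℝ) * (K + 1) ≤ s := by exact_mod_cast hs1
  have hI' : (I : ℝ) ≤ (e : ℝ) ^ 2 * (K + a) := by
    rw [← hcast]
    exact_mod_cast hI
  have hA' : 2 * (A : ℝ) ≤ (e : ℝ) * (K + a) ^ 2 := by
    rw [← hcast]
    exact_mod_cast hA
  have hs0 : (0 : ℝ) < s := lt_of_lt_of_le (by positivity) hs1'
  have hsN : 0 < s := by exact_mod_cast hs0
  -- log of the left side
  have e1 : log (s.factorial : ℝ) ≤ 9 / 4 * ((e : ℝ) ^ 2 * (K : ℝ) ^ 2) := by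
    have h1 : (s.factorial : ℝ) ≤ (s : ℝ) ^ s := by exact_mod_cast Nat.factorial_le_pow s
    have h2 := log_le_log (by exact_mod_cast Nat.factorial_pos s) h1
    rw [log_pow] at h2
    have h3 : log (s : ℝ) ≤ s := Real.log_le_self hs0.le
    have h4 : (s : ℝ) * log s ≤ s * s := mul_le_mul_of_nonneg_left h3 hs0.le
    have h5 : (s : ℝ) ≤ 3 / 2 * (e * K) := by
      have h7 : (e : ℝ) * (K + a) ≤ e * (3 / 2 * K) :=
        mul_le_mul_of_nonneg_left (by linarith) hE0.le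
      linarith
    have h6 : (s : ℝ) * s ≤ (3 / 2 * (e * K)) * (3 / 2 * (e * K)) :=
      mul_le_mul h5 h5 hs0.le (by positivity)
    have h8 : (3 / 2 * ((e : ℝ) * K)) * (3 / 2 * (e * K)) =
        9 / 4 * ((e : ℝ) ^ 2 * (K : ℝ) ^ 2) := by ring
    linarith
  have e2 : (I : ℝ) * L ≤ 3 / 8 * ((e : ℝ) ^ 2 * (K : ℝ) ^ 2) := by
    have h1 : (I : ℝ) ≤ 3 / 2 * ((e : ℝ) ^ 2 * K) := by
      have : (e : ℝ) ^ 2 * (K + a) ≤ (e : ℝ) ^ 2 * (3 / 2 * K) :=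
        mul_le_mul_of_nonneg_left (by linarith) (by positivity)
      linarith
    calc (I : ℝ) * L ≤ 3 / 2 * ((e : ℝ) ^ 2 * K) * ((K : ℝ) / 4) :=
          mul_le_mul h1 hLK (by linarith) (by positivity)
      _ = 3 / 8 * ((e : ℝ) ^ 2 * (K : ℝ) ^ 2) := by ring
  have e3 : (A : ℝ) * ℓ ≤ (e : ℝ) / 2 * ((K : ℝ) ^ 2 * ℓ) + 5 / 4 * ((e : ℝ) ^ 2 * (K : ℝ) ^ 2) := by
    have h1 : 2 * (A : ℝ) * ℓ ≤ (e : ℝ) * (K + a) ^ 2 * ℓ := mul_le_mul_of_nonneg_right hA' hℓ0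
    have h2 : ((K : ℝ) + a) ^ 2 * ℓ ≤ (K : ℝ) ^ 2 * ℓ + 5 / 2 * (K : ℝ) ^ 2 := by
      have h3 : (K : ℝ) * (a * ℓ) ≤ K * K := mul_le_mul_of_nonneg_left haℓ (by linarith)
      have h4 : a * (a * ℓ) ≤ (K : ℝ) / 2 * K :=
        mul_le_mul haK haℓ (mul_nonneg (by linarith) hℓ0) (by linarith)
      have h5 : ((K : ℝ) + a) ^ 2 * ℓ = (K : ℝ) ^ 2 * ℓ + 2 * ((K : ℝ) * (a * ℓ)) +
        a * (a * ℓ) := by ring
      have h6 : (K : ℝ) ^ 2 = K * K := by ring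
      linarith
    have h3 : (e : ℝ) * (((K : ℝ) + a) ^ 2 * ℓ) ≤
        (e : ℝ) * ((K : ℝ) ^ 2 * ℓ + 5 / 2 * (K : ℝ) ^ 2) := mul_le_mul_of_nonneg_left h2 hE0.le
    have h4 : (e : ℝ) * (K : ℝ) ^ 2 ≤ (e : ℝ) ^ 2 * (K : ℝ) ^ 2 :=
      mul_le_mul_of_nonneg_right (by nlinarith) (by positivity)
    have h5 : (e : ℝ) * (((K : ℝ) + a) ^ 2 * ℓ) = (e : ℝ) * (K + a) ^ 2 * ℓ := by ring
    have h6 : (e : ℝ) * ((K : ℝ) ^ 2 * ℓ + 5 / 2 * (K : ℝ) ^ 2) =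
      (e : ℝ) * ((K : ℝ) ^ 2 * ℓ) + 5 / 2 * ((e : ℝ) * (K : ℝ) ^ 2) := by ring
    linarith
  -- log of the right side
  have hp0 : 0 < p := lt_trans (by positivity) hp
  have e4 : 17 + ℓ / e < log p := by
    have h1 := log_lt_log (by positivity) hp
    rw [log_mul (by positivity) (by positivity), log_exp, log_rpow hUV] at h1
    rw [hℓ]
    have h2 : 1 / (e : ℝ) * log (U * V) = log (U * V) / e := by ring
    rw [h2] at h1
    exact h1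
  have e5 : (e : ℝ) ^ 2 * (K : ℝ) ^ 2 ≤ 2 * ((s * (s - 1) / 2 : ℕ) : ℝ) := by
    have h1 : 2 * (s * (s - 1) / 2) = s * (s - 1) :=
      Nat.mul_div_cancel' (Nat.even_mul_pred_self s).two_dvd
    have h2 : (2 : ℝ) * ((s * (s - 1) / 2 : ℕ) : ℝ) = (s : ℝ) * (s - 1) := by
      rw [← Nat.cast_pred hsN]
      exact_mod_cast h1
    rw [h2]
    have h3 : (e : ℝ) * K ≤ s - 1 := by linarith
    have h4 : (e : ℝ) * K ≤ s := by linarith
    calc (e : ℝ) ^ 2 * (K : ℝ) ^ 2 = (e * K) * (e * K) := by ring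
      _ ≤ s * (s - 1) := mul_le_mul h4 h3 (by positivity) hs0.le
  have hK2 : 0 < (e : ℝ) ^ 2 * (K : ℝ) ^ 2 := by positivity
  have e6 : 17 / 2 * ((e : ℝ) ^ 2 * (K : ℝ) ^ 2) + (e : ℝ) / 2 * ((K : ℝ) ^ 2 * ℓ) <
      ((s * (s - 1) / 2 : ℕ) : ℝ) * log p := by
    have h1 : (0 : ℝ) < 17 + ℓ / e := by positivity
    calc 17 / 2 * ((e : ℝ) ^ 2 * (K : ℝ) ^ 2) + (e : ℝ) / 2 * ((K : ℝ) ^ 2 * ℓ) =
          ((e : ℝ) ^ 2 * (K : ℝ) ^ 2 / 2) * (17 + ℓ / e) := by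
            field_simp
      _ < ((e : ℝ) ^ 2 * (K : ℝ) ^ 2 / 2) * log p := mul_lt_mul_of_pos_left e4 (by positivity)
      _ ≤ ((s * (s - 1) / 2 : ℕ) : ℝ) * log p :=
          mul_le_mul_of_nonneg_right (by linarith) (by linarith)
  have hleft : 0 < (s.factorial : ℝ) * (W ^ I * U ^ A * V ^ A) := by positivity
  rw [← Real.log_lt_log_iff hleft (by positivity), log_pow,
    log_mul (by positivity) (by positivity), log_mul (by positivity) (by positivity),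
    log_mul (by positivity) (by positivity), log_pow, log_pow, log_pow]
  have e7 : ℓ = log U + log V := by rw [hℓ, log_mul hU0.ne' hV0.ne']
  have e8 : (A : ℝ) * log U + A * log V = A * ℓ := by rw [e7]; ring
  rw [← hL]
  linarith

end Pool.MP_aab329_nt.SerreP
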