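import Pool.Agent.Lib.MP_aab329_nt.Points
import Pool.Agent.Lib.MP_aab329_nt.DetDvd
import Pool.Agent.Lib.MP_aab329_nt.DetSize
import Pool.Agent.Lib.MP_aab329_nt.Index
import Pool.Agent.Lib.MP_aab329_nt.Numeric
import Pool.Agent.Lib.MP_aab329_nt.LinAlg
import Pool.Agent.Lib.MP_aab329_nt.Elim

set_option autoImplicit false

namespace Pool.MP_aab329_nt.SerreP

open Polynomial Real

/-- a rational number is a quotient of at most two coprime pairs -/
private theorem cc_pairs (S : Set (ℤ × ℤ)) (R : ℚ[X]) (hR : R ≠ 0)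
    (h1 : ∀ q ∈ S, IsCoprime q.1 q.2) (h2 : ∀ q ∈ S, q.2 ≠ 0)
    (h3 : ∀ q ∈ S, R.eval ((q.1 : ℚ) / (q.2 : ℚ)) = 0) :
    S.ncard ≤ 2 * R.natDegree := by
  classical
  have hsub : S ⊆ ((R.roots.toFinset ×ˢ ({1, -1} : Finset ℤ)).image
      (fun x => (x.2 * x.1.num, x.2 * (x.1.den : ℤ))) : Finset (ℤ × ℤ)) := by
    intro q hq
    have hc := h1 q hq
    have hn := h2 q hq
    have hr := h3 q hq
    have hmem : ((q.1 : ℚ) / (q.2 : ℚ)) ∈ R.roots.toFinset := by
      rw [Multiset.mem_toFinset, mem_roots hR]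
      exact hr
    rcases lt_or_gt_of_ne hn with hneg | hpos
    · -- negative denominator
      have e1 : (q.1 : ℚ) / (q.2 : ℚ) = ((-q.1 : ℤ) : ℚ) / ((-q.2 : ℤ) : ℚ) := by
        push_cast
        rw [neg_div_neg_eq]
      have hcop : Nat.Coprime (-q.1).natAbs (-q.2).natAbs := by
        rw [Int.natAbs_neg, Int.natAbs_neg]
        exact Int.isCoprime_iff_gcd_eq_one.1 hc
      have n1 : ((q.1 : ℚ) / (q.2 : ℚ)).num = -q.1 := by
        rw [e1]
        exact Rat.num_div_eq_of_coprime (by omega) hcop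
      have n2 : (((q.1 : ℚ) / (q.2 : ℚ)).den : ℤ) = -q.2 := by
        rw [e1]
        exact Rat.den_div_eq_of_coprime (by omega) hcop
      rw [Finset.mem_coe, Finset.mem_image]
      refine ⟨((q.1 : ℚ) / (q.2 : ℚ), -1), ?_, ?_⟩
      · rw [Finset.mem_product]
        exact ⟨hmem, by simp⟩
      · show ((-1 : ℤ) * ((q.1 : ℚ) / (q.2 : ℚ)).num,
          (-1 : ℤ) * (((q.1 : ℚ) / (q.2 : ℚ)).den : ℤ)) = q
        rw [n1, n2]
        ext <;> simp
    · have hcop : Nat.Coprime (q.1).natAbs (q.2).natAbs :=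
        Int.isCoprime_iff_gcd_eq_one.1 hc
      have n1 : ((q.1 : ℚ) / (q.2 : ℚ)).num = q.1 := Rat.num_div_eq_of_coprime hpos hcop
      have n2 : (((q.1 : ℚ) / (q.2 : ℚ)).den : ℤ) = q.2 := Rat.den_div_eq_of_coprime hpos hcop
      rw [Finset.mem_coe, Finset.mem_image]
      refine ⟨((q.1 : ℚ) / (q.2 : ℚ), 1), ?_, ?_⟩
      · rw [Finset.mem_product]
        exact ⟨hmem, by simp⟩
      · show ((1 : ℤ) * ((q.1 : ℚ) / (q.2 : ℚ)).num,
          (1 : ℤ) * (((q.1 : ℚ) / (q.2 : ℚ)).den : ℤ)) = q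
        rw [n1, n2]
        ext <;> simp
  have hle := Set.ncard_le_ncard hsub (Finset.finite_toSet _)
  rw [Set.ncard_coe_finset] at hle
  refine hle.trans (Finset.card_image_le.trans ?_)
  rw [Finset.card_product]
  have c1 : ({1, -1} : Finset ℤ).card ≤ 2 := Finset.card_le_two
  have c2 : R.roots.toFinset.card ≤ R.natDegree :=
    (Multiset.toFinset_card_le _).trans (card_roots' R)
  calc R.roots.toFinset.card * ({1, -1} : Finset ℤ).card ≤ R.natDegree * 2 :=
        Nat.mul_le_mul c2 c1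
    _ = 2 * R.natDegree := by ring

/-- the auxiliary polynomial -/
private theorem cc_poly {s e k : ℕ} (he : 1 ≤ e) (i a : Fin s → ℕ)
    (hinj : Function.Injective fun j => (i j, a j)) (hi : ∀ j, i j < e) (ha : ∀ j, a j ≤ k)
    (c : Fin s → ℚ) (hc : c ≠ 0) :
    ∃ G : ℚ[X][X], G ≠ 0 ∧ G.natDegree < e ∧ (∀ n, (G.coeff n).natDegree ≤ k) ∧
      ∀ x t : ℚ, (G.map (evalRingHom x)).eval t = ∑ j, c j * (x ^ a j * t ^ i j) := by
  classical
  refine ⟨∑ j, monomial (i j) (monomial (a j) (c j)), ?_, ?_, ?_, ?_⟩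
  · intro h0
    obtain ⟨j0, hj0⟩ := Function.ne_iff.1 hc
    apply hj0
    have h1 : ((∑ j, monomial (i j) (monomial (a j) (c j)) : ℚ[X][X]).coeff (i j0)).coeff (a j0)
        = c j0 := by
      rw [finsetSum_coeff, finsetSum_coeff]
      rw [Finset.sum_eq_single j0]
      · rw [coeff_monomial, if_pos rfl, coeff_monomial, if_pos rfl]
      · intro j _ hj
        rw [coeff_monomial]
        split_ifs with h2
        · rw [coeff_monomial]
          split_ifs with h3
          · exact absurd (hinj (Prod.ext h2 h3)) hj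
          · rfl
        · rw [coeff_zero]
      · intro h; exact absurd (Finset.mem_univ _) h
    rw [h0] at h1
    rw [← h1]
    simp
  · refine lt_of_le_of_lt (natDegree_sum_le_of_forall_le (n := e - 1) _ _ ?_) (by omega)
    intro j _
    refine (natDegree_monomial_le _).trans ?_
    have := hi j
    omega
  · intro n
    rw [finsetSum_coeff]
    refine natDegree_sum_le_of_forall_le _ _ ?_
    intro j _
    rw [coeff_monomial]
    split_ifs with h2
    · exact (natDegree_monomial_le _).trans (ha j)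
    · simp
  · intro x t
    rw [Polynomial.map_sum, eval_finsetSum]
    refine Finset.sum_congr rfl fun j _ => ?_
    rw [map_monomial, eval_monomial, coe_evalRingHom, eval_monomial]
    ring

/-- The pairs `(α, β)` of one residue class `(t0, x0)` modulo a large prime `p`.
Proof. Let `S` be the type of triples `(α, β, τ)` as in the set. List `idx m e K` as
`q : Fin s → ℕ × ℕ` (`Finset.equivFin`), `i j = (q j).1`, `a j = (q j).2`,
`b j = m e + K - m i j - a j`. For `P : Fin s → S` the integer determinant is divisible by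
`p ^ (s (s-1) / 2)` (`det_dvd`) and smaller in absolute value (`det_size`, `numeric`,
`idx_card_ge`, ...), so it is `0`. `exists_relation` gives `c ≠ 0`; put
`G = ∑ j, c j X^(a j) T^(i j)`, nonzero, of `T`-degree `< e` and `X`-degrees `≤ m e + K`.
Dividing the relation by `β ^ (m e + K)`: `G(τ / β^m; α / β) = 0`. By `elim` the number
`α / β` is a root of `R ≠ 0` with `R.natDegree ≤ 2 e (m e + K + M)`, and a rational number is
`α / β` for exactly two coprime pairs. -/
theorem class_count (m D e M K : ℕ) (hm : 1 ≤ m) (he : 1 ≤ e)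
    (f : (MvPolynomial (Fin 3) ℤ)[X]) (hf : WMonic m D f) (u v : Fin 3 → ℤ)
    (h : ℚ[X][X]) (hmon : h.Monic) (hdeg : h.natDegree = e) (hirr : Irreducible h)
    (hc : ∀ i, (h.coeff i).natDegree ≤ M)
    (U V W : ℝ) (hU : 1 ≤ U) (hV : 1 ≤ V) (hUW : U ≤ W) (hVW : V ≤ W) (hW : 3 ≤ W)
    (hK : ((m * e + 1 : ℕ) : ℝ) * (2 * log W) ≤ K)
    (p : ℕ) (hp : p.Prime) (hpl : exp 17 * (U * V) ^ (1 / (e : ℝ)) < p) (t0 x0 : ZMod p) :
    {q : ℤ × ℤ | ∃ τ : ℤ, IsPt m f u v h U V W q.1 q.2 τ ∧ ¬ (p : ℤ) ∣ q.2 ∧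
      ¬ (p : ℤ) ∣ (derivative (sp f (fun c => q.1 * u c + q.2 * v c))).eval τ ∧
      ((q.1 : ℤ) : ZMod p) = x0 * ((q.2 : ℤ) : ZMod p) ∧
      ((τ : ℤ) : ZMod p) = t0 * ((q.2 : ℤ) : ZMod p) ^ m}.ncard ≤
        4 * e * (m * e + K + M) := by
  classical
  -- the type of points
  let S : Type := {P : ℤ × ℤ × ℤ // IsPt m f u v h U V W P.1 P.2.1 P.2.2 ∧ ¬ (p : ℤ) ∣ P.2.1 ∧
      ¬ (p : ℤ) ∣ (derivative (sp f (fun c => P.1 * u c + P.2.1 * v c))).eval P.2.2 ∧
      ((P.1 : ℤ) : ZMod p) = x0 * ((P.2.1 : ℤ) : ZMod p) ∧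
      ((P.2.2 : ℤ) : ZMod p) = t0 * ((P.2.1 : ℤ) : ZMod p) ^ m}
  set s : ℕ := (idx m e K).card with hs
  let q : Fin s ≃ idx m e K := (idx m e K).equivFin.symm
  let i : Fin s → ℕ := fun j => (q j).1.1
  let a : Fin s → ℕ := fun j => (q j).1.2
  let b : Fin s → ℕ := fun j => m * e + K - m * (q j).1.1 - (q j).1.2
  have hmem : ∀ j, i j < e ∧ m * i j + a j ≤ m * e + K := by
    intro j
    have h1 := (q j).2
    simp only [idx, Finset.mem_filter, Finset.mem_product, Finset.mem_range] at h1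
    exact ⟨h1.1.1, h1.2⟩
  have hk : ∀ j, m * i j + a j + b j = m * e + K := by
    intro j
    have h1 := (hmem j).2
    show m * i j + a j + (m * e + K - m * i j - a j) = m * e + K
    omega
  have hsumi : ∑ j, i j = ∑ x ∈ idx m e K, x.1 := by
    rw [← Finset.sum_coe_sort (idx m e K)]
    exact Equiv.sum_comp q (fun x : idx m e K => (x : ℕ × ℕ).1)
  have hsuma : ∑ j, a j = ∑ x ∈ idx m e K, x.2 := by
    rw [← Finset.sum_coe_sort (idx m e K)]
    exact Equiv.sum_comp q (fun x : idx m e K => (x : ℕ × ℕ).2)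
  have hsumb : ∑ j, b j = ∑ x ∈ idx m e K, x.2 := by
    rw [← idx_sum_b, ← Finset.sum_coe_sort (idx m e K)]
    exact Equiv.sum_comp q (fun x : idx m e K => m * e + K - m * (x : ℕ × ℕ).1 - (x : ℕ × ℕ).2)
  have hdet : ∀ P : Fin s → S, (Matrix.of fun n j =>
      (P n).1.2.2 ^ i j * (P n).1.1 ^ a j * (P n).1.2.1 ^ b j).det = 0 := by
    intro P
    have d1 := det_dvd hf u v p hp i a b hk (fun n => (P n).1.2.2) (fun n => (P n).1.1)
      (fun n => (P n).1.2.1) t0 x0 (fun n => (P n).2.1.root) (fun n => (P n).2.2.1)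
      (fun n => (P n).2.2.2.1) (fun n => (P n).2.2.2.2.1) (fun n => (P n).2.2.2.2.2)
    have d2 := det_size i a b (fun n => (P n).1.2.2) (fun n => (P n).1.1)
      (fun n => (P n).1.2.1) U V W (fun n => (P n).2.1.hτ) (fun n => (P n).2.1.hα)
      (fun n => (P n).2.1.hβ)
    rw [hsumi, hsuma, hsumb] at d2
    have d3 := numeric e m K s (∑ x ∈ idx m e K, x.1) (∑ x ∈ idx m e K, x.2) he hm U V W p
      hU hV hUW hVW hW hK (idx_card_ge m e K) (idx_card_le m e K) (idx_sum_i m e K)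
      (idx_sum_a m e K) hpl
    have d4 := d2.trans_lt d3
    refine Int.eq_zero_of_abs_lt_dvd d1 ?_
    have d5 : ((|(Matrix.of fun n j =>
      (P n).1.2.2 ^ i j * (P n).1.1 ^ a j * (P n).1.2.1 ^ b j).det| : ℤ) : ℝ) <
        (((p : ℤ) ^ (s * (s - 1) / 2) : ℤ) : ℝ) := by
      push_cast at d4 ⊢
      exact d4
    exact_mod_cast d5
  obtain ⟨c, hc0, hrel⟩ := exists_relation
    (fun (j : Fin s) (P : S) => (((P.1.2.2 ^ i j * P.1.1 ^ a j * P.1.2.1 ^ b j : ℤ)) : ℚ)) (by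
      intro P
      have h1 := hdet P
      have h2 := congrArg (Int.castRingHom ℚ) h1
      rw [RingHom.map_det, map_zero] at h2
      rw [← h2]
      rfl)
  have hinj : Function.Injective fun j => (i j, a j) := by
    intro j j' hjj
    apply q.injective
    apply Subtype.ext
    exact hjj
  obtain ⟨G, hG0, hGd, hGc, hGe⟩ := cc_poly (k := m * e + K) he i a hinj (fun j => (hmem j).1)
    (fun j => by have := (hmem j).2; omega) c hc0
  obtain ⟨R, hR0, hRd, hR⟩ := elim e (m * e + K) M he h hmon hdeg hirr hc G hG0 hGd hGc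
  refine (cc_pairs _ R hR0 ?_ ?_ ?_).trans ?_
  · rintro q ⟨τ, hpt, _⟩
    exact hpt.cop
  · rintro q ⟨τ, hpt, _⟩
    exact hpt.ne
  · rintro ⟨α, β⟩ ⟨τ, hpt, h1, h2, h3, h4⟩
    have hβ : (β : ℚ) ≠ 0 := by exact_mod_cast hpt.ne
    refine hR _ ((τ : ℚ) / (β : ℚ) ^ m) hpt.hh ?_
    rw [hGe]
    have h5 := hrel ⟨(α, β, τ), hpt, h1, h2, h3, h4⟩
    have h6 : ∑ j, c j * (((α : ℚ) / (β : ℚ)) ^ a j * ((τ : ℚ) / (β : ℚ) ^ m) ^ i j) =
        (∑ j, c j * (((τ ^ i j * α ^ a j * β ^ b j : ℤ)) : ℚ)) / (β : ℚ) ^ (m * e + K) := by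
      rw [Finset.sum_div]
      refine Finset.sum_congr rfl fun j _ => ?_
      rw [mul_div_assoc]
      congr 1
      rw [← hk j, pow_add, pow_add, pow_mul]
      push_cast
      rw [div_pow, div_pow]
      field_simp
    rw [h6, h5, zero_div]
  · calc 2 * R.natDegree ≤ 2 * (2 * e * (m * e + K + M)) := Nat.mul_le_mul_left _ hRd
      _ = 4 * e * (m * e + K + M) := by ring

end Pool.MP_aab329_nt.SerreP
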