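import Pool.Agent.Lib.MP_aab329_nt.Defs

set_option autoImplicit false

namespace Pool.MP_aab329_nt.SerreP

/-- Every integral vector of height at most `B` lies in a plane `y x = 0` with `y` primitive and
`y` of height `≤ sqrt (3 B)`. Proof: pigeonhole for the `(Y + 1)^3` vectors `y` with entries in
`[0, Y]`, `Y = Nat.sqrt (3 B)`; the numbers `y x` lie in an interval with at most `3 Y B + 1`
integers and `(Y + 1)^2 > 3 B`. Divide the difference of two vectors with the same value by the
gcd of its entries. -/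
theorem cover (x : Fin 3 → ℤ) (B : ℕ) (hB : 1 ≤ B) (hx : mx x ≤ B) :
    ∃ y : Fin 3 → ℤ, prim y ∧ dot y x = 0 ∧ mx y ^ 2 ≤ 3 * B := by
  set Y : ℕ := Nat.sqrt (3 * B) with hY
  have hxi : ∀ i, |x i| ≤ B := by
    intro i
    have h1 : (x i).natAbs ≤ mx x := Finset.le_sup (f := fun i => (x i).natAbs) (Finset.mem_univ i)
    have h2 : (x i).natAbs ≤ B := h1.trans hx
    rw [Int.abs_eq_natAbs]
    exact_mod_cast h2
  -- the pigeonhole
  have hpig : ∃ y y' : Fin 3 → Fin (Y + 1), y ≠ y' ∧
      dot (fun i => ((y i : ℕ) : ℤ)) x = dot (fun i => ((y' i : ℕ) : ℤ)) x := by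
    have hcard : (Finset.Icc (-((Y : ℤ) * (max (-x 0) 0 + max (-x 1) 0 + max (-x 2) 0)))
        ((Y : ℤ) * (max (x 0) 0 + max (x 1) 0 + max (x 2) 0))).card
        < (Finset.univ : Finset (Fin 3 → Fin (Y + 1))).card := by
      rw [Int.card_Icc, Finset.card_univ, Fintype.card_fun, Fintype.card_fin, Fintype.card_fin]
      have hm : ∀ i, max (x i) 0 + max (-x i) 0 ≤ (B : ℤ) := by
        intro i
        have := abs_le.mp (hxi i)
        rcases le_total (x i) 0 with h | h
        · rw [max_eq_right h, max_eq_left (by omega)]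
          omega
        · rw [max_eq_left h, max_eq_right (by omega)]
          omega
      have h0 := hm 0
      have h1 := hm 1
      have h2 := hm 2
      have hsum : (Y : ℤ) * (max (x 0) 0 + max (x 1) 0 + max (x 2) 0) + 1
          - -((Y : ℤ) * (max (-x 0) 0 + max (-x 1) 0 + max (-x 2) 0)) ≤ 3 * B * Y + 1 := by
        have : (Y : ℤ) * ((max (x 0) 0 + max (-x 0) 0) + (max (x 1) 0 + max (-x 1) 0)
            + (max (x 2) 0 + max (-x 2) 0)) ≤ Y * (3 * B) := by
          apply mul_le_mul_of_nonneg_left _ (by positivity)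
          linarith
        linarith
      have hbig : (3 * B * Y + 1 : ℕ) < (Y + 1) ^ 3 := by
        have h3 : 3 * B < (Y + 1) * (Y + 1) := Nat.lt_succ_sqrt (3 * B)
        nlinarith
      have hbigZ : (3 * B * Y + 1 : ℤ) < ((Y + 1) ^ 3 : ℕ) := by exact_mod_cast hbig
      rw [Int.toNat_lt_of_ne_zero (by positivity)]
      exact lt_of_le_of_lt hsum hbigZ
    obtain ⟨y, -, y', -, hne, heq⟩ := Finset.exists_ne_map_eq_of_card_lt_of_maps_to hcard
      (f := fun y : Fin 3 → Fin (Y + 1) => dot (fun i => ((y i : ℕ) : ℤ)) x) (by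
        intro y _
        rw [Finset.coe_Icc, Set.mem_Icc]
        have hyi : ∀ i, (0 : ℤ) ≤ ((y i : ℕ) : ℤ) ∧ ((y i : ℕ) : ℤ) ≤ Y := by
          intro i
          have := (y i).2
          omega
        have hup : ∀ i, ((y i : ℕ) : ℤ) * x i ≤ Y * max (x i) 0 := by
          intro i
          calc ((y i : ℕ) : ℤ) * x i ≤ ((y i : ℕ) : ℤ) * max (x i) 0 :=
                mul_le_mul_of_nonneg_left (le_max_left _ _) (hyi i).1
            _ ≤ Y * max (x i) 0 := mul_le_mul_of_nonneg_right (hyi i).2 (le_max_right _ _)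
        have hlo : ∀ i, -(((y i : ℕ) : ℤ) * x i) ≤ Y * max (-x i) 0 := by
          intro i
          calc -(((y i : ℕ) : ℤ) * x i) = ((y i : ℕ) : ℤ) * (-x i) := by ring
            _ ≤ ((y i : ℕ) : ℤ) * max (-x i) 0 :=
                mul_le_mul_of_nonneg_left (le_max_left _ _) (hyi i).1
            _ ≤ Y * max (-x i) 0 := mul_le_mul_of_nonneg_right (hyi i).2 (le_max_right _ _)
        have u0 := hup 0
        have u1 := hup 1
        have u2 := hup 2
        have l0 := hlo 0
        have l1 := hlo 1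
        have l2 := hlo 2
        simp only [dot]
        constructor
        · linarith
        · linarith)
    exact ⟨y, y', hne, heq⟩
  obtain ⟨y, y', hne, heq⟩ := hpig
  let d : Fin 3 → ℤ := fun i => ((y i : ℕ) : ℤ) - ((y' i : ℕ) : ℤ)
  have hd : dot d x = 0 := by
    simp only [dot, d] at heq ⊢
    linarith
  have hdY : ∀ i, (d i).natAbs ≤ Y := by
    intro i
    have h1 := (y i).2
    have h2 := (y' i).2
    simp only [d]
    omega
  have hd0 : ∃ i, d i ≠ 0 := by
    by_contra hcon
    push Not at hcon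
    apply hne
    funext i
    have := hcon i
    simp only [d] at this
    apply Fin.ext
    omega
  obtain ⟨e, he, heg⟩ := Finset.extract_gcd d (s := Finset.univ) Finset.univ_nonempty
  have hg0 : Finset.univ.gcd d ≠ 0 := by
    intro h0
    obtain ⟨i, hi⟩ := hd0
    exact hi (Finset.gcd_eq_zero_iff.mp h0 i (Finset.mem_univ i))
  refine ⟨e, heg, ?_, ?_⟩
  · have h0 := he 0 (Finset.mem_univ _)
    have h1 := he 1 (Finset.mem_univ _)
    have h2 := he 2 (Finset.mem_univ _)
    have : Finset.univ.gcd d * dot e x = 0 := by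
      rw [← hd]
      simp only [dot]
      rw [h0, h1, h2]
      ring
    exact (mul_eq_zero.mp this).resolve_left hg0
  · have hmx : mx e ≤ Y := by
      apply Finset.sup_le
      intro i _
      refine le_trans ?_ (hdY i)
      rw [he i (Finset.mem_univ i), Int.natAbs_mul]
      exact Nat.le_mul_of_pos_left _ (Int.natAbs_pos.mpr hg0)
    calc mx e ^ 2 ≤ Y ^ 2 := Nat.pow_le_pow_left hmx 2
      _ ≤ 3 * B := Nat.sqrt_le' _

end Pool.MP_aab329_nt.SerreP
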