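import Pool.Agent.Lib.MP_aab329_nt.Defs

set_option autoImplicit false

namespace Pool.MP_aab329_nt.SerreP

open Real

private theorem primes_aux (n : ℕ) :
    ((Finset.range (n + 1)).filter Nat.Prime).card = Nat.primeCounting n := by
  rw [Nat.primeCounting, Nat.primeCounting', Nat.count_eq_card_filter_range]

/-- `r` primes in a short range above `P`.
Proof. The number of primes `≤ P` is `≤ P`, so it suffices that `π n ≥ P + r` for
`n = ⌊C (P + r) log (P + r)⌋`; use `Chebyshev.pi_ge`. -/
theorem many_primes : ∃ C : ℝ, 0 < C ∧ ∀ (P : ℝ) (r : ℕ), 2 ≤ P → 1 ≤ r →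
    ∃ S : Finset ℕ, S.card = r ∧
      ∀ p ∈ S, p.Prime ∧ P < p ∧ (p : ℝ) ≤ C * (P + r) * log (P + r) := by
  refine ⟨100, by norm_num, ?_⟩
  intro P r hP hr
  have hr' : (1 : ℝ) ≤ r := by exact_mod_cast hr
  set Y : ℝ := P + r with hY
  have hY3 : 3 ≤ Y := by linarith
  set L : ℝ := log Y with hL
  have hL1 : 1 ≤ L := by
    have h3 : exp 1 ≤ Y := le_trans (by linarith [Real.exp_one_lt_d9]) hY3
    have := Real.log_le_log (Real.exp_pos 1) h3
    rwa [Real.log_exp] at this
  have hLY : L ≤ Y := by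
    have := Real.log_le_sub_one_of_pos (show 0 < Y by linarith)
    linarith
  have hYL : 3 ≤ Y * L := by nlinarith
  set n : ℕ := ⌊100 * Y * L⌋₊ with hn
  have hnle : (n : ℝ) ≤ 100 * Y * L := Nat.floor_le (by positivity)
  have hnge : 100 * Y * L - 1 < (n : ℝ) := Nat.sub_one_lt_floor _
  have hn2 : (2 : ℝ) ≤ n := by nlinarith
  have hlogn : log n ≤ 5 + 2 * L := by
    have h1 : log n ≤ log (100 * Y * L) := Real.log_le_log (by linarith) hnle
    have h2 : log (100 * Y * L) = log 100 + log Y + log L := by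
      rw [Real.log_mul (by positivity) (by positivity), Real.log_mul (by norm_num) (by positivity)]
    have h3 : log L ≤ log Y := Real.log_le_log (by linarith) hLY
    have h4 : log 100 ≤ 5 := by
      rw [Real.log_le_iff_le_exp (by norm_num)]
      have he : (2.7 : ℝ) ≤ exp 1 := by linarith [Real.exp_one_gt_d9]
      have h5 : exp 5 = (exp 1) ^ 5 := by
        rw [← Real.exp_nat_mul]; norm_num
      rw [h5]
      have : (2.7 : ℝ) ^ 5 ≤ exp 1 ^ 5 := by gcongr
      norm_num at this ⊢
      linarith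
    rw [h2] at h1
    linarith
  have hlognpos : 0 < log n := Real.log_pos (by linarith)
  have hlog1 : log ((n : ℝ) + 1) ≤ log 2 + log n := by
    rw [← Real.log_mul (by norm_num) (by linarith)]
    apply Real.log_le_log (by linarith)
    linarith
  have hpi := Chebyshev.pi_ge n
  have hkey : Y ≤ (Nat.primeCounting n : ℝ) := by
    refine le_trans ?_ hpi
    rw [le_div_iff₀ hlognpos]
    have hl2 : (0.69 : ℝ) ≤ log 2 := by linarith [Real.log_two_gt_d9]
    have hl2' : log 2 ≤ 0.7 := by linarith [Real.log_two_lt_d9]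
    have e1 : (100 * (Y * L) - 1) * 0.69 ≤ n * log 2 := by
      have : (100 * (Y * L) - 1) ≤ n := by nlinarith
      have h0 : 0 ≤ (100 * (Y * L) - 1) := by nlinarith
      exact mul_le_mul this hl2 (by norm_num) (by linarith)
    have e2 : Y * log n ≤ Y * (5 + 2 * L) := by
      apply mul_le_mul_of_nonneg_left hlogn; linarith
    have e3 : Y * (5 + 2 * L) ≤ 7 * (Y * L) := by nlinarith
    have e4 : L ≤ Y * L := by nlinarith
    nlinarith
  -- primes in `(P, n]`
  set T : Finset ℕ := ((Finset.range (n + 1)).filter Nat.Prime).filter (fun p => P < (p : ℝ)) with hT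
  set U : Finset ℕ := ((Finset.range (n + 1)).filter Nat.Prime).filter (fun p => ¬ P < (p : ℝ)) with hU
  have hsum : T.card + U.card = Nat.primeCounting n := by
    rw [← primes_aux n]
    exact Finset.card_filter_add_card_filter_not (s := (Finset.range (n + 1)).filter Nat.Prime)
      (fun p => P < (p : ℝ))
  have hUc : (U.card : ℝ) ≤ P := by
    have hsub : U ⊆ Finset.Icc 1 ⌊P⌋₊ := by
      intro p hp
      rw [hU, Finset.mem_filter, Finset.mem_filter] at hp
      rw [Finset.mem_Icc]
      refine ⟨hp.1.2.one_lt.le, ?_⟩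
      exact Nat.le_floor (not_lt.mp hp.2)
    have h1 := Finset.card_le_card hsub
    rw [Nat.card_Icc] at h1
    have h2 : (U.card : ℝ) ≤ (⌊P⌋₊ : ℝ) := by
      exact_mod_cast (by omega : U.card ≤ ⌊P⌋₊)
    exact h2.trans (Nat.floor_le (by linarith))
  have hTc : r ≤ T.card := by
    have : ((T.card : ℝ) + (U.card : ℝ)) = (Nat.primeCounting n : ℝ) := by exact_mod_cast hsum
    have h3 : (r : ℝ) ≤ T.card := by linarith
    exact_mod_cast h3
  obtain ⟨S, hST, hSc⟩ := Finset.exists_subset_card_eq hTc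
  refine ⟨S, hSc, ?_⟩
  intro p hp
  have hpT := hST hp
  rw [hT, Finset.mem_filter, Finset.mem_filter, Finset.mem_range] at hpT
  refine ⟨hpT.1.2, hpT.2, ?_⟩
  have : (p : ℝ) ≤ n := by exact_mod_cast Nat.lt_succ_iff.mp hpT.1.1
  exact this.trans hnle

end Pool.MP_aab329_nt.SerreP
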