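import Pool.Agent.Lib.MP_aab329_nt.PrimeCount
import Pool.Agent.Lib.MP_aab329_nt.Primes

set_option autoImplicit false

namespace Pool.MP_aab329_nt.SerreP

open Polynomial Real

private theorem isPt_finite (m : ℕ) (f : (MvPolynomial (Fin 3) ℤ)[X]) (u v : Fin 3 → ℤ)
    (h : ℚ[X][X]) (U V W : ℝ) :
    {q : ℤ × ℤ | ∃ τ : ℤ, IsPt m f u v h U V W q.1 q.2 τ}.Finite := by
  refine Set.Finite.subset (Set.Finite.prod (Set.finite_Icc (-⌈U⌉) ⌈U⌉)
    (Set.finite_Icc (-⌈V⌉) ⌈V⌉)) ?_
  rintro ⟨a, b⟩ ⟨τ, hq⟩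
  have h1 := hq.hα
  have h2 := hq.hβ
  simp only at h1 h2
  rw [abs_le] at h1 h2
  have hU := Int.le_ceil U
  have hV := Int.le_ceil V
  simp only [Set.mem_prod, Set.mem_Icc]
  refine ⟨⟨?_, ?_⟩, ⟨?_, ?_⟩⟩
  · have : ((-⌈U⌉ : ℤ) : ℝ) ≤ (a : ℝ) := by push_cast; linarith
    exact_mod_cast this
  · have : (a : ℝ) ≤ ((⌈U⌉ : ℤ) : ℝ) := by linarith
    exact_mod_cast this
  · have : ((-⌈V⌉ : ℤ) : ℝ) ≤ (b : ℝ) := by push_cast; linarith
    exact_mod_cast this
  · have : (b : ℝ) ≤ ((⌈V⌉ : ℤ) : ℝ) := by linarith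
    exact_mod_cast this

private theorem ncard_biUnion_le' {α β : Type*} (S : Finset α) (A : α → Set β) :
    (⋃ p ∈ S, A p).ncard ≤ ∑ p ∈ S, (A p).ncard := by
  classical
  induction S using Finset.induction_on with
  | empty => simp
  | insert a s ha ih =>
    rw [Finset.set_biUnion_insert, Finset.sum_insert ha]
    exact (Set.ncard_union_le _ _).trans (by omega)

/-- Uniform bound for the points of a line.
Proof. Let `P = exp 17 * (U V)^(1/e)`, `r = ⌈2 log W⌉ + 1`, `S` the primes of `many_primes`.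
For a point `(α, β, τ)` the integer `β * f_T` is nonzero and at most `W^2 < exp r < P^r` in
absolute value, so it is not divisible by all `p ∈ S` (their product exceeds `P^r`). Hence the set
is the union over `p ∈ S` of the sets of `prime_count` (with `K = ⌈(m e + 1) 2 log W⌉`), and
`r * D * p * 4 e (m e + K + M) ≤ C (U V)^(1/e) (log W)^c` for every `p ∈ S`. -/
theorem curve_bound (m D e M : ℕ) (hm : 1 ≤ m) (he : 1 ≤ e) :
    ∃ (c : ℕ) (C : ℝ), 0 < C ∧ ∀ (f : (MvPolynomial (Fin 3) ℤ)[X]), WMonic m D f →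
      ∀ (u v : Fin 3 → ℤ) (h : ℚ[X][X]), h.Monic → h.natDegree = e → Irreducible h →
      (∀ i, (h.coeff i).natDegree ≤ M) →
      ∀ U V W : ℝ, 1 ≤ U → 1 ≤ V → U ≤ W → V ≤ W → 3 ≤ W →
      ({q : ℤ × ℤ | ∃ τ : ℤ, IsPt m f u v h U V W q.1 q.2 τ}.ncard : ℝ) ≤
        C * (U * V) ^ (1 / (e : ℝ)) * (log W) ^ c := by
  obtain ⟨C₀, hC₀, hprimes⟩ := many_primes
  have heR : (1 : ℝ) ≤ e := by exact_mod_cast he
  set c1 : ℝ := m * e + 2 * (m * e + 1) + 1 + M with hc1
  have hc1pos : 0 < c1 := by positivity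
  refine ⟨4, 4 * (D + 1) * (C₀ * (exp 17 + 4) * 21) * (4 * e * c1), by positivity, ?_⟩
  intro f hf u v h hmon hdeg hirr hc U V W hU hV hUW hVW hW
  set L := log W with hL
  have hWpos : 0 < W := by linarith
  have hL1 : 1 ≤ L := by
    rw [hL, Real.le_log_iff_exp_le hWpos]
    have := Real.exp_one_lt_d9
    linarith
  set E := (U * V) ^ (1 / (e : ℝ)) with hE
  have hUV1 : 1 ≤ U * V := by nlinarith
  have hUVW : U * V ≤ W ^ 2 := by nlinarith
  have hE1 : 1 ≤ E := Real.one_le_rpow hUV1 (by positivity)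
  have hEpos : 0 < E := by linarith
  have hEUV : E ≤ U * V := by
    calc E ≤ (U * V) ^ (1 : ℝ) := by
          apply Real.rpow_le_rpow_of_exponent_le hUV1
          rw [div_le_one (by linarith)]
          exact heR
      _ = U * V := Real.rpow_one _
  have hlogE : log E ≤ 2 * L := by
    calc log E ≤ log (W ^ 2) := Real.log_le_log hEpos (hEUV.trans hUVW)
      _ = 2 * L := by rw [Real.log_pow, hL]; norm_num
  have hexp17 : (2 : ℝ) ≤ exp 17 := by
    have := Real.add_one_le_exp (17 : ℝ)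
    linarith
  set P := exp 17 * E with hP
  have hP2 : 2 ≤ P := by
    rw [hP]; nlinarith
  set r := ⌈2 * L⌉₊ + 1 with hr
  have hr1 : 1 ≤ r := by omega
  have hrlow : 2 * L ≤ r := by
    have := Nat.le_ceil (2 * L)
    rw [hr]; push_cast; linarith
  have hrup : (r : ℝ) ≤ 4 * L := by
    have := Nat.ceil_lt_add_one (a := 2 * L) (by linarith)
    rw [hr]; push_cast; linarith
  obtain ⟨S, hScard, hS⟩ := hprimes P r hP2 hr1
  set K := ⌈((m * e + 1 : ℕ) : ℝ) * (2 * L)⌉₊ with hKdef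
  have hK : ((m * e + 1 : ℕ) : ℝ) * (2 * L) ≤ K := Nat.le_ceil _
  have hKup : (K : ℝ) ≤ (m * e + 1) * (2 * L) + 1 := by
    have := Nat.ceil_lt_add_one (a := ((m * e + 1 : ℕ) : ℝ) * (2 * L)) (by positivity)
    rw [hKdef]
    push_cast at this ⊢
    linarith
  -- the sets
  set A : ℕ → Set (ℤ × ℤ) := fun p =>
    {q : ℤ × ℤ | ∃ τ : ℤ, IsPt m f u v h U V W q.1 q.2 τ ∧ ¬ (p : ℤ) ∣ q.2 ∧
      ¬ (p : ℤ) ∣ (derivative (sp f (fun c => q.1 * u c + q.2 * v c))).eval τ} with hA
  have hAfin : ∀ p, (A p).Finite := fun p =>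
    (isPt_finite m f u v h U V W).subset (by
      rintro q ⟨τ, hq, -⟩
      exact ⟨τ, hq⟩)
  have hcover : {q : ℤ × ℤ | ∃ τ : ℤ, IsPt m f u v h U V W q.1 q.2 τ} ⊆ ⋃ p ∈ S, A p := by
    rintro q ⟨τ, hq⟩
    by_contra hcon
    simp only [Set.mem_iUnion, not_exists, hA, Set.mem_ofPred_eq] at hcon
    set F := (derivative (sp f (fun c => q.1 * u c + q.2 * v c))).eval τ with hF
    set n : ℤ := q.2 * F with hn
    have hdvd : ∀ p ∈ S, (p : ℤ) ∣ n := by
      intro p hp
      by_contra hnd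
      apply hcon p hp τ
      refine ⟨hq, ?_, ?_⟩
      · intro hd; exact hnd (hd.mul_right _)
      · intro hd; exact hnd (hd.mul_left _)
    have hn0 : n ≠ 0 := mul_ne_zero hq.ne hq.der
    have hprod : (∏ p ∈ S, p) ∣ n.natAbs := by
      apply Finset.prod_primes_dvd
      · intro p hp
        exact (hS p hp).1.prime
      · intro p hp
        exact Int.natCast_dvd.mp (hdvd p hp)
    have hle : ((∏ p ∈ S, p : ℕ) : ℝ) ≤ (n.natAbs : ℝ) := by
      exact_mod_cast Nat.le_of_dvd (Int.natAbs_pos.mpr hn0) hprod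
    have hlow : P ^ r ≤ ((∏ p ∈ S, p : ℕ) : ℝ) := by
      push_cast
      calc P ^ r = ∏ _p ∈ S, P := by rw [Finset.prod_const, hScard]
        _ ≤ ∏ p ∈ S, (p : ℝ) := by
            apply Finset.prod_le_prod
            · intro i _; linarith
            · intro p hp; exact (hS p hp).2.1.le
    have hnup : (n.natAbs : ℝ) ≤ W ^ 2 := by
      rw [Nat.cast_natAbs, Int.cast_abs, hn, Int.cast_mul, abs_mul]
      have h1 := hq.hβ
      have h2 := hq.derle
      have h3 : |(F : ℝ)| ≤ W := h2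
      have h4 : |(q.2 : ℝ)| ≤ W := h1.trans hVW
      calc |(q.2 : ℝ)| * |(F : ℝ)| ≤ W * W := by
            apply mul_le_mul h4 h3 (abs_nonneg _) hWpos.le
        _ = W ^ 2 := by ring
    have hWexp : W ^ 2 = exp (2 * L) := by
      rw [hL, two_mul, Real.exp_add, Real.exp_log hWpos]; ring
    have hPr : exp (2 * L) < P ^ r := by
      have hPexp : exp 17 ≤ P := by
        rw [hP]
        nlinarith [Real.exp_pos 17]
      calc exp (2 * L) ≤ exp r := Real.exp_le_exp.mpr hrlow
        _ < exp (17 * r) := by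
            apply Real.exp_lt_exp.mpr
            have : (1 : ℝ) ≤ r := by exact_mod_cast hr1
            linarith
        _ = (exp 17) ^ r := by
            rw [← Real.exp_nat_mul]; ring_nf
        _ ≤ P ^ r := pow_le_pow_left₀ (Real.exp_pos 17).le hPexp r
    linarith
  have h1 : ({q : ℤ × ℤ | ∃ τ : ℤ, IsPt m f u v h U V W q.1 q.2 τ}).ncard ≤
      ∑ p ∈ S, D * p * (4 * e * (m * e + K + M)) := by
    have hfin : (⋃ p ∈ S, A p).Finite := S.finite_toSet.biUnion (fun p _ => hAfin p)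
    calc _ ≤ (⋃ p ∈ S, A p).ncard := Set.ncard_le_ncard hcover hfin
      _ ≤ ∑ p ∈ S, (A p).ncard := ncard_biUnion_le' S A
      _ ≤ _ := by
          apply Finset.sum_le_sum
          intro p hp
          exact prime_count m D e M K hm he f hf u v h hmon hdeg hirr hc U V W hU hV hUW hVW hW
            hK p (hS p hp).1 (hS p hp).2.1
  have hPr1 : P + r ≤ (exp 17 + 4) * E * L := by
    have h2 : exp 17 * E ≤ exp 17 * E * L := by
      have : 0 ≤ exp 17 * E := by positivity
      nlinarith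
    have h3 : (r : ℝ) ≤ 4 * E * L := by
      have : 4 * L ≤ 4 * E * L := by nlinarith
      linarith
    rw [hP]
    nlinarith
  have hPr0 : 0 < P + r := by
    have : (0 : ℝ) ≤ r := Nat.cast_nonneg r
    linarith
  have hlogPr : log (P + r) ≤ 21 * L := by
    calc log (P + r) ≤ log ((exp 17 + 4) * E * L) := Real.log_le_log hPr0 hPr1
      _ = log (exp 17 + 4) + log E + log L := by
          rw [Real.log_mul (by positivity) (by positivity),
            Real.log_mul (by positivity) (by positivity)]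
      _ ≤ 18 + 2 * L + L := by
          have ha : log (exp 17 + 4) ≤ 18 := by
            rw [Real.log_le_iff_le_exp (by positivity)]
            have : exp 18 = exp 17 * exp 1 := by rw [← Real.exp_add]; norm_num
            rw [this]
            have h5 := Real.exp_one_gt_d9
            have h6 := Real.add_one_le_exp (17 : ℝ)
            nlinarith
          have hb : log L ≤ L := by
            have := Real.log_le_sub_one_of_pos (show 0 < L by linarith)
            linarith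
          linarith
      _ ≤ 21 * L := by linarith
  have hlogPr0 : 0 ≤ log (P + r) := by
    apply Real.log_nonneg
    have : (0 : ℝ) ≤ r := Nat.cast_nonneg r
    linarith
  have hpup : ∀ p ∈ S, (p : ℝ) ≤ C₀ * (exp 17 + 4) * 21 * E * L ^ 2 := by
    intro p hp
    calc (p : ℝ) ≤ C₀ * (P + r) * log (P + r) := (hS p hp).2.2
      _ ≤ C₀ * ((exp 17 + 4) * E * L) * (21 * L) := by
          apply mul_le_mul _ hlogPr hlogPr0 (by positivity)
          exact mul_le_mul_of_nonneg_left hPr1 hC₀.le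
      _ = _ := by ring
  have hKK : ((m * e + K + M : ℕ) : ℝ) ≤ c1 * L := by
    push_cast
    rw [hc1]
    have hme : (0 : ℝ) ≤ m * e := by positivity
    have hM0 : (0 : ℝ) ≤ M := Nat.cast_nonneg M
    nlinarith
  have h2 : ((∑ p ∈ S, D * p * (4 * e * (m * e + K + M)) : ℕ) : ℝ) ≤
      ∑ _p ∈ S, (D + 1) * (C₀ * (exp 17 + 4) * 21 * E * L ^ 2) * (4 * e * (c1 * L)) := by
    rw [Nat.cast_sum]
    apply Finset.sum_le_sum
    intro p hp
    have h3 := hpup p hp
    have hD : (0 : ℝ) ≤ D := Nat.cast_nonneg D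
    have hp0 : (0 : ℝ) ≤ p := Nat.cast_nonneg p
    rw [Nat.cast_mul, Nat.cast_mul, Nat.cast_mul, Nat.cast_mul]
    apply mul_le_mul
    · apply mul_le_mul _ h3 hp0 (by positivity)
      linarith
    · apply mul_le_mul_of_nonneg_left hKK
      positivity
    · positivity
    · positivity
  have h3 : ∑ _p ∈ S, (D + 1) * (C₀ * (exp 17 + 4) * 21 * E * L ^ 2) * (4 * e * (c1 * L)) =
      r * ((D + 1) * (C₀ * (exp 17 + 4) * 21 * E * L ^ 2) * (4 * e * (c1 * L))) := by
    rw [Finset.sum_const, hScard, nsmul_eq_mul]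
  calc (({q : ℤ × ℤ | ∃ τ : ℤ, IsPt m f u v h U V W q.1 q.2 τ}).ncard : ℝ)
      ≤ ((∑ p ∈ S, D * p * (4 * e * (m * e + K + M)) : ℕ) : ℝ) := by exact_mod_cast h1
    _ ≤ r * ((D + 1) * (C₀ * (exp 17 + 4) * 21 * E * L ^ 2) * (4 * e * (c1 * L))) := by
        rw [← h3]; exact h2
    _ ≤ (4 * L) * ((D + 1) * (C₀ * (exp 17 + 4) * 21 * E * L ^ 2) * (4 * e * (c1 * L))) := by
        apply mul_le_mul_of_nonneg_right hrup
        positivity
    _ = 4 * (D + 1) * (C₀ * (exp 17 + 4) * 21) * (4 * e * c1) * E * L ^ 4 := by ring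

end Pool.MP_aab329_nt.SerreP
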