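import Mathlib

set_option autoImplicit false

namespace Pool.MP_aab329_nt.SerreP

open Polynomial

/-- Dot product of vectors with three coordinates. -/
def dot {R : Type*} [CommRing R] (x y : Fin 3 → R) : R :=
  x 0 * y 0 + x 1 * y 1 + x 2 * y 2

/-- Square of the Euclidean norm. -/
def nsq (x : Fin 3 → ℤ) : ℤ := dot x x

/-- Maximum norm. -/
def mx (x : Fin 3 → ℤ) : ℕ := Finset.univ.sup (fun i => (x i).natAbs)

/-- Primitive vectors. -/
def prim (x : Fin 3 → ℤ) : Prop := Finset.univ.gcd x = 1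

/-- The rational vector of an integer vector. -/
def rat (x : Fin 3 → ℤ) : Fin 3 → ℚ := fun c => (x c : ℚ)

/-- `f(T; x)`: the coefficients of `f` are specialised at the point `x`. -/
noncomputable def sp {R : Type*} [CommRing R] (f : (MvPolynomial (Fin 3) ℤ)[X])
    (x : Fin 3 → R) : R[X] :=
  f.map (MvPolynomial.eval₂Hom (Int.castRingHom R) x)

/-- `f` is monic of degree `D` in `T`, and the coefficient of `T^i` is a form of degree
`m * (D - i)`. -/
structure WMonic (m D : ℕ) (f : (MvPolynomial (Fin 3) ℤ)[X]) : Prop where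
  monic : f.Monic
  deg : f.natDegree = D
  hom : ∀ i, i ≤ D → (f.coeff i).IsHomogeneous (m * (D - i))

/-- Restriction of `f` to the line through `u` and `v`, in the coordinate `X` of `X u + v`. -/
noncomputable def gline (f : (MvPolynomial (Fin 3) ℤ)[X]) (u v : Fin 3 → ℚ) : ℚ[X][X] :=
  sp f (fun c => C (u c) * X + C (v c))

/-- The line `y x = 0` is bad: the restriction of `f` to it has a polynomial root. -/
def BadLine (f : (MvPolynomial (Fin 3) ℤ)[X]) (y : Fin 3 → ℤ) : Prop :=
  ∃ u v : Fin 3 → ℚ, LinearIndependent ℚ ![u, v] ∧ dot (rat y) u = 0 ∧ dot (rat y) v = 0 ∧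
    ∃ p : ℚ[X], (gline f u v).eval p = 0

/-- `f` has no root among the polynomials in `x`. -/
def NoRoot (f : (MvPolynomial (Fin 3) ℤ)[X]) : Prop :=
  ∀ P : MvPolynomial (Fin 3) ℚ,
    (sp f (fun c => (MvPolynomial.X c : MvPolynomial (Fin 3) ℚ))).eval P ≠ 0

theorem sp_map {R S : Type*} [CommRing R] [CommRing S] (φ : R →+* S)
    (f : (MvPolynomial (Fin 3) ℤ)[X]) (x : Fin 3 → R) :
    (sp f x).map φ = sp f (fun c => φ (x c)) := by
  unfold sp
  rw [Polynomial.map_map]
  congr 1
  apply MvPolynomial.ringHom_ext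
  · intro r; simp
  · intro i; simp

theorem sp_monic {R : Type*} [CommRing R] {m D : ℕ} {f : (MvPolynomial (Fin 3) ℤ)[X]}
    (hf : WMonic m D f) (x : Fin 3 → R) : (sp f x).Monic :=
  hf.monic.map _

theorem sp_natDegree {R : Type*} [CommRing R] [Nontrivial R] {m D : ℕ}
    {f : (MvPolynomial (Fin 3) ℤ)[X]}
    (hf : WMonic m D f) (x : Fin 3 → R) : (sp f x).natDegree = D := by
  unfold sp
  rw [hf.monic.natDegree_map, hf.deg]

theorem sp_coeff {R : Type*} [CommRing R] (f : (MvPolynomial (Fin 3) ℤ)[X])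
    (x : Fin 3 → R) (i : ℕ) :
    (sp f x).coeff i = MvPolynomial.eval₂ (Int.castRingHom R) x (f.coeff i) := by
  simp [sp]

theorem eval₂_smul_hom {R : Type*} [CommRing R] {P : MvPolynomial (Fin 3) ℤ} {n : ℕ}
    (hP : P.IsHomogeneous n) (c : R) (x : Fin 3 → R) :
    MvPolynomial.eval₂ (Int.castRingHom R) (fun i => c * x i) P =
      c ^ n * MvPolynomial.eval₂ (Int.castRingHom R) x P := by
  rw [MvPolynomial.eval₂_eq', MvPolynomial.eval₂_eq', Finset.mul_sum]
  apply Finset.sum_congr rfl
  intro d hd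
  have hdeg : d.sum (fun _ e => e) = n := by
    have := hP (MvPolynomial.mem_support_iff.mp hd)
    simpa [Finsupp.weight_apply, Finsupp.sum] using this
  have h2 : ∏ i, (c * x i) ^ d i = c ^ n * ∏ i, x i ^ d i := by
    simp_rw [mul_pow]
    rw [Finset.prod_mul_distrib, Finset.prod_pow_eq_pow_sum]
    congr 2
    rw [← hdeg, Finsupp.sum_fintype]
    simp
  rw [h2]; ring

/-- Weighted homogeneity. -/
theorem sp_eval_smul {R : Type*} [CommRing R] {m D : ℕ} {f : (MvPolynomial (Fin 3) ℤ)[X]}
    (hf : WMonic m D f) (c t : R) (x : Fin 3 → R) :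
    (sp f (fun i => c * x i)).eval (c ^ m * t) = c ^ (m * D) * (sp f x).eval t := by
  nontriviality R
  rw [Polynomial.eval_eq_sum_range' (n := D + 1) (by rw [sp_natDegree hf]; omega),
    Polynomial.eval_eq_sum_range' (n := D + 1) (by rw [sp_natDegree hf]; omega), Finset.mul_sum]
  apply Finset.sum_congr rfl
  intro i hi
  have hi' : i ≤ D := Nat.lt_succ_iff.mp (Finset.mem_range.mp hi)
  rw [sp_coeff, sp_coeff, eval₂_smul_hom (hf.hom i hi'), mul_pow, ← pow_mul]
  have : m * D = m * (D - i) + m * i := by rw [← mul_add, Nat.sub_add_cancel hi']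
  rw [this, pow_add]; ring

theorem sp_derivative_eval_smul {R : Type*} [CommRing R] {m D : ℕ}
    {f : (MvPolynomial (Fin 3) ℤ)[X]}
    (hf : WMonic m D f) (c t : R) (x : Fin 3 → R) :
    (derivative (sp f (fun i => c * x i))).eval (c ^ m * t) =
      c ^ (m * (D - 1)) * (derivative (sp f x)).eval t := by
  nontriviality R
  rw [Polynomial.derivative_eval, Polynomial.derivative_eval,
    Polynomial.sum_over_range' _ (by simp) (D + 1) (by rw [sp_natDegree hf]; omega),
    Polynomial.sum_over_range' _ (by simp) (D + 1) (by rw [sp_natDegree hf]; omega),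
    Finset.mul_sum]
  apply Finset.sum_congr rfl
  intro i hi
  have hi' : i ≤ D := Nat.lt_succ_iff.mp (Finset.mem_range.mp hi)
  rcases Nat.eq_zero_or_pos i with h0 | h0
  · subst h0; simp
  rw [sp_coeff, sp_coeff, eval₂_smul_hom (hf.hom i hi'), mul_pow, ← pow_mul]
  have : m * (D - 1) = m * (D - i) + m * (i - 1) := by
    rw [← mul_add]; congr 1; omega
  rw [this, pow_add]; ring

end Pool.MP_aab329_nt.SerreP
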