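import Pool.Agent.Lib.MP_aab329_nt.Defs

set_option autoImplicit false

namespace Pool.MP_aab329_nt.SerreP

open Polynomial

/-- All homogeneous components vanish at a point if the polynomial vanishes on the line
through it. -/
private theorem comp_vanish (P : MvPolynomial (Fin 3) ℤ) (x : Fin 3 → ℚ)
    (h : ∀ c : ℚ, MvPolynomial.eval₂ (Int.castRingHom ℚ) (fun i => c * x i) P = 0) (N : ℕ) :
    MvPolynomial.eval₂ (Int.castRingHom ℚ) x (MvPolynomial.homogeneousComponent N P) = 0 := by
  classical
  set Q : ℚ[X] := ∑ n ∈ Finset.range (P.totalDegree + 1),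
    C (MvPolynomial.eval₂ (Int.castRingHom ℚ) x (MvPolynomial.homogeneousComponent n P)) * X ^ n
    with hQ
  have hev : ∀ c : ℚ, Q.eval c = 0 := by
    intro c
    rw [← h c]
    conv_rhs => rw [← MvPolynomial.sum_homogeneousComponent P]
    rw [MvPolynomial.eval₂_sum, hQ, Polynomial.eval_finsetSum]
    apply Finset.sum_congr rfl
    intro n _
    rw [eval₂_smul_hom (MvPolynomial.homogeneousComponent_isHomogeneous n P)]
    rw [Polynomial.eval_mul, Polynomial.eval_C, Polynomial.eval_pow, Polynomial.eval_X, mul_comm]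
  have hQ0 : Q = 0 := Polynomial.funext (fun c => by rw [hev c, Polynomial.eval_zero])
  by_cases hN : N ∈ Finset.range (P.totalDegree + 1)
  · have := congrArg (fun R : ℚ[X] => R.coeff N) hQ0
    simp only [hQ, Polynomial.finsetSum_coeff, Polynomial.coeff_C_mul, Polynomial.coeff_X_pow,
      Polynomial.coeff_zero] at this
    rw [Finset.sum_eq_single N (by intro b _ hb; rw [if_neg (Ne.symm hb)]; ring)
      (by intro h; exact absurd hN h)] at this
    simpa using this
  · rw [MvPolynomial.homogeneousComponent_eq_zero]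
    · simp
    · simp only [Finset.mem_range, not_lt] at hN
      omega

/-- A homogeneous `Δ` controlling multiple roots, `D = 3`.
Proof. Over the fraction field `K` of `MvPolynomial (Fin 3) ℚ` the polynomial `f` (degree `3`) has
no root (a root in `K` is integral, hence in `MvPolynomial (Fin 3) ℚ`, against `NoRoot`), so it is
irreducible, hence separable and coprime to its derivative. So `Δ0 = resultant f (derivative f)`
is a nonzero element of `MvPolynomial (Fin 3) ℤ` (`resultant_map_map`, `resultant_ne_zero`) and
`Δ0(x) = 0` whenever `f`, `f_T` have a common (rational) zero `τ` over `x`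
(`exists_mul_add_mul_eq_C_resultant`). If `(τ; x)` is a common zero, so is `(c^m τ; c x)` for all
integers `c` (`sp_eval_smul`, `sp_derivative_eval_smul`), so all homogeneous components of `Δ0`
vanish at `x`; take a nonzero one. -/
theorem exists_disc {m : ℕ} {f : (MvPolynomial (Fin 3) ℤ)[X]} (hf : WMonic m 3 f)
    (hnr : NoRoot f) :
    ∃ (Δ : MvPolynomial (Fin 3) ℤ) (N : ℕ), Δ ≠ 0 ∧ Δ.IsHomogeneous N ∧
      ∀ (a : Fin 3 → ℤ), MvPolynomial.eval a Δ ≠ 0 → ∀ τ : ℚ,
        (sp f (rat a)).eval τ = 0 → (derivative (sp f (rat a))).eval τ ≠ 0 := by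
  classical
  let B := MvPolynomial (Fin 3) ℚ
  let K := FractionRing B
  let ψ : MvPolynomial (Fin 3) ℤ →+* B :=
    MvPolynomial.eval₂Hom (Int.castRingHom B) (fun c => (MvPolynomial.X c : B))
  have hψ : ψ = MvPolynomial.map (Int.castRingHom ℚ) := by
    apply MvPolynomial.ringHom_ext
    · intro r; simp [ψ]
    · intro i
      rw [MvPolynomial.map_X]
      simp [ψ]
  have hψi : Function.Injective ψ := by
    rw [hψ]
    exact MvPolynomial.map_injective _ (Int.cast_injective)
  let φ : MvPolynomial (Fin 3) ℤ →+* K := (algebraMap B K).comp ψ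
  have hφi : Function.Injective φ := (IsFractionRing.injective B K).comp hψi
  have hF : f.map φ = (sp f (fun c => (MvPolynomial.X c : B))).map (algebraMap B K) := by
    unfold sp
    rw [Polynomial.map_map]
  have hmon : (f.map φ).Monic := hf.monic.map _
  have hdeg : (f.map φ).natDegree = 3 := by rw [hf.monic.natDegree_map, hf.deg]
  have hirr : Irreducible (f.map φ) := by
    rw [hmon.irreducible_iff_roots_eq_zero_of_degree_le_three (by omega) (by omega)]
    rw [Multiset.eq_zero_iff_forall_notMem]
    intro x hx
    rw [Polynomial.mem_roots hmon.ne_zero, Polynomial.IsRoot.def] at hx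
    have hint : IsIntegral B x := by
      refine ⟨sp f (fun c => (MvPolynomial.X c : B)), sp_monic hf _, ?_⟩
      rw [hF, Polynomial.eval_map] at hx
      exact hx
    obtain ⟨P, hP⟩ := IsIntegrallyClosed.algebraMap_eq_of_integral hint
    apply hnr P
    rw [hF, Polynomial.eval_map, ← hP, Polynomial.eval₂_at_apply] at hx
    exact (map_eq_zero_iff _ (IsFractionRing.injective B K)).mp hx
  have hsep : IsCoprime (f.map φ) (derivative (f.map φ)) := hirr.separable
  have hres := resultant_ne_zero _ _ hsep
  rw [Polynomial.derivative_map, Polynomial.natDegree_map_eq_of_injective hφi,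
    Polynomial.natDegree_map_eq_of_injective hφi, resultant_map_map] at hres
  set Δ0 := resultant f (derivative f) with hΔ0
  have hΔ0ne : Δ0 ≠ 0 := by
    intro h
    apply hres
    rw [h, map_zero]
  obtain ⟨p, q, -, -, hpq⟩ := exists_mul_add_mul_eq_C_resultant f (derivative f) le_rfl le_rfl
    (Or.inl (by rw [hf.deg]; norm_num))
  rw [← hΔ0] at hpq
  have key : ∀ (x : Fin 3 → ℚ) (τ : ℚ), (sp f x).eval τ = 0 →
      (derivative (sp f x)).eval τ = 0 → MvPolynomial.eval₂ (Int.castRingHom ℚ) x Δ0 = 0 := by
    intro x τ h1 h2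
    have := congrArg (fun R => (R.map (MvPolynomial.eval₂Hom (Int.castRingHom ℚ) x)).eval τ) hpq
    simp only [Polynomial.map_add, Polynomial.map_mul, Polynomial.eval_add, Polynomial.eval_mul,
      Polynomial.map_C, Polynomial.eval_C] at this
    unfold sp at h1 h2
    rw [Polynomial.derivative_map] at h2
    rw [h1, h2] at this
    simpa using this.symm
  -- a nonzero homogeneous component
  obtain ⟨N, hN⟩ : ∃ N, MvPolynomial.homogeneousComponent N Δ0 ≠ 0 := by
    by_contra hcon
    push Not at hcon
    apply hΔ0ne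
    rw [← MvPolynomial.sum_homogeneousComponent Δ0]
    exact Finset.sum_eq_zero (fun i _ => hcon i)
  refine ⟨MvPolynomial.homogeneousComponent N Δ0, N, hN,
    MvPolynomial.homogeneousComponent_isHomogeneous N Δ0, ?_⟩
  intro a ha τ h1 h2
  apply ha
  have hall : ∀ c : ℚ, MvPolynomial.eval₂ (Int.castRingHom ℚ) (fun i => c * rat a i) Δ0 = 0 := by
    intro c
    apply key _ (c ^ m * τ)
    · rw [sp_eval_smul hf, h1, mul_zero]
    · rw [sp_derivative_eval_smul hf, h2, mul_zero]
  have := comp_vanish Δ0 (rat a) hall N
  have hcast : MvPolynomial.eval₂ (Int.castRingHom ℚ) (rat a)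
      (MvPolynomial.homogeneousComponent N Δ0) =
      ((MvPolynomial.eval a (MvPolynomial.homogeneousComponent N Δ0) : ℤ) : ℚ) := by
    have h3 : (MvPolynomial.eval₂Hom (Int.castRingHom ℚ) (rat a)) =
        (Int.castRingHom ℚ).comp (MvPolynomial.eval a) := by
      apply MvPolynomial.ringHom_ext
      · intro r; simp
      · intro i; simp [rat]
    have := congrArg (fun g : MvPolynomial (Fin 3) ℤ →+* ℚ =>
      g (MvPolynomial.homogeneousComponent N Δ0)) h3
    simpa using this
  rw [hcast] at this
  exact_mod_cast this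

end Pool.MP_aab329_nt.SerreP
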