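import Pool.Agent.Lib.MP_aab329_nt.Defs

set_option autoImplicit false

namespace Pool.MP_aab329_nt.SerreP

open Polynomial

private lemma clear_den {σ : Type*} (F : MvPolynomial σ ℚ) :
    ∃ (N : ℤ) (G : MvPolynomial σ ℤ), N ≠ 0 ∧
      MvPolynomial.map (Int.castRingHom ℚ) G = MvPolynomial.C (N : ℚ) * F := by
  induction F using MvPolynomial.induction_on' with
  | monomial u a =>
    refine ⟨(a.den : ℤ), MvPolynomial.monomial u a.num, by exact_mod_cast a.den_nz, ?_⟩
    rw [MvPolynomial.map_monomial, MvPolynomial.C_mul_monomial]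
    congr 1
    simp only [eq_intCast, Int.cast_natCast]
    rw [mul_comm]
    exact (Rat.mul_den_eq_num a).symm
  | add p q hp hq =>
    obtain ⟨N1, G1, h1, e1⟩ := hp
    obtain ⟨N2, G2, h2, e2⟩ := hq
    refine ⟨N1 * N2, MvPolynomial.C N2 * G1 + MvPolynomial.C N1 * G2, mul_ne_zero h1 h2, ?_⟩
    rw [map_add, map_mul, map_mul, e1, e2, MvPolynomial.map_C, MvPolynomial.map_C]
    push_cast
    simp only [map_mul, eq_intCast]
    ring

private lemma eval₂Hom_X_eq_map (p : MvPolynomial (Fin 3) ℤ) :
    MvPolynomial.eval₂Hom (Int.castRingHom (MvPolynomial (Fin 3) ℚ))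
      (fun c => (MvPolynomial.X c : MvPolynomial (Fin 3) ℚ)) p =
      MvPolynomial.map (Int.castRingHom ℚ) p := by
  have : MvPolynomial.eval₂Hom (Int.castRingHom (MvPolynomial (Fin 3) ℚ))
      (fun c => (MvPolynomial.X c : MvPolynomial (Fin 3) ℚ)) =
      MvPolynomial.map (Int.castRingHom ℚ) := by
    apply MvPolynomial.ringHom_ext
    · intro r; simp
    · intro i; simp
  rw [this]

private lemma cubic_coeff {R : Type*} [CommRing R] (a b c : R) :
    (X ^ 3 + C a * X ^ 2 + C b * X + C c : R[X]).coeff 0 = c ∧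
    (X ^ 3 + C a * X ^ 2 + C b * X + C c : R[X]).coeff 1 = b ∧
    (X ^ 3 + C a * X ^ 2 + C b * X + C c : R[X]).coeff 2 = a ∧
    (X ^ 3 + C a * X ^ 2 + C b * X + C c : R[X]).coeff 3 = 1 := by
  refine ⟨?_, ?_, ?_, ?_⟩ <;>
    simp [Polynomial.coeff_X, Polynomial.coeff_C, Polynomial.coeff_X_pow]

/-- Reduction to a monic weighted homogeneous polynomial.
Proof. Multiply `F` by an integer to get integral coefficients. Write (`optionEquivLeft`)
`F = a0 t^3 + a1 t^2 + a2 t + a3`, `a_i` a form of degree `d - 3 + i`, `a0 ≠ 0`, `d ≥ 3`. Put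
`m = d - 2`, `f = T^3 + a1 T^2 + a0 a2 T + a0^2 a3`, so `f(a0 t; x) = a0^2 F(t; x)`. If
`F(t; x) = 0` with `a0(x) ≠ 0` then `a0(x) t` is a rational root of the monic integral polynomial
`sp f x`, so it is an integer. If `f` had a root `P` among the polynomials, then `F` would have
the root `P / a0` in the fraction field of `MvPolynomial (Fin 3) ℚ`, against the Gauss lemma
(`IsPrimitive.irreducible_iff_irreducible_map_fraction_map`; `F` is irreducible of degree `3` in
`t`, hence primitive as a polynomial in `t`). -/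
theorem reduce (F : MvPolynomial (Option (Fin 3)) ℚ) (d : ℕ) (hF : F.IsHomogeneous d)
    (hirr : Irreducible F) (hdeg : F.degreeOf none = 3) :
    ∃ (m : ℕ) (f : (MvPolynomial (Fin 3) ℤ)[X]) (a0 : MvPolynomial (Fin 3) ℤ),
      1 ≤ m ∧ WMonic m 3 f ∧ NoRoot f ∧ a0 ≠ 0 ∧
      ∀ (x : Fin 3 → ℤ) (t : ℚ),
        MvPolynomial.eval (fun i : Option (Fin 3) => Option.elim i t
          (fun j => ((x j : ℤ) : ℚ))) F = 0 →
        MvPolynomial.eval x a0 ≠ 0 → ∃ τ : ℤ, (sp f x).eval τ = 0 := by
  obtain ⟨N, G, hN, hG⟩ := clear_den F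
  set g := MvPolynomial.optionEquivLeft ℤ (Fin 3) G with hg
  set h := MvPolynomial.optionEquivLeft ℚ (Fin 3) F with hh
  have hgh : ∀ i, MvPolynomial.map (Int.castRingHom ℚ) (g.coeff i) =
      MvPolynomial.C (N : ℚ) * h.coeff i := by
    intro i
    ext e
    rw [MvPolynomial.coeff_map, hg, MvPolynomial.optionEquivLeft_coeff_coeff,
      MvPolynomial.coeff_C_mul, hh, MvPolynomial.optionEquivLeft_coeff_coeff,
      ← MvPolynomial.coeff_map, hG, MvPolynomial.coeff_C_mul]
  have hNQ : (N : ℚ) ≠ 0 := by exact_mod_cast hN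
  have hF0 : F ≠ 0 := hirr.ne_zero
  have hh0 : h ≠ 0 := by
    rw [hh]; exact (EmbeddingLike.map_ne_zero_iff).mpr hF0
  have hnd : h.natDegree = 3 := by rw [hh, MvPolynomial.natDegree_optionEquivLeft, hdeg]
  have h3 : h.coeff 3 ≠ 0 := by
    have h0 : h.coeff h.natDegree ≠ 0 := Polynomial.leadingCoeff_ne_zero.mpr hh0
    rwa [hnd] at h0
  have hinj : Function.Injective (MvPolynomial.map (σ := Fin 3) (Int.castRingHom ℚ)) :=
    MvPolynomial.map_injective _ (RingHom.injective_int _)
  have hg3 : g.coeff 3 ≠ 0 := by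
    intro h0
    have := hgh 3
    rw [h0, map_zero] at this
    exact h3 ((mul_eq_zero.mp this.symm).resolve_left (by simpa using hN))
  have hd3 : 3 ≤ d := by
    rw [← hdeg]
    exact (MvPolynomial.degreeOf_le_totalDegree F none).trans hF.totalDegree_le
  have hGhom : G.IsHomogeneous d := by
    apply MvPolynomial.IsHomogeneous.of_map (f := Int.castRingHom ℚ) (RingHom.injective_int _)
    rw [hG]
    have := (MvPolynomial.isHomogeneous_C (Option (Fin 3)) (N : ℚ)).mul hF
    simpa using this
  have hghom : ∀ i, i ≤ d → (g.coeff i).IsHomogeneous (d - i) := by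
    intro i hi
    apply MvPolynomial.IsHomogeneous.coeff_isHomogeneous_of_optionEquivLeft_symm (n := d)
      (i := i)
    · rw [hg, AlgEquiv.symm_apply_apply]; exact hGhom
    · omega
  set f : (MvPolynomial (Fin 3) ℤ)[X] := X ^ 3 + C (g.coeff 2) * X ^ 2 +
    C (g.coeff 3 * g.coeff 1) * X + C (g.coeff 3 ^ 2 * g.coeff 0) with hf
  have hsp : ∀ {R : Type} [CommRing R] (x : Fin 3 → R), sp f x =
      X ^ 3 + C (MvPolynomial.eval₂Hom (Int.castRingHom R) x (g.coeff 2)) * X ^ 2 +
        C (MvPolynomial.eval₂Hom (Int.castRingHom R) x (g.coeff 3) *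
          MvPolynomial.eval₂Hom (Int.castRingHom R) x (g.coeff 1)) * X +
        C (MvPolynomial.eval₂Hom (Int.castRingHom R) x (g.coeff 3) ^ 2 *
          MvPolynomial.eval₂Hom (Int.castRingHom R) x (g.coeff 0)) := by
    intro R _ x
    simp only [sp, hf, Polynomial.map_add, Polynomial.map_mul, Polynomial.map_pow,
      Polynomial.map_X, Polynomial.map_C, map_mul, map_pow]
  have hmon : f.Monic := by rw [hf]; monicity!
  refine ⟨d - 2, f, g.coeff 3, by omega, ⟨hmon, ?_, ?_⟩, ?_, hg3, ?_⟩
  · rw [hf]; compute_degree!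
  · intro i hi
    interval_cases i
    · have e : f.coeff 0 = g.coeff 3 ^ 2 * g.coeff 0 := (cubic_coeff _ _ _).1
      rw [e]
      have := ((hghom 3 hd3).pow 2).mul (hghom 0 (by omega))
      convert this using 1
      omega
    · have e : f.coeff 1 = g.coeff 3 * g.coeff 1 := (cubic_coeff _ _ _).2.1
      rw [e]
      have := (hghom 3 hd3).mul (hghom 1 (by omega))
      convert this using 1
      omega
    · have e : f.coeff 2 = g.coeff 2 := (cubic_coeff _ _ _).2.2.1
      rw [e]
      have := hghom 2 (by omega)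
      convert this using 1
      omega
    · have e : f.coeff 3 = 1 := (cubic_coeff _ _ _).2.2.2
      rw [e]
      simpa using MvPolynomial.isHomogeneous_one (Fin 3) ℤ
  · intro P hP
    rw [hsp] at hP
    simp only [eval₂Hom_X_eq_map, hgh, Polynomial.eval_add, Polynomial.eval_mul,
      Polynomial.eval_pow, Polynomial.eval_X, Polynomial.eval_C] at hP
    have hprim : h.IsPrimitive := by
      apply Irreducible.isPrimitive
      · rw [hh]
        exact (MulEquiv.irreducible_iff (MvPolynomial.optionEquivLeft ℚ (Fin 3))).mpr hirr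
      · omega
    have hirrh : Irreducible h := by
      rw [hh]
      exact (MulEquiv.irreducible_iff (MvPolynomial.optionEquivLeft ℚ (Fin 3))).mpr hirr
    have hirrK := (Polynomial.IsPrimitive.irreducible_iff_irreducible_map_fraction_map
      (K := FractionRing (MvPolynomial (Fin 3) ℚ)) hprim).mp hirrh
    set φ := algebraMap (MvPolynomial (Fin 3) ℚ) (FractionRing (MvPolynomial (Fin 3) ℚ)) with hφ
    have hφinj : Function.Injective φ := IsFractionRing.injective _ _
    have hK : (h.map φ).natDegree = 3 := by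
      rw [Polynomial.natDegree_map_eq_of_injective hφinj, hnd]
    have hNR : (MvPolynomial.C (N : ℚ) : MvPolynomial (Fin 3) ℚ) ≠ 0 := by
      simpa using hN
    have hb3 : φ (MvPolynomial.C (N : ℚ) * h.coeff 3) ≠ 0 := by
      rw [map_ne_zero_iff _ hφinj]
      exact mul_ne_zero hNR h3
    refine hirrK.not_isRoot_of_natDegree_ne_one (x := φ P / φ (MvPolynomial.C (N : ℚ) * h.coeff 3))
      (by rw [hK]; norm_num) ?_
    rw [Polynomial.IsRoot.def, Polynomial.eval_eq_sum_range' (n := 4) (by omega)]
    simp only [Finset.sum_range_succ, Finset.sum_range_zero, Polynomial.coeff_map]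
    have hP' := congrArg φ hP
    simp only [map_add, map_mul, map_pow, map_zero] at hP' hb3 ⊢
    obtain ⟨hn, h3'⟩ := mul_ne_zero_iff.mp hb3
    field_simp
    linear_combination hP'
  · intro x t ht _
    have hev : MvPolynomial.eval (fun i : Option (Fin 3) => Option.elim i t
          (fun j => ((x j : ℤ) : ℚ))) (MvPolynomial.map (Int.castRingHom ℚ) G) = 0 := by
      rw [hG, map_mul, ht, mul_zero]
    have hz : ∀ i, MvPolynomial.eval (fun j => ((x j : ℤ) : ℚ))
        (MvPolynomial.map (Int.castRingHom ℚ) (g.coeff i)) =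
        ((MvPolynomial.eval x (g.coeff i) : ℤ) : ℚ) := by
      intro i
      rw [MvPolynomial.eval_map]
      have := MvPolynomial.eval₂_comp_left (Int.castRingHom ℚ) (RingHom.id ℤ) x (g.coeff i)
      simp only [RingHom.comp_id] at this
      rw [MvPolynomial.eval, MvPolynomial.coe_eval₂Hom]
      simpa [Function.comp_def] using this.symm
    have hev2 : ((MvPolynomial.eval x (g.coeff 3) : ℤ) : ℚ) * t ^ 3 +
        ((MvPolynomial.eval x (g.coeff 2) : ℤ) : ℚ) * t ^ 2 +
        ((MvPolynomial.eval x (g.coeff 1) : ℤ) : ℚ) * t +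
        ((MvPolynomial.eval x (g.coeff 0) : ℤ) : ℚ) = 0 := by
      have h1 := MvPolynomial.optionEquivLeft_elim_eval ℚ (Fin 3)
        (fun j => ((x j : ℤ) : ℚ)) t F
      rw [ht, ← hh] at h1
      rw [Polynomial.eval_eq_sum_range' (n := 4)
        (lt_of_le_of_lt Polynomial.natDegree_map_le (by omega))] at h1
      simp only [Finset.sum_range_succ, Finset.sum_range_zero, Polynomial.coeff_map] at h1
      rw [← hz, ← hz, ← hz, ← hz, hgh, hgh, hgh, hgh]
      simp only [map_mul, MvPolynomial.eval_C]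
      linear_combination -(N : ℚ) * h1
    have hmono : (sp f x).Monic := hmon.map _
    have hroot : aeval (((MvPolynomial.eval x (g.coeff 3) : ℤ) : ℚ) * t) (sp f x) = 0 := by
      rw [hsp]
      have he : ∀ i, MvPolynomial.eval₂Hom (Int.castRingHom ℤ) x (g.coeff i) =
          MvPolynomial.eval x (g.coeff i) := by
        intro i; rfl
      simp only [he, map_add, map_mul, map_pow, Polynomial.aeval_X, Polynomial.aeval_C]
      simp only [algebraMap_int_eq, eq_intCast]
      linear_combination ((MvPolynomial.eval x (g.coeff 3) : ℤ) : ℚ) ^ 2 * hev2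
    obtain ⟨τ, hτ⟩ := exists_integer_of_is_root_of_monic hmono hroot
    refine ⟨τ, ?_⟩
    have h2 := hroot
    rw [hτ.1, Polynomial.aeval_algebraMap_apply] at h2
    have : (((sp f x).eval τ : ℤ) : ℚ) = 0 := by
      simpa [Polynomial.aeval_def, Polynomial.eval₂_id] using h2
    exact_mod_cast this

end Pool.MP_aab329_nt.SerreP
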