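import Pool.Agent.Lib.MP_aab329_nt.Defs

set_option autoImplicit false

namespace Pool.MP_aab329_nt.SerreP

open Real

/-- Integral vectors of height between `1` and `Y`. -/
noncomputable def box (Y : ℕ) : Finset (Fin 3 → ℤ) :=
  (Fintype.piFinset fun _ : Fin 3 => Finset.Icc (-(Y : ℤ)) Y).filter (fun y => 1 ≤ mx y)

private theorem mx_le_iff (y : Fin 3 → ℤ) (j : ℕ) : mx y ≤ j ↔ ∀ i, (y i).natAbs ≤ j := by
  unfold mx
  rw [Finset.sup_le_iff]
  simp

theorem mem_box (Y : ℕ) (y : Fin 3 → ℤ) : y ∈ box Y ↔ 1 ≤ mx y ∧ mx y ≤ Y := by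
  unfold box
  rw [Finset.mem_filter, Fintype.mem_piFinset, mx_le_iff y Y]
  constructor
  · rintro ⟨h, h1⟩
    refine ⟨h1, fun i => ?_⟩
    have := h i
    rw [Finset.mem_Icc] at this
    omega
  · rintro ⟨h1, h⟩
    refine ⟨fun i => ?_, h1⟩
    have := h i
    rw [Finset.mem_Icc]
    omega

private noncomputable def cube (j : ℕ) : Finset (Fin 3 → ℤ) :=
  Fintype.piFinset fun _ : Fin 3 => Finset.Icc (-(j : ℤ)) j

private theorem mem_cube (j : ℕ) (y : Fin 3 → ℤ) : y ∈ cube j ↔ mx y ≤ j := by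
  unfold cube
  rw [Fintype.mem_piFinset, mx_le_iff y j]
  constructor
  · intro h i
    have := h i
    rw [Finset.mem_Icc] at this
    omega
  · intro h i
    have := h i
    rw [Finset.mem_Icc]
    omega

private theorem card_cube (j : ℕ) : (cube j).card = (2 * j + 1) ^ 3 := by
  unfold cube
  rw [Fintype.card_piFinset]
  simp only [Int.card_Icc, Finset.prod_const, Finset.card_univ, Fintype.card_fin]
  congr 1
  omega

/-- There are at most `26 j^2` vectors with `mx y = j ≥ 1`. -/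
theorem card_shell (Y j : ℕ) (hj : 1 ≤ j) :
    ((box Y).filter (fun y => mx y = j)).card ≤ 26 * j ^ 2 := by
  have hsub : (box Y).filter (fun y => mx y = j) ⊆ cube j \ cube (j - 1) := by
    intro y hy
    rw [Finset.mem_filter] at hy
    rw [Finset.mem_sdiff, mem_cube, mem_cube]
    omega
  have h1 := Finset.card_le_card hsub
  have hs : cube (j - 1) ⊆ cube j := by
    intro y hy
    rw [mem_cube] at hy ⊢
    omega
  rw [Finset.card_sdiff_of_subset hs, card_cube, card_cube] at h1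
  refine h1.trans ?_
  obtain ⟨k, rfl⟩ : ∃ k, j = k + 1 := ⟨j - 1, by omega⟩
  simp only [Nat.add_sub_cancel]
  have : (2 * (k + 1) + 1) ^ 3 = (2 * k + 1) ^ 3 + (24 * k ^ 2 + 48 * k + 26) := by ring
  rw [this, Nat.add_sub_cancel_left]
  nlinarith [sq_nonneg k]

theorem sum_third (Y : ℕ) :
    ∑ y ∈ box Y, (1 / (mx y : ℝ)) ^ (1 / 3 : ℝ) ≤ 26 * (Y : ℝ) ^ (8 / 3 : ℝ) := by
  have hmaps : ∀ y ∈ box Y, mx y ∈ Finset.Icc 1 Y := by
    intro y hy
    rw [Finset.mem_Icc]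
    exact (mem_box Y y).1 hy
  rw [← Finset.sum_fiberwise_of_maps_to hmaps]
  have hj : ∀ j ∈ Finset.Icc 1 Y,
      ∑ y ∈ (box Y).filter (fun y => mx y = j), (1 / (mx y : ℝ)) ^ (1 / 3 : ℝ) ≤
        26 * (Y : ℝ) ^ (5 / 3 : ℝ) := by
    intro j hj
    rw [Finset.mem_Icc] at hj
    have h0 : (0 : ℝ) < j := by exact_mod_cast hj.1
    have h1 : ∀ y ∈ (box Y).filter (fun y => mx y = j),
        (1 / (mx y : ℝ)) ^ (1 / 3 : ℝ) = (1 / (j : ℝ)) ^ (1 / 3 : ℝ) := by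
      intro y hy
      rw [(Finset.mem_filter.1 hy).2]
    rw [Finset.sum_congr rfl h1, Finset.sum_const, nsmul_eq_mul]
    have h2 : (((box Y).filter (fun y => mx y = j)).card : ℝ) ≤ 26 * (j : ℝ) ^ 2 := by
      exact_mod_cast card_shell Y j hj.1
    have h3 : (0 : ℝ) ≤ (1 / (j : ℝ)) ^ (1 / 3 : ℝ) := by positivity
    refine (mul_le_mul_of_nonneg_right h2 h3).trans ?_
    have h4 : (j : ℝ) ^ 2 * (1 / (j : ℝ)) ^ (1 / 3 : ℝ) = (j : ℝ) ^ (5 / 3 : ℝ) := by
      rw [one_div, Real.inv_rpow h0.le, ← Real.rpow_natCast, ← Real.rpow_neg h0.le,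
        ← Real.rpow_add h0]
      norm_num
    rw [mul_assoc, h4]
    have h5 : (j : ℝ) ^ (5 / 3 : ℝ) ≤ (Y : ℝ) ^ (5 / 3 : ℝ) := by
      apply Real.rpow_le_rpow h0.le _ (by norm_num)
      exact_mod_cast hj.2
    linarith
  refine (Finset.sum_le_sum hj).trans ?_
  rw [Finset.sum_const, Nat.card_Icc, nsmul_eq_mul, Nat.add_sub_cancel]
  rcases Nat.eq_zero_or_pos Y with h | h
  · subst h
    simp
  · have h0 : (0 : ℝ) < Y := by exact_mod_cast h
    have h6 : (Y : ℝ) * (Y : ℝ) ^ (5 / 3 : ℝ) = (Y : ℝ) ^ (8 / 3 : ℝ) := by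
      nth_rewrite 1 [← Real.rpow_one (Y : ℝ)]
      rw [← Real.rpow_add h0]
      norm_num
    rw [← h6]
    linarith

/-- Abel summation over a sparse set. -/
theorem sum_sparse (S : Set (Fin 3 → ℤ)) (c : ℕ) (C : ℝ) (hC : 0 < C)
    (h : ∀ H : ℕ, 1 ≤ H → ({y : Fin 3 → ℤ | mx y ≤ H ∧ y ∈ S}.ncard : ℝ) ≤
      C * H * (log (H + 2)) ^ c) :
    ∃ C' : ℝ, 0 < C' ∧ ∀ Y : ℕ, 1 ≤ Y → ∀ A : Finset (Fin 3 → ℤ), A ⊆ box Y →
      (∀ y ∈ A, y ∈ S) → ∑ y ∈ A, 1 / (mx y : ℝ) ≤ C' * (log (Y + 2)) ^ (c + 1) := by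
  -- dyadic decomposition: `mx y ∈ [2^k, 2^(k+1))`, k ≤ log2 Y
  refine ⟨8 * C * (2 : ℝ) ^ c, by positivity, ?_⟩
  intro Y hY A hA hAS
  have hmaps : ∀ y ∈ A, Nat.log 2 (mx y) ∈ Finset.range (Nat.log 2 Y + 1) := by
    intro y hy
    rw [Finset.mem_range, Nat.lt_succ_iff]
    exact Nat.log_mono_right ((mem_box Y y).1 (hA hy)).2
  rw [← Finset.sum_fiberwise_of_maps_to hmaps]
  have hL : (1 : ℝ) ≤ (Y : ℝ) := by exact_mod_cast hY
  have hlogY : 0 < log ((Y : ℝ) + 2) := Real.log_pos (by linarith)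
  have hk : ∀ k ∈ Finset.range (Nat.log 2 Y + 1),
      ∑ y ∈ A.filter (fun y => Nat.log 2 (mx y) = k), 1 / (mx y : ℝ) ≤
        2 * C * (2 : ℝ) ^ c * (log ((Y : ℝ) + 2)) ^ c := by
    intro k hk
    rw [Finset.mem_range, Nat.lt_succ_iff] at hk
    have hkY : 2 ^ k ≤ Y := (Nat.pow_le_pow_right (by norm_num) hk).trans
      (Nat.pow_log_le_self 2 (by omega))
    have h1 : ∀ y ∈ A.filter (fun y => Nat.log 2 (mx y) = k),
        1 / (mx y : ℝ) ≤ 1 / (2 : ℝ) ^ k := by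
      intro y hy
      rw [Finset.mem_filter] at hy
      have hy1 := ((mem_box Y y).1 (hA hy.1)).1
      have h2 : 2 ^ k ≤ mx y := by
        rw [← hy.2]; exact Nat.pow_log_le_self 2 (by omega)
      apply one_div_le_one_div_of_le (by positivity)
      exact_mod_cast h2
    refine (Finset.sum_le_sum h1).trans ?_
    rw [Finset.sum_const, nsmul_eq_mul]
    have h3 : ((A.filter (fun y => Nat.log 2 (mx y) = k)).card : ℝ) ≤
        ({y : Fin 3 → ℤ | mx y ≤ 2 ^ (k + 1) ∧ y ∈ S}.ncard : ℝ) := by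
      have hfin : {y : Fin 3 → ℤ | mx y ≤ 2 ^ (k + 1) ∧ y ∈ S}.Finite := by
        apply (cube (2 ^ (k + 1))).finite_toSet.subset
        rintro y ⟨hy, -⟩
        rw [Finset.mem_coe, mem_cube]
        exact hy
      have : (↑(A.filter (fun y => Nat.log 2 (mx y) = k)) : Set (Fin 3 → ℤ)) ⊆
          {y : Fin 3 → ℤ | mx y ≤ 2 ^ (k + 1) ∧ y ∈ S} := by
        intro y hy
        rw [Finset.mem_coe, Finset.mem_filter] at hy
        refine ⟨?_, hAS y hy.1⟩
        have := Nat.lt_pow_succ_log_self (b := 2) (by norm_num) (mx y)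
        rw [hy.2] at this
        exact this.le
      have h4 := Set.ncard_le_ncard this hfin
      rw [Set.ncard_coe_finset] at h4
      exact_mod_cast h4
    have h5 := h (2 ^ (k + 1)) Nat.one_le_two_pow
    have h6 : log (((2 ^ (k + 1) : ℕ) : ℝ) + 2) ≤ 2 * log ((Y : ℝ) + 2) := by
      rw [← Real.log_rpow (by linarith)]
      apply Real.log_le_log (by positivity)
      have : ((2 ^ (k + 1) : ℕ) : ℝ) ≤ 2 * Y := by
        have : 2 ^ (k + 1) ≤ 2 * Y := by rw [pow_succ]; omega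
        exact_mod_cast this
      rw [Real.rpow_two]
      nlinarith
    have h7 : 0 ≤ log (((2 ^ (k + 1) : ℕ) : ℝ) + 2) := by
      apply Real.log_nonneg
      have : (0 : ℝ) ≤ ((2 ^ (k + 1) : ℕ) : ℝ) := by positivity
      linarith
    have h8 : (log (((2 ^ (k + 1) : ℕ) : ℝ) + 2)) ^ c ≤ 2 ^ c * (log ((Y : ℝ) + 2)) ^ c := by
      rw [← mul_pow]
      exact pow_le_pow_left₀ h7 h6 c
    have h9 : (0 : ℝ) < 2 ^ k := by positivity
    have h10 : ((A.filter (fun y => Nat.log 2 (mx y) = k)).card : ℝ) ≤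
        C * ((2 ^ (k + 1) : ℕ) : ℝ) * (2 ^ c * (log ((Y : ℝ) + 2)) ^ c) :=
      h3.trans (h5.trans (mul_le_mul_of_nonneg_left h8 (by positivity)))
    calc ((A.filter (fun y => Nat.log 2 (mx y) = k)).card : ℝ) * (1 / (2 : ℝ) ^ k)
        ≤ (C * ((2 ^ (k + 1) : ℕ) : ℝ) * (2 ^ c * (log ((Y : ℝ) + 2)) ^ c)) * (1 / (2 : ℝ) ^ k) :=
          mul_le_mul_of_nonneg_right h10 (by positivity)
      _ = 2 * C * (2 : ℝ) ^ c * (log ((Y : ℝ) + 2)) ^ c := by
          push_cast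
          rw [pow_succ]
          field_simp
  refine (Finset.sum_le_sum hk).trans ?_
  rw [Finset.sum_const, Finset.card_range, nsmul_eq_mul, pow_succ]
  have hnat : ((Nat.log 2 Y + 1 : ℕ) : ℝ) ≤ 4 * log ((Y : ℝ) + 2) := by
    have h1 : ((Nat.log 2 Y : ℕ) : ℝ) * log 2 ≤ log (Y : ℝ) := by
      rw [← Real.log_pow]
      apply Real.log_le_log (by positivity)
      have := Nat.pow_log_le_self 2 (x := Y) (by omega)
      exact_mod_cast this
    have h2 : log (Y : ℝ) ≤ log ((Y : ℝ) + 2) := Real.log_le_log (by linarith) (by linarith)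
    have h3 : (1 : ℝ) / 2 < log 2 := by
      have := Real.log_two_gt_d9
      linarith
    have h4 : 1 ≤ log ((Y : ℝ) + 2) := by
      have : log (3 : ℝ) ≤ log ((Y : ℝ) + 2) := Real.log_le_log (by norm_num) (by linarith)
      have h5 : (1 : ℝ) ≤ log 3 := by
        rw [Real.le_log_iff_exp_le (by norm_num)]
        have := Real.exp_one_lt_d9
        linarith
      linarith
    have h5 : (0 : ℝ) ≤ ((Nat.log 2 Y : ℕ) : ℝ) := by positivity
    push_cast
    nlinarith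
  calc ((Nat.log 2 Y + 1 : ℕ) : ℝ) * (2 * C * (2 : ℝ) ^ c * (log ((Y : ℝ) + 2)) ^ c)
      ≤ (4 * log ((Y : ℝ) + 2)) * (2 * C * (2 : ℝ) ^ c * (log ((Y : ℝ) + 2)) ^ c) :=
        mul_le_mul_of_nonneg_right hnat (by positivity)
    _ = 8 * C * (2 : ℝ) ^ c * ((log ((Y : ℝ) + 2)) ^ c * log ((Y : ℝ) + 2)) := by ring

end Pool.MP_aab329_nt.SerreP
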