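import Pool.Agent.Lib.MP_aab329_nt.Defs

set_option autoImplicit false

namespace Pool.MP_aab329_nt.SerreP

/-- Zeros of a nonzero polynomial in a box (Schwartz-Zippel:
`MvPolynomial.schwartz_zippel_totalDegree`). -/
theorem zeros_box (P : MvPolynomial (Fin 3) ℤ) (hP : P ≠ 0) :
    ∃ C : ℝ, 0 < C ∧ ∀ B : ℕ, 1 ≤ B →
      ({x : Fin 3 → ℤ | mx x ≤ B ∧ MvPolynomial.eval x P = 0}.ncard : ℝ) ≤ C * (B : ℝ) ^ 2 := by
  classical
  refine ⟨9 * P.totalDegree + 1, by positivity, ?_⟩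
  intro B hB
  have hset : {x : Fin 3 → ℤ | mx x ≤ B ∧ MvPolynomial.eval x P = 0} =
      (({x ∈ Fintype.piFinset (fun _ : Fin 3 => Finset.Icc (-(B : ℤ)) B) |
        MvPolynomial.eval x P = 0} : Finset (Fin 3 → ℤ)) : Set (Fin 3 → ℤ)) := by
    ext x
    simp only [Set.mem_ofPred_eq, Finset.coe_filter, Fintype.mem_piFinset, Finset.mem_Icc]
    constructor
    · rintro ⟨h1, h2⟩
      refine ⟨?_, h2⟩
      intro i
      have : (x i).natAbs ≤ B :=
        (Finset.le_sup (f := fun i => (x i).natAbs) (Finset.mem_univ i)).trans h1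
      omega
    · rintro ⟨h1, h2⟩
      refine ⟨?_, h2⟩
      unfold mx
      apply Finset.sup_le
      intro i _
      have := h1 i
      show (x i).natAbs ≤ B
      omega
  rw [hset, Set.ncard_coe_finset]
  have h := MvPolynomial.schwartz_zippel_totalDegree hP (Finset.Icc (-(B : ℤ)) B)
  have hcard : (Finset.Icc (-(B : ℤ)) B).card = 2 * B + 1 := by
    rw [Int.card_Icc]; omega
  rw [hcard] at h
  set N := ({x ∈ Fintype.piFinset (fun _ : Fin 3 => Finset.Icc (-(B : ℤ)) B) |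
        MvPolynomial.eval x P = 0} : Finset (Fin 3 → ℤ)).card with hN
  have hpos0 : (0 : ℚ≥0) < ((2 * B + 1 : ℕ) : ℚ≥0) := by
    exact_mod_cast Nat.succ_pos (2 * B)
  rw [div_le_div_iff₀ (by positivity) hpos0] at h
  have h' : (N : ℝ) * ((2 * B + 1 : ℕ) : ℝ) ≤
      P.totalDegree * ((2 * B + 1 : ℕ) : ℝ) ^ 3 := by
    exact_mod_cast h
  have hpos : (0 : ℝ) < ((2 * B + 1 : ℕ) : ℝ) := by positivity
  have h2 : (N : ℝ) ≤ P.totalDegree * ((2 * B + 1 : ℕ) : ℝ) ^ 2 := by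
    have h3 : (N : ℝ) * ((2 * B + 1 : ℕ) : ℝ) ≤
        (P.totalDegree * ((2 * B + 1 : ℕ) : ℝ) ^ 2) * ((2 * B + 1 : ℕ) : ℝ) := by
      calc (N : ℝ) * ((2 * B + 1 : ℕ) : ℝ) ≤ P.totalDegree * ((2 * B + 1 : ℕ) : ℝ) ^ 3 := h'
        _ = _ := by ring
    exact le_of_mul_le_mul_right h3 hpos
  have hB' : (1 : ℝ) ≤ B := by exact_mod_cast hB
  have h4 : ((2 * B + 1 : ℕ) : ℝ) ^ 2 ≤ 9 * (B : ℝ) ^ 2 := by
    push_cast
    nlinarith
  have h5 : (0 : ℝ) ≤ P.totalDegree := by positivity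
  nlinarith [mul_le_mul_of_nonneg_left h4 h5, sq_nonneg (B : ℝ)]

end Pool.MP_aab329_nt.SerreP
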