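import Pool.Agent.Lib.MP_aab329_nt.BadCount
import Pool.Agent.Lib.MP_aab329_nt.Cover
import Pool.Agent.Lib.MP_aab329_nt.AnyLine
import Pool.Agent.Lib.MP_aab329_nt.ZerosBox
import Pool.Agent.Lib.MP_aab329_nt.Disc
import Pool.Agent.Lib.MP_aab329_nt.Reduce
import Pool.Agent.Lib.MP_aab329_nt.Sums

set_option autoImplicit false

namespace Pool.MP_aab329_nt.SerreP

open Polynomial Real

private noncomputable def allBox (B : ℕ) : Finset (Fin 3 → ℤ) :=
  Fintype.piFinset fun _ : Fin 3 => Finset.Icc (-(B : ℤ)) B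

private theorem mem_allBox (B : ℕ) (x : Fin 3 → ℤ) : x ∈ allBox B ↔ ∀ i, |x i| ≤ (B : ℤ) := by
  simp [allBox, abs_le]

private theorem mx_le_iff (B : ℕ) (x : Fin 3 → ℤ) : mx x ≤ B ↔ ∀ i, |x i| ≤ (B : ℤ) := by
  unfold mx
  rw [Finset.sup_le_iff]
  constructor
  · intro h i
    have := h i (Finset.mem_univ i)
    rw [Int.abs_eq_natAbs]; exact_mod_cast this
  · intro h i _
    have := h i
    rw [Int.abs_eq_natAbs] at this; exact_mod_cast this

private theorem allBox_card_two : (allBox 2).card = 125 := by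
  simp [allBox, Fintype.card_piFinset]

private theorem ncard_eq (B : ℕ) (P : (Fin 3 → ℤ) → Prop) [DecidablePred P]
    (h : ∀ x, P x → mx x ≤ B) :
    {x | P x}.ncard = ((allBox B).filter P).card := by
  rw [← Set.ncard_coe_finset]
  congr 1
  ext x
  simp only [Finset.coe_filter, Set.mem_ofPred_eq]
  constructor
  · intro hx
    exact ⟨(mem_allBox B x).2 ((mx_le_iff B x).1 (h x hx)), hx⟩
  · exact fun hx => hx.2

private theorem one_le_mx {y : Fin 3 → ℤ} (hy : prim y) : 1 ≤ mx y := by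
  by_contra hc
  have h0 : mx y = 0 := by omega
  have h1 : ∀ i, |y i| ≤ ((0 : ℕ) : ℤ) := (mx_le_iff 0 y).1 (by omega)
  have h2 : y = 0 := by
    funext i
    have := h1 i
    simpa using this
  subst h2
  unfold prim at hy
  have : Finset.univ.gcd (0 : Fin 3 → ℤ) = 0 := by
    rw [Finset.gcd_eq_zero_iff]; simp
  rw [this] at hy
  exact zero_ne_one hy

private theorem nsq_le {y : Fin 3 → ℤ} {B : ℕ} (h : mx y ^ 2 ≤ 3 * B) : nsq y ≤ 9 * B := by
  have h1 : ∀ i, |y i| ≤ ((mx y : ℕ) : ℤ) := (mx_le_iff (mx y) y).1 le_rfl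
  have h2 : ∀ i, y i * y i ≤ ((mx y : ℕ) : ℤ) ^ 2 := by
    intro i
    have := abs_le.1 (h1 i)
    nlinarith [this.1, this.2]
  have h3 : (((mx y : ℕ) : ℤ)) ^ 2 ≤ 3 * B := by exact_mod_cast h
  unfold nsq dot
  linarith [h2 0, h2 1, h2 2]

/-- Serre's bound for triple covers of the plane.
Proof. With `m, f, a0` from `reduce` and `Δ, N` from `exists_disc`: the points with `a0(x) = 0` or
`Δ(x) = 0` are `≤ C B^2` (`zeros_box`). Every other point `x` of the set has an integral simple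
root and lies on a line `y x = 0` with `y` primitive and `mx y ≤ Y := Nat.sqrt (3 B)`, so
`nsq y ≤ 3 (mx y)^2 ≤ 9 B` (`cover`). Good `y`: `good_line` and `sum_third`:
`C B^(2/3) (log B)^c * 26 Y^(8/3) ≤ C' B^2 (log B)^c`. Bad `y`: `any_line`, `bad_count`,
`sum_sparse`: `C B^2 (log (Y + 2))^(c+1)`. For `B = 2` the bound is trivial. -/
theorem serre_cubic (F : MvPolynomial (Option (Fin 3)) ℚ) (d : ℕ) (hF : F.IsHomogeneous d)
    (hirr : Irreducible F) (hdeg : F.degreeOf none = 3) :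
    ∃ (c : ℕ) (C : ℝ), ∀ B : ℕ, 2 ≤ B →
      (({x : Fin 3 → ℤ | (∀ i, |x i| ≤ (B : ℤ)) ∧ Finset.univ.gcd x = 1 ∧
          ∃ t : ℚ, MvPolynomial.eval
            (fun i : Option (Fin 3) => Option.elim i t (fun j => ((x j : ℤ) : ℚ))) F = 0}.ncard :
              ℕ) : ℝ)
        ≤ C * (B : ℝ) ^ 2 * (log (B : ℝ)) ^ c := by
  classical
  obtain ⟨m, f, a0, hm, hf, hnr, ha0, hF'⟩ := reduce F d hF hirr hdeg
  obtain ⟨Δ, N, hΔ, hΔh, hs⟩ := exists_disc hf hnr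
  obtain ⟨C1, hC1, h1⟩ := zeros_box a0 ha0
  obtain ⟨C2, hC2, h2⟩ := zeros_box Δ hΔ
  obtain ⟨cg, Cg, hCg, hg⟩ := good_line hm hf
  obtain ⟨Ca, hCa, ha⟩ := any_line
  obtain ⟨cb, Cb, hCb, hb⟩ := bad_count hm hf hnr Δ N hΔ hΔh hs
  obtain ⟨Cs, hCs, hsum⟩ := sum_sparse {y | prim y ∧ BadLine f y} cb Cb hCb (by
    intro H hH
    refine le_trans (le_of_eq ?_) (hb H hH)
    congr 2
    ext y
    simp only [Set.mem_ofPred_eq]
    tauto)
  set c : ℕ := cg + cb + 1 with hc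
  set C0 : ℝ := C1 + C2 + 234 * Cg + Ca * Cs * 2 ^ (cb + 1) with hC0
  have hC0pos : 0 < C0 := by positivity
  refine ⟨c, C0 + 125 / (log 2) ^ c, ?_⟩
  intro B hB
  have hlog2 : 0 < log 2 := Real.log_pos (by norm_num)
  rcases Nat.lt_or_ge B 3 with hB3 | hB3
  · -- B = 2
    have hB2 : B = 2 := by omega
    subst hB2
    have hle : ({x : Fin 3 → ℤ | (∀ i, |x i| ≤ ((2 : ℕ) : ℤ)) ∧ Finset.univ.gcd x = 1 ∧
          ∃ t : ℚ, MvPolynomial.eval
            (fun i : Option (Fin 3) => Option.elim i t (fun j => ((x j : ℤ) : ℚ))) F = 0}.ncard)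
            ≤ 125 := by
      rw [ncard_eq 2 _ (fun x hx => (mx_le_iff 2 x).2 hx.1)]
      exact (Finset.card_filter_le _ _).trans allBox_card_two.le
    have hle' : (({x : Fin 3 → ℤ | (∀ i, |x i| ≤ ((2 : ℕ) : ℤ)) ∧ Finset.univ.gcd x = 1 ∧
          ∃ t : ℚ, MvPolynomial.eval
            (fun i : Option (Fin 3) => Option.elim i t (fun j => ((x j : ℤ) : ℚ))) F =
              0}.ncard : ℕ) : ℝ) ≤ 125 := by exact_mod_cast hle
    refine hle'.trans ?_
    have h3 : (125 : ℝ) / (log 2) ^ c * ((2 : ℕ) : ℝ) ^ 2 * (log ((2 : ℕ) : ℝ)) ^ c = 500 := by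
      push_cast
      field_simp
      norm_num
    have h4 : 0 ≤ C0 * ((2 : ℕ) : ℝ) ^ 2 * (log ((2 : ℕ) : ℝ)) ^ c := by
      push_cast; positivity
    have h5 : (C0 + 125 / (log 2) ^ c) * ((2 : ℕ) : ℝ) ^ 2 * (log ((2 : ℕ) : ℝ)) ^ c =
        C0 * ((2 : ℕ) : ℝ) ^ 2 * (log ((2 : ℕ) : ℝ)) ^ c +
          (125 : ℝ) / (log 2) ^ c * ((2 : ℕ) : ℝ) ^ 2 * (log ((2 : ℕ) : ℝ)) ^ c := by ring
    rw [h5, h3]; linarith
  · -- B ≥ 3
    have hBR : (3 : ℝ) ≤ B := by exact_mod_cast hB3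
    have hBpos : (0 : ℝ) < B := by linarith
    have hlog1 : 1 ≤ log (B : ℝ) := by
      rw [Real.le_log_iff_exp_le hBpos]
      have := Real.exp_one_lt_d9
      linarith
    set L := log (B : ℝ) with hL
    set Y := Nat.sqrt (3 * B) with hY
    have hY2 : Y ^ 2 ≤ 3 * B := by rw [hY, sq]; exact Nat.sqrt_le _
    have hY1 : 1 ≤ Y := by
      rw [hY]; apply Nat.le_sqrt.2; omega
    -- the two kinds of line sets
    set T : (Fin 3 → ℤ) → Finset (Fin 3 → ℤ) := fun y =>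
      if BadLine f y then (allBox B).filter (fun x => mx x ≤ B ∧ dot y x = 0)
      else (allBox B).filter (fun x => prim x ∧ mx x ≤ B ∧ dot y x = 0 ∧
        ∃ τ : ℤ, (sp f x).eval τ = 0 ∧ (derivative (sp f x)).eval τ ≠ 0) with hT
    set Yb : Finset (Fin 3 → ℤ) := (box Y).filter (fun y => prim y) with hYb
    rw [ncard_eq B _ (fun x hx => (mx_le_iff B x).2 hx.1)]
    have hsub : ((allBox B).filter (fun x => (∀ i, |x i| ≤ (B : ℤ)) ∧ Finset.univ.gcd x = 1 ∧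
          ∃ t : ℚ, MvPolynomial.eval
            (fun i : Option (Fin 3) => Option.elim i t (fun j => ((x j : ℤ) : ℚ))) F = 0)) ⊆
        ((allBox B).filter (fun x => mx x ≤ B ∧ MvPolynomial.eval x a0 = 0) ∪
         (allBox B).filter (fun x => mx x ≤ B ∧ MvPolynomial.eval x Δ = 0)) ∪ Yb.biUnion T := by
      intro x hx
      rw [Finset.mem_filter] at hx
      obtain ⟨hxB, hx1, hx2, t, ht⟩ := hx
      have hmx : mx x ≤ B := (mx_le_iff B x).2 hx1
      by_cases hxa : MvPolynomial.eval x a0 = 0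
      · apply Finset.mem_union_left; apply Finset.mem_union_left
        rw [Finset.mem_filter]; exact ⟨hxB, hmx, hxa⟩
      by_cases hxd : MvPolynomial.eval x Δ = 0
      · apply Finset.mem_union_left; apply Finset.mem_union_right
        rw [Finset.mem_filter]; exact ⟨hxB, hmx, hxd⟩
      apply Finset.mem_union_right
      obtain ⟨τ, hτ⟩ := hF' x t ht hxa
      obtain ⟨y, hy1, hy2, hy3⟩ := cover x B (by omega) hmx
      rw [Finset.mem_biUnion]
      refine ⟨y, ?_, ?_⟩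
      · rw [hYb, Finset.mem_filter, mem_box]
        refine ⟨⟨one_le_mx hy1, ?_⟩, hy1⟩
        rw [hY, Nat.le_sqrt, ← sq]; exact hy3
      · simp only [hT]
        split_ifs with hbad
        · rw [Finset.mem_filter]; exact ⟨hxB, hmx, hy2⟩
        · rw [Finset.mem_filter]
          refine ⟨hxB, hx2, hmx, hy2, τ, hτ, ?_⟩
          have hmap : sp f (rat x) = (sp f x).map (Int.castRingHom ℚ) := by
            rw [sp_map]; rfl
          have h5 : (sp f (rat x)).eval (τ : ℚ) = 0 := by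
            rw [hmap]
            have := Polynomial.eval_intCast_map (Int.castRingHom ℚ) (sp f x) τ
            rw [this, Int.cast_id, hτ]; simp
          have h6 := hs x hxd (τ : ℚ) h5
          intro h7
          apply h6
          rw [hmap, Polynomial.derivative_map]
          have := Polynomial.eval_intCast_map (Int.castRingHom ℚ) (derivative (sp f x)) τ
          rw [this, Int.cast_id, h7]; simp
    have hcard := (Finset.card_le_card hsub).trans ((Finset.card_union_le _ _).trans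
      (add_le_add (Finset.card_union_le _ _) Finset.card_biUnion_le))
    have hcardR : ((((allBox B).filter (fun x => (∀ i, |x i| ≤ (B : ℤ)) ∧
          Finset.univ.gcd x = 1 ∧
          ∃ t : ℚ, MvPolynomial.eval
            (fun i : Option (Fin 3) => Option.elim i t (fun j => ((x j : ℤ) : ℚ))) F =
              0)).card : ℕ) : ℝ) ≤
        (((allBox B).filter (fun x => mx x ≤ B ∧ MvPolynomial.eval x a0 = 0)).card : ℝ) +
        (((allBox B).filter (fun x => mx x ≤ B ∧ MvPolynomial.eval x Δ = 0)).card : ℝ) +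
        ∑ y ∈ Yb, ((T y).card : ℝ) := by exact_mod_cast hcard
    have e1 : (((allBox B).filter (fun x => mx x ≤ B ∧ MvPolynomial.eval x a0 = 0)).card : ℝ) ≤
        C1 * (B : ℝ) ^ 2 := by
      have := h1 B (by omega)
      rwa [ncard_eq B _ (fun x hx => hx.1)] at this
    have e2 : (((allBox B).filter (fun x => mx x ≤ B ∧ MvPolynomial.eval x Δ = 0)).card : ℝ) ≤
        C2 * (B : ℝ) ^ 2 := by
      have := h2 B (by omega)
      rwa [ncard_eq B _ (fun x hx => hx.1)] at this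
    -- each line
    have hYbmem : ∀ y ∈ Yb, prim y ∧ 1 ≤ mx y ∧ mx y ≤ Y ∧ nsq y ≤ 9 * B := by
      intro y hy
      rw [hYb, Finset.mem_filter, mem_box] at hy
      refine ⟨hy.2, hy.1.1, hy.1.2, nsq_le (le_trans ?_ hY2)⟩
      exact Nat.pow_le_pow_left hy.1.2 2
    have e3 : ∀ y ∈ Yb, ((T y).card : ℝ) ≤
        Cg * ((B : ℝ) ^ 2) ^ (1 / 3 : ℝ) * L ^ cg * (1 / (mx y : ℝ)) ^ (1 / 3 : ℝ) +
          (if BadLine f y then Ca * (B : ℝ) ^ 2 * (1 / (mx y : ℝ)) else 0) := by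
      intro y hy
      obtain ⟨p1, p2, p3, p4⟩ := hYbmem y hy
      have hmy : (0 : ℝ) < mx y := by exact_mod_cast p2
      simp only [hT]
      split_ifs with hbad
      · have := ha B hB3 y p1 p4
        rw [ncard_eq B _ (fun x hx => hx.1)] at this
        have h8 : Ca * ((B : ℝ) ^ 2 / mx y) = Ca * (B : ℝ) ^ 2 * (1 / (mx y : ℝ)) := by ring
        rw [h8] at this
        have h9 : 0 ≤ Cg * ((B : ℝ) ^ 2) ^ (1 / 3 : ℝ) * L ^ cg * (1 / (mx y : ℝ)) ^ (1 / 3 : ℝ) := by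
          have : 0 ≤ L := by linarith
          positivity
        linarith
      · have := hg B hB3 y p1 p4 hbad
        rw [ncard_eq B _ (fun x hx => hx.2.1)] at this
        have h8 : Cg * ((B : ℝ) ^ 2 / mx y) ^ (1 / 3 : ℝ) * (log B) ^ cg =
            Cg * ((B : ℝ) ^ 2) ^ (1 / 3 : ℝ) * L ^ cg * (1 / (mx y : ℝ)) ^ (1 / 3 : ℝ) := by
          rw [div_eq_mul_one_div, Real.mul_rpow (by positivity) (by positivity)]
          ring
        rw [h8] at this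
        linarith
    have e4 := Finset.sum_le_sum e3
    rw [Finset.sum_add_distrib, ← Finset.mul_sum] at e4
    have e5 : ∑ y ∈ Yb, (1 / (mx y : ℝ)) ^ (1 / 3 : ℝ) ≤ 26 * (Y : ℝ) ^ (8 / 3 : ℝ) := by
      refine le_trans (Finset.sum_le_sum_of_subset_of_nonneg (Finset.filter_subset _ _) ?_)
        (sum_third Y)
      intro y _ _; positivity
    have e6 : ∑ y ∈ Yb, (if BadLine f y then Ca * (B : ℝ) ^ 2 * (1 / (mx y : ℝ)) else 0) ≤
        Ca * (B : ℝ) ^ 2 * (Cs * (log (Y + 2)) ^ (cb + 1)) := by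
      rw [← Finset.sum_filter, ← Finset.mul_sum]
      apply mul_le_mul_of_nonneg_left _ (by positivity)
      apply hsum Y hY1
      · exact (Finset.filter_subset _ _).trans (Finset.filter_subset _ _)
      · intro y hy
        rw [Finset.mem_filter, hYb, Finset.mem_filter] at hy
        exact ⟨hy.1.2, hy.2⟩
    -- numerics
    have hYR : (Y : ℝ) ^ 2 ≤ 3 * B := by exact_mod_cast hY2
    have hY0 : (0 : ℝ) ≤ Y := Nat.cast_nonneg _
    have e7 : ((B : ℝ) ^ 2) ^ (1 / 3 : ℝ) * (Y : ℝ) ^ (8 / 3 : ℝ) ≤ 9 * (B : ℝ) ^ 2 := by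
      have g1 : (Y : ℝ) ^ (8 / 3 : ℝ) = ((Y : ℝ) ^ 2) ^ (4 / 3 : ℝ) := by
        rw [← Real.rpow_natCast, ← Real.rpow_mul hY0]; norm_num
      have g2 : ((Y : ℝ) ^ 2) ^ (4 / 3 : ℝ) ≤ (3 * (B : ℝ)) ^ (4 / 3 : ℝ) :=
        Real.rpow_le_rpow (by positivity) hYR (by norm_num)
      have g3 : (3 * (B : ℝ)) ^ (4 / 3 : ℝ) = 3 ^ (4 / 3 : ℝ) * (B : ℝ) ^ (4 / 3 : ℝ) :=
        Real.mul_rpow (by norm_num) hBpos.le
      have g4 : ((B : ℝ) ^ 2) ^ (1 / 3 : ℝ) = (B : ℝ) ^ (2 / 3 : ℝ) := by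
        rw [← Real.rpow_natCast, ← Real.rpow_mul hBpos.le]; norm_num
      have g5 : (B : ℝ) ^ (2 / 3 : ℝ) * (B : ℝ) ^ (4 / 3 : ℝ) = (B : ℝ) ^ 2 := by
        rw [← Real.rpow_add hBpos, ← Real.rpow_natCast]; norm_num
      have g6 : (3 : ℝ) ^ (4 / 3 : ℝ) ≤ 9 := by
        have : (3 : ℝ) ^ (4 / 3 : ℝ) ≤ (3 : ℝ) ^ (2 : ℝ) :=
          Real.rpow_le_rpow_of_exponent_le (by norm_num) (by norm_num)
        calc (3 : ℝ) ^ (4 / 3 : ℝ) ≤ (3 : ℝ) ^ (2 : ℝ) := this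
          _ = 9 := by norm_num
      rw [g1]
      calc ((B : ℝ) ^ 2) ^ (1 / 3 : ℝ) * ((Y : ℝ) ^ 2) ^ (4 / 3 : ℝ)
          ≤ (B : ℝ) ^ (2 / 3 : ℝ) * (3 ^ (4 / 3 : ℝ) * (B : ℝ) ^ (4 / 3 : ℝ)) := by
            rw [g4, ← g3]; exact mul_le_mul_of_nonneg_left g2 (by positivity)
        _ = 3 ^ (4 / 3 : ℝ) * (B : ℝ) ^ 2 := by rw [← g5]; ring
        _ ≤ 9 * (B : ℝ) ^ 2 := mul_le_mul_of_nonneg_right g6 (by positivity)
    have e8 : log ((Y : ℝ) + 2) ≤ 2 * L := by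
      have g1 : (Y : ℝ) + 2 ≤ (B : ℝ) ^ 2 := by
        have : (Y : ℝ) ≤ B := by
          nlinarith
        nlinarith
      calc log ((Y : ℝ) + 2) ≤ log ((B : ℝ) ^ 2) := Real.log_le_log (by positivity) g1
        _ = 2 * L := by rw [Real.log_pow]; push_cast; ring
    have hL0 : 0 ≤ L := by linarith
    have e9 : (log ((Y : ℝ) + 2)) ^ (cb + 1) ≤ 2 ^ (cb + 1) * L ^ (cb + 1) := by
      rw [← mul_pow]
      apply pow_le_pow_left₀ _ e8
      apply Real.log_nonneg; linarith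
    have p1 : (1 : ℝ) ≤ L ^ c := one_le_pow₀ hlog1
    have p2 : L ^ cg ≤ L ^ c := pow_le_pow_right₀ hlog1 (by omega)
    have p3 : L ^ (cb + 1) ≤ L ^ c := pow_le_pow_right₀ hlog1 (by omega)
    have hB2 : (0 : ℝ) ≤ (B : ℝ) ^ 2 := by positivity
    have f1 : C1 * (B : ℝ) ^ 2 ≤ C1 * (B : ℝ) ^ 2 * L ^ c := le_mul_of_one_le_right (by positivity) p1
    have f2 : C2 * (B : ℝ) ^ 2 ≤ C2 * (B : ℝ) ^ 2 * L ^ c := le_mul_of_one_le_right (by positivity) p1
    have f3 : Cg * ((B : ℝ) ^ 2) ^ (1 / 3 : ℝ) * L ^ cg *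
        ∑ y ∈ Yb, (1 / (mx y : ℝ)) ^ (1 / 3 : ℝ) ≤ 234 * Cg * (B : ℝ) ^ 2 * L ^ c := by
      calc Cg * ((B : ℝ) ^ 2) ^ (1 / 3 : ℝ) * L ^ cg * ∑ y ∈ Yb, (1 / (mx y : ℝ)) ^ (1 / 3 : ℝ)
          ≤ Cg * ((B : ℝ) ^ 2) ^ (1 / 3 : ℝ) * L ^ cg * (26 * (Y : ℝ) ^ (8 / 3 : ℝ)) :=
            mul_le_mul_of_nonneg_left e5 (by positivity)
        _ = 26 * Cg * L ^ cg * (((B : ℝ) ^ 2) ^ (1 / 3 : ℝ) * (Y : ℝ) ^ (8 / 3 : ℝ)) := by ring
        _ ≤ 26 * Cg * L ^ cg * (9 * (B : ℝ) ^ 2) := mul_le_mul_of_nonneg_left e7 (by positivity)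
        _ = 234 * Cg * (B : ℝ) ^ 2 * L ^ cg := by ring
        _ ≤ 234 * Cg * (B : ℝ) ^ 2 * L ^ c := mul_le_mul_of_nonneg_left p2 (by positivity)
    have f4 : Ca * (B : ℝ) ^ 2 * (Cs * (log (Y + 2)) ^ (cb + 1)) ≤
        Ca * Cs * 2 ^ (cb + 1) * (B : ℝ) ^ 2 * L ^ c := by
      calc Ca * (B : ℝ) ^ 2 * (Cs * (log (Y + 2)) ^ (cb + 1))
          ≤ Ca * (B : ℝ) ^ 2 * (Cs * (2 ^ (cb + 1) * L ^ (cb + 1))) := by
            apply mul_le_mul_of_nonneg_left _ (by positivity)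
            exact mul_le_mul_of_nonneg_left e9 hCs.le
        _ = Ca * Cs * 2 ^ (cb + 1) * (B : ℝ) ^ 2 * L ^ (cb + 1) := by ring
        _ ≤ Ca * Cs * 2 ^ (cb + 1) * (B : ℝ) ^ 2 * L ^ c :=
            mul_le_mul_of_nonneg_left p3 (by positivity)
    have f5 : 0 ≤ 125 / (log 2) ^ c * (B : ℝ) ^ 2 * L ^ c := by positivity
    calc ((((allBox B).filter (fun x => (∀ i, |x i| ≤ (B : ℤ)) ∧
          Finset.univ.gcd x = 1 ∧
          ∃ t : ℚ, MvPolynomial.eval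
            (fun i : Option (Fin 3) => Option.elim i t (fun j => ((x j : ℤ) : ℚ))) F =
              0)).card : ℕ) : ℝ)
        ≤ C1 * (B : ℝ) ^ 2 * L ^ c + C2 * (B : ℝ) ^ 2 * L ^ c +
          (234 * Cg * (B : ℝ) ^ 2 * L ^ c + Ca * Cs * 2 ^ (cb + 1) * (B : ℝ) ^ 2 * L ^ c) := by
          linarith
      _ = C0 * (B : ℝ) ^ 2 * L ^ c := by rw [hC0]; ring
      _ ≤ (C0 + 125 / (log 2) ^ c) * (B : ℝ) ^ 2 * L ^ c := by nlinarith

end Pool.MP_aab329_nt.SerreP
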