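import Pool.Agent.Lib.MP_aab329_nt.Through
import Pool.Agent.Lib.MP_aab329_nt.Lattice

set_option autoImplicit false

namespace Pool.MP_aab329_nt.SerreP

open Polynomial

private theorem gp_prim_of_basis {Q u v : Fin 3 → ℤ} (hu : dot Q u = 0) (hv : dot Q v = 0)
    (hb : ∀ x : Fin 3 → ℤ, dot Q x = 0 → ∃ α β : ℤ, x = fun c => α * u c + β * v c)
    (hli : LinearIndependent ℚ ![rat u, rat v]) (k : ℤ) : prim (fun c => u c + k * v c) := by
  set y : Fin 3 → ℤ := fun c => u c + k * v c with hy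
  set g := Finset.univ.gcd y with hg
  have hdv : ∀ c, ∃ q, y c = g * q := by
    intro c
    exact Finset.gcd_dvd (Finset.mem_univ c)
  choose x hx using hdv
  rw [LinearIndependent.pair_iff] at hli
  have hy0 : g ≠ 0 := by
    intro h0
    have h1 : ∀ c, y c = 0 := by
      intro c
      rw [hx c, h0, zero_mul]
    have := hli 1 (k : ℚ) (by
      funext c
      have := h1 c
      simp only [hy] at this
      simp only [Pi.add_apply, Pi.smul_apply, rat, smul_eq_mul, Pi.zero_apply, one_mul]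
      exact_mod_cast this)
    exact one_ne_zero this.1
  have hQy : dot Q y = 0 := by
    have : dot Q y = dot Q u + k * dot Q v := by
      simp only [dot, hy]
      ring
    rw [this, hu, hv]
    ring
  have hQx : dot Q x = 0 := by
    have : dot Q y = g * dot Q x := by
      simp only [dot]
      rw [hx 0, hx 1, hx 2]
      ring
    rw [hQy] at this
    exact (mul_eq_zero.mp this.symm).resolve_left hy0
  obtain ⟨α, β, hxe⟩ := hb x hQx
  have h2 := hli (1 - g * α : ℚ) (k - g * β : ℚ) (by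
    funext c
    have e1 := hx c
    have e2 := congrFun hxe c
    rw [e2] at e1
    simp only [hy] at e1
    have e3 : (u c : ℚ) + k * v c = g * (α * u c + β * v c) := by exact_mod_cast e1
    simp only [Pi.add_apply, Pi.smul_apply, rat, smul_eq_mul, Pi.zero_apply]
    linarith)
  have h3 : g * α = 1 := by
    have : (g : ℚ) * α = 1 := by linarith [h2.1]
    exact_mod_cast this
  have h4 : g ∣ 1 := ⟨α, h3.symm⟩
  have h5 : normalize g = g := by rw [hg]; exact Finset.normalize_gcd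
  unfold prim
  rw [← hg, ← h5]
  exact normalize_eq_one.mpr (isUnit_of_dvd_one h4)

private theorem gp_infinite {Q : Fin 3 → ℤ} (hQ : prim Q) :
    {y : Fin 3 → ℤ | prim y ∧ dot y Q = 0}.Infinite := by
  obtain ⟨u, v, hu, hv, hb, -, -, -, -, -, hli⟩ := reduced_basis Q hQ
  have hinj : Function.Injective (fun (k : ℤ) (c : Fin 3) => u c + k * v c) := by
    intro k l hkl
    have hli' := hli
    rw [LinearIndependent.pair_iff] at hli'
    have h := hli' 0 (k - l : ℚ) (by
      funext c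
      have := congrFun hkl c
      have e : (u c : ℚ) + k * v c = u c + l * v c := by exact_mod_cast this
      simp only [Pi.add_apply, Pi.smul_apply, rat, smul_eq_mul, Pi.zero_apply, zero_mul, zero_add]
      linarith)
    have : (k : ℚ) = l := by linarith [h.2]
    exact_mod_cast this
  apply Set.Infinite.mono _ (Set.infinite_range_of_injective hinj)
  rintro _ ⟨k, rfl⟩
  refine ⟨gp_prim_of_basis hu hv hb hli k, ?_⟩
  have : dot (fun c => u c + k * v c) Q = dot Q u + k * dot Q v := by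
    simp only [dot]
    ring
  change dot (fun c => u c + k * v c) Q = 0
  rw [this, hu, hv]
  ring

private theorem gp_point (Δ : MvPolynomial (Fin 3) ℤ) (N : ℕ) (hΔ : Δ ≠ 0)
    (hΔh : Δ.IsHomogeneous N) : ∃ Q : Fin 3 → ℤ, MvPolynomial.eval Q Δ ≠ 0 ∧ prim Q := by
  have hne : Δ * MvPolynomial.X 0 ≠ 0 := mul_ne_zero hΔ (MvPolynomial.X_ne_zero 0)
  obtain ⟨Q, hQ⟩ : ∃ Q : Fin 3 → ℤ, MvPolynomial.eval Q (Δ * MvPolynomial.X 0) ≠ 0 := by
    by_contra h
    push Not at h
    exact hne (MvPolynomial.funext fun x => by rw [h x, map_zero])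
  rw [map_mul, MvPolynomial.eval_X] at hQ
  have hQΔ := left_ne_zero_of_mul hQ
  have hQ0 := right_ne_zero_of_mul hQ
  obtain ⟨x, hx, hxg⟩ := Finset.extract_gcd Q (s := (Finset.univ : Finset (Fin 3)))
    Finset.univ_nonempty
  refine ⟨x, ?_, hxg⟩
  intro h0
  apply hQΔ
  have h1 := eval₂_smul_hom (R := ℤ) hΔh (Finset.univ.gcd Q) x
  have e : (fun i => Finset.univ.gcd Q * x i) = Q := by
    funext i
    exact (hx i (Finset.mem_univ i)).symm
  rw [e] at h1
  have e1 : Int.castRingHom ℤ = RingHom.id ℤ := RingHom.ext_int _ _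
  rw [e1] at h1
  change MvPolynomial.eval₂ (RingHom.id ℤ) Q Δ = 0
  change MvPolynomial.eval₂ (RingHom.id ℤ) x Δ = 0 at h0
  rw [h1, h0, mul_zero]

/-- Two good lines through one point which is not on `Δ = 0`. Choose `Q ∈ ℤ^3` with
`Δ(Q) * Q 0 ≠ 0` (`MvPolynomial.funext`) and divide by the gcd (`Δ` is homogeneous); there are
infinitely many primitive `y` with `dot y Q = 0`, and only finitely many are bad
(`bad_through`). -/
theorem good_pair {m D : ℕ} (hD : 1 ≤ D) {f : (MvPolynomial (Fin 3) ℤ)[X]} (hf : WMonic m D f)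
    (hnr : NoRoot f) (Δ : MvPolynomial (Fin 3) ℤ) (N : ℕ) (hΔ : Δ ≠ 0)
    (hΔh : Δ.IsHomogeneous N)
    (hs : ∀ (a : Fin 3 → ℤ), MvPolynomial.eval a Δ ≠ 0 → ∀ τ : ℚ,
      (sp f (rat a)).eval τ = 0 → (derivative (sp f (rat a))).eval τ ≠ 0) :
    ∃ Q z z' : Fin 3 → ℤ, MvPolynomial.eval Q Δ ≠ 0 ∧ prim Q ∧ prim z ∧ prim z' ∧
      dot z Q = 0 ∧ dot z' Q = 0 ∧ z ≠ z' ∧ z ≠ -z' ∧ ¬ BadLine f z ∧ ¬ BadLine f z' := by
  obtain ⟨Q, hQΔ, hQ⟩ := gp_point Δ N hΔ hΔh
  have hQ0 : Q ≠ 0 := by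
    rintro rfl
    unfold prim at hQ
    have : Finset.univ.gcd (0 : Fin 3 → ℤ) = 0 := by
      rw [Finset.gcd_eq_zero_iff]
      intro x _
      rfl
    rw [this] at hQ
    exact absurd hQ (by norm_num)
  obtain ⟨hfin, -⟩ := bad_through hD hf hnr Q hQ0 (hs Q hQΔ)
  have hinf := (gp_infinite hQ).sdiff hfin
  obtain ⟨z, ⟨hz1, hz2⟩, hz3⟩ := hinf.nonempty
  have hinf2 := hinf.sdiff (Set.toFinite ({z, -z} : Set (Fin 3 → ℤ)))
  obtain ⟨z', ⟨⟨hz1', hz2'⟩, hz3'⟩, hz4'⟩ := hinf2.nonempty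
  refine ⟨Q, z, z', hQΔ, hQ, hz1, hz1', hz2, hz2', ?_, ?_, ?_, ?_⟩
  · intro h
    exact hz4' (Or.inl h.symm)
  · intro h
    apply hz4'
    right
    change z' = -z
    rw [h, neg_neg]
  · intro h
    exact hz3 ⟨hz1, hz2, h⟩
  · intro h
    exact hz3' ⟨hz1', hz2', h⟩

end Pool.MP_aab329_nt.SerreP
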