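import Pool.Agent.Lib.MP_aab329_nt.Defs

set_option autoImplicit false

namespace Pool.MP_aab329_nt.SerreP

open Polynomial

private theorem hensel_eval {R : Type*} [CommRing R] (g : R[X][X]) (P : R[X]) (x : R) :
    (g.eval P).eval x = (g.map (evalRingHom x)).eval (P.eval x) := by
  rw [eval_map]
  have h := eval₂_at_apply (p := g) (evalRingHom x) P
  rw [coe_evalRingHom] at h
  exact h.symm

private theorem hensel_dvd {R : Type*} [CommRing R] {p : R} (g : R[X][X]) {x0 t0 x t : R}
    (hx : p ∣ x - x0) (ht : p ∣ t - t0) :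
    p ∣ (g.map (evalRingHom x)).eval t - (g.map (evalRingHom x0)).eval t0 := by
  have h1 : p ∣ (g.map (evalRingHom x)).eval t - (g.map (evalRingHom x)).eval t0 :=
    ht.trans (sub_dvd_eval_sub t t0 _)
  have h2 : p ∣ (g.map (evalRingHom x)).eval t0 - (g.map (evalRingHom x0)).eval t0 := by
    have e1 : (g.map (evalRingHom x)).eval t0 = (g.eval (C t0)).eval x := by
      rw [hensel_eval, eval_C]
    have e2 : (g.map (evalRingHom x0)).eval t0 = (g.eval (C t0)).eval x0 := by
      rw [hensel_eval, eval_C]
    rw [e1, e2]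
    exact hx.trans (sub_dvd_eval_sub x x0 _)
  have h3 := dvd_add h1 h2
  rwa [sub_add_sub_cancel] at h3

/-- the Newton iteration -/
private noncomputable def hensel_it {R : Type*} [CommRing R] (g : R[X][X]) (w t0 : R) : ℕ → R[X]
  | 0 => C t0
  | j + 1 => hensel_it g w t0 j - C w * g.eval (hensel_it g w t0 j)

/-- Hensel's lemma in polynomial form over a ring in which `p` is nilpotent.
Proof. Let `w` be the inverse of `g_T(t0; x0)`, `Φ 0 = C t0`,
`Φ (j+1) = Φ j - C w * g.eval (Φ j)`. By induction on `j`, for all `(x, t)` as in the statement,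
`p ^ (j+1) ∣ (Φ j).eval x - t`: with `e = (Φ j).eval x - t` one has
`g(t + e; x) = g(t; x) + e g_T(t; x) + k e ^ 2` (`Polynomial.binomExpansion`), and
`p ∣ g_T(t; x) - g_T(t0; x0)`. Take `j = N`. -/
theorem hensel_poly {R : Type*} [CommRing R] (p : R) (N : ℕ) (hp : p ^ N = 0) (g : R[X][X])
    (x0 t0 : R) (hu : IsUnit ((derivative (g.map (evalRingHom x0))).eval t0)) :
    ∃ Φ : R[X], ∀ x t : R, p ∣ x - x0 → p ∣ t - t0 →
      (g.map (evalRingHom x)).eval t = 0 → Φ.eval x = t := by
  obtain ⟨u, hu'⟩ := hu
  set w : R := ((u⁻¹ : Rˣ) : R) with hw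
  have hw1 : w * (derivative (g.map (evalRingHom x0))).eval t0 = 1 := by
    rw [← hu', hw]
    exact Units.inv_mul u
  have key : ∀ j : ℕ, ∀ x t : R, p ∣ x - x0 → p ∣ t - t0 →
      (g.map (evalRingHom x)).eval t = 0 → p ^ (j + 1) ∣ (hensel_it g w t0 j).eval x - t := by
    intro j
    induction j with
    | zero =>
      intro x t hx ht h0
      rw [zero_add, pow_one]
      have e1 : (hensel_it g w t0 0).eval x = t0 := by
        unfold hensel_it
        exact eval_C
      rw [e1, ← neg_sub, dvd_neg]
      exact ht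
    | succ j ih =>
      intro x t hx ht h0
      have h1 := ih x t hx ht h0
      set e : R := (hensel_it g w t0 j).eval x - t with he
      have e1 : (hensel_it g w t0 (j + 1)).eval x - t =
          e - w * (g.map (evalRingHom x)).eval (t + e) := by
        have e2 : hensel_it g w t0 (j + 1) =
          hensel_it g w t0 j - C w * g.eval (hensel_it g w t0 j) := rfl
        rw [e2, eval_sub, eval_mul, eval_C, hensel_eval, he, add_sub_cancel]
        ring
      obtain ⟨k, hk⟩ := binomExpansion (g.map (evalRingHom x)) t e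
      have h2 : p ∣ (derivative (g.map (evalRingHom x))).eval t -
          (derivative (g.map (evalRingHom x0))).eval t0 := by
        rw [derivative_map, derivative_map]
        exact hensel_dvd _ hx ht
      have h3 : (hensel_it g w t0 (j + 1)).eval x - t =
          -(e * (w * ((derivative (g.map (evalRingHom x))).eval t -
            (derivative (g.map (evalRingHom x0))).eval t0))) - w * k * e ^ 2 := by
        rw [e1, hk, h0]
        linear_combination (-e) * hw1
      rw [h3]
      apply dvd_sub
      · rw [dvd_neg, pow_succ]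
        exact mul_dvd_mul h1 (h2.mul_left w)
      · have h4 : p ^ (j + 1 + 1) ∣ e ^ 2 := by
          have h5 : (p ^ (j + 1)) ^ 2 ∣ e ^ 2 := pow_dvd_pow_of_dvd h1 2
          refine dvd_trans ?_ h5
          rw [← pow_mul]
          exact pow_dvd_pow p (by omega)
        exact h4.mul_left _
  refine ⟨hensel_it g w t0 N, fun x t hx ht h0 => ?_⟩
  have h1 := key N x t hx ht h0
  rw [pow_succ, hp, zero_mul, zero_dvd_iff] at h1
  exact sub_eq_zero.1 h1

end Pool.MP_aab329_nt.SerreP
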