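import Pool.Agent.Lib.MP_aab329_nt.Defs

set_option autoImplicit false

namespace Pool.MP_aab329_nt.SerreP

open Polynomial

/-- `(α, β)` is a coprime pair in the box with `β ≠ 0`, and `τ` is an integral root of
`f(T; α u + β v)` which is simple and such that `(τ / β^m, α / β)` is a zero of `h`. -/
structure IsPt (m : ℕ) (f : (MvPolynomial (Fin 3) ℤ)[X]) (u v : Fin 3 → ℤ) (h : ℚ[X][X])
    (U V W : ℝ) (α β τ : ℤ) : Prop where
  cop : IsCoprime α β
  ne : β ≠ 0
  hα : |(α : ℝ)| ≤ U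
  hβ : |(β : ℝ)| ≤ V
  hτ : |(τ : ℝ)| ≤ W
  root : (sp f (fun c => α * u c + β * v c)).eval τ = 0
  der : (derivative (sp f (fun c => α * u c + β * v c))).eval τ ≠ 0
  derle : |(((derivative (sp f (fun c => α * u c + β * v c))).eval τ : ℤ) : ℝ)| ≤ W
  hh : (h.map (evalRingHom ((α : ℚ) / (β : ℚ)))).eval ((τ : ℚ) / (β : ℚ) ^ m) = 0

end Pool.MP_aab329_nt.SerreP
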