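import Pool.Agent.Lib.MP_aab329_nt.ClassCount

set_option autoImplicit false

namespace Pool.MP_aab329_nt.SerreP

open Polynomial Real

/-- a point of the curve gives a root modulo `p` -/
private theorem prime_root {m D : ℕ} {f : (MvPolynomial (Fin 3) ℤ)[X]} (hf : WMonic m D f)
    (u v : Fin 3 → ℤ) (p : ℕ) [Fact p.Prime] {α β τ : ℤ}
    (h0 : (sp f (fun c => α * u c + β * v c)).eval τ = 0) (hβ : ((β : ℤ) : ZMod p) ≠ 0) :
    (sp f (fun c => ((α : ZMod p) / (β : ZMod p)) * (u c : ZMod p) + (v c : ZMod p))).eval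
      ((τ : ZMod p) / (β : ZMod p) ^ m) = 0 := by
  have h1 := congrArg (Int.castRingHom (ZMod p)) h0
  rw [map_zero, ← eval_map_apply, sp_map] at h1
  have h2 := sp_eval_smul hf (β : ZMod p) ((τ : ZMod p) / (β : ZMod p) ^ m)
    (fun c => ((α : ZMod p) / (β : ZMod p)) * (u c : ZMod p) + (v c : ZMod p))
  have h3 : (β : ZMod p) ^ m * ((τ : ZMod p) / (β : ZMod p) ^ m) = (τ : ZMod p) :=
    mul_div_cancel₀ _ (pow_ne_zero m hβ)
  have h4 : (fun c => (β : ZMod p) * (((α : ZMod p) / (β : ZMod p)) * (u c : ZMod p) +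
      (v c : ZMod p))) = fun c => (Int.castRingHom (ZMod p)) (α * u c + β * v c) := by
    funext c
    rw [map_add, map_mul, map_mul]
    simp only [eq_intCast]
    field_simp
  rw [h3, h4] at h2
  rw [eq_intCast] at h1
  rw [h1] at h2
  rcases mul_eq_zero.1 h2.symm with h5 | h5
  · exact absurd h5 (pow_ne_zero _ hβ)
  · exact h5

/-- All residue classes modulo `p`: `x0 = α / β` takes at most `p` values and `t0 = τ / β^m` is a
root of the monic polynomial `sp f (x0 u + v)` of degree `D` over `ZMod p` (`sp_eval_smul`), so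
there are at most `D * p` classes; each contributes at most `4 e (m e + K + M)` pairs. -/
theorem prime_count (m D e M K : ℕ) (hm : 1 ≤ m) (he : 1 ≤ e)
    (f : (MvPolynomial (Fin 3) ℤ)[X]) (hf : WMonic m D f) (u v : Fin 3 → ℤ)
    (h : ℚ[X][X]) (hmon : h.Monic) (hdeg : h.natDegree = e) (hirr : Irreducible h)
    (hc : ∀ i, (h.coeff i).natDegree ≤ M)
    (U V W : ℝ) (hU : 1 ≤ U) (hV : 1 ≤ V) (hUW : U ≤ W) (hVW : V ≤ W) (hW : 3 ≤ W)
    (hK : ((m * e + 1 : ℕ) : ℝ) * (2 * log W) ≤ K)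
    (p : ℕ) (hp : p.Prime) (hpl : exp 17 * (U * V) ^ (1 / (e : ℝ)) < p) :
    {q : ℤ × ℤ | ∃ τ : ℤ, IsPt m f u v h U V W q.1 q.2 τ ∧ ¬ (p : ℤ) ∣ q.2 ∧
      ¬ (p : ℤ) ∣ (derivative (sp f (fun c => q.1 * u c + q.2 * v c))).eval τ}.ncard ≤
        D * p * (4 * e * (m * e + K + M)) := by
  classical
  haveI : Fact p.Prime := ⟨hp⟩
  set S : Set (ℤ × ℤ) := {q : ℤ × ℤ | ∃ τ : ℤ, IsPt m f u v h U V W q.1 q.2 τ ∧ ¬ (p : ℤ) ∣ q.2 ∧
      ¬ (p : ℤ) ∣ (derivative (sp f (fun c => q.1 * u c + q.2 * v c))).eval τ} with hS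
  by_cases hfin : S.Finite
  swap
  · rw [Set.Infinite.ncard hfin]
    exact Nat.zero_le _
  -- the classes
  set T : ZMod p × ZMod p → Set (ℤ × ℤ) := fun i => {q : ℤ × ℤ | ∃ τ : ℤ,
      IsPt m f u v h U V W q.1 q.2 τ ∧ ¬ (p : ℤ) ∣ q.2 ∧
      ¬ (p : ℤ) ∣ (derivative (sp f (fun c => q.1 * u c + q.2 * v c))).eval τ ∧
      ((q.1 : ℤ) : ZMod p) = i.1 * ((q.2 : ℤ) : ZMod p) ∧
      ((τ : ℤ) : ZMod p) = i.2 * ((q.2 : ℤ) : ZMod p) ^ m} with hT
  have hTS : ∀ i, T i ⊆ S := by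
    rintro i q ⟨τ, h1, h2, h3, -, -⟩
    exact ⟨τ, h1, h2, h3⟩
  have hTc : ∀ i, (T i).ncard ≤ 4 * e * (m * e + K + M) := fun i =>
    class_count m D e M K hm he f hf u v h hmon hdeg hirr hc U V W hU hV hUW hVW hW hK p hp hpl
      i.2 i.1
  set I : Finset (ZMod p × ZMod p) := (Finset.univ : Finset (ZMod p)).biUnion (fun x0 =>
    ((sp f (fun c => x0 * (u c : ZMod p) + (v c : ZMod p))).roots.toFinset).image
      (fun t0 => (x0, t0))) with hI
  have hIc : I.card ≤ p * D := by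
    have h1 : I.card ≤ (Finset.univ : Finset (ZMod p)).card * D := by
      apply Finset.card_biUnion_le_card_mul
      intro x0 _
      refine Finset.card_image_le.trans ?_
      refine (Multiset.toFinset_card_le _).trans ?_
      refine (card_roots' _).trans ?_
      rw [sp_natDegree hf]
    rwa [Finset.card_univ, ZMod.card] at h1
  have hcov : ∀ q ∈ S, ∃ i ∈ I, q ∈ T i := by
    rintro q ⟨τ, h1, h2, h3⟩
    have hβ : ((q.2 : ℤ) : ZMod p) ≠ 0 := by
      intro h4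
      exact h2 ((ZMod.intCast_zmod_eq_zero_iff_dvd _ _).1 h4)
    refine ⟨(((q.1 : ℤ) : ZMod p) / ((q.2 : ℤ) : ZMod p),
      ((τ : ℤ) : ZMod p) / ((q.2 : ℤ) : ZMod p) ^ m), ?_, ?_⟩
    · rw [hI, Finset.mem_biUnion]
      refine ⟨((q.1 : ℤ) : ZMod p) / ((q.2 : ℤ) : ZMod p), Finset.mem_univ _, ?_⟩
      rw [Finset.mem_image]
      refine ⟨((τ : ℤ) : ZMod p) / ((q.2 : ℤ) : ZMod p) ^ m, ?_, rfl⟩
      rw [Multiset.mem_toFinset, mem_roots (sp_monic hf _).ne_zero]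
      exact prime_root hf u v p h1.root hβ
    · refine ⟨τ, h1, h2, h3, ?_, ?_⟩
      · show ((q.1 : ℤ) : ZMod p) = ((q.1 : ℤ) : ZMod p) / ((q.2 : ℤ) : ZMod p) * _
        rw [div_mul_cancel₀ _ hβ]
      · show ((τ : ℤ) : ZMod p) = ((τ : ℤ) : ZMod p) / ((q.2 : ℤ) : ZMod p) ^ m * _
        rw [div_mul_cancel₀ _ (pow_ne_zero m hβ)]
  have hF : hfin.toFinset ⊆ I.biUnion (fun i => hfin.toFinset.filter (fun q => q ∈ T i)) := by
    intro q hq
    obtain ⟨i, hi, hqi⟩ := hcov q (hfin.mem_toFinset.1 hq)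
    rw [Finset.mem_biUnion]
    exact ⟨i, hi, Finset.mem_filter.2 ⟨hq, hqi⟩⟩
  have hFc : ∀ i ∈ I, (hfin.toFinset.filter (fun q => q ∈ T i)).card ≤
      4 * e * (m * e + K + M) := by
    intro i _
    refine le_trans ?_ (hTc i)
    rw [← Set.ncard_coe_finset]
    apply Set.ncard_le_ncard
    · intro q hq
      exact (Finset.mem_filter.1 (Finset.mem_coe.1 hq)).2
    · exact hfin.subset (hTS i)
  rw [Set.ncard_eq_toFinset_card S hfin]
  refine (Finset.card_le_card hF).trans ((Finset.card_biUnion_le_card_mul _ _ _ hFc).trans ?_)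
  refine Nat.mul_le_mul_right _ ?_
  rw [Nat.mul_comm D p]
  exact hIc

end Pool.MP_aab329_nt.SerreP
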