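import Pool.Agent.Lib.MP_aab329_nt.Trunc
import Pool.Agent.Lib.MP_aab329_nt.Mobius

set_option autoImplicit false

namespace Pool.MP_aab329_nt.SerreP

open Polynomial

private def thN (a w : Fin 3 → ℚ) : ℚ :=
  (a 1 * w 2 - a 2 * w 1) ^ 2 + (a 2 * w 0 - a 0 * w 2) ^ 2 + (a 0 * w 1 - a 1 * w 0) ^ 2

private def thCr (a w : Fin 3 → ℚ) : Fin 3 → ℚ :=
  ![a 1 * w 2 - a 2 * w 1, a 2 * w 0 - a 0 * w 2, a 0 * w 1 - a 1 * w 0]

private theorem th_li {a w : Fin 3 → ℚ} (h : 0 < thN a w) : LinearIndependent ℚ ![w, a] := by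
  rw [LinearIndependent.pair_iff]
  intro s t hst
  have h0 := congrFun hst 0
  have h1 := congrFun hst 1
  have h2 := congrFun hst 2
  simp only [Pi.add_apply, Pi.smul_apply, smul_eq_mul, Pi.zero_apply] at h0 h1 h2
  have e1 : s * thN a w = 0 := by
    unfold thN
    linear_combination (a 1 * w 2 - a 2 * w 1) * (a 1 * h2 - a 2 * h1) +
      (a 2 * w 0 - a 0 * w 2) * (a 2 * h0 - a 0 * h2) +
      (a 0 * w 1 - a 1 * w 0) * (a 0 * h1 - a 1 * h0)
  have e2 : t * thN a w = 0 := by
    unfold thN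
    linear_combination (a 1 * w 2 - a 2 * w 1) * (w 2 * h1 - w 1 * h2) +
      (a 2 * w 0 - a 0 * w 2) * (w 0 * h2 - w 2 * h0) +
      (a 0 * w 1 - a 1 * w 0) * (w 1 * h0 - w 0 * h1)
  exact ⟨(mul_eq_zero.1 e1).resolve_right h.ne', (mul_eq_zero.1 e2).resolve_right h.ne'⟩

private theorem th_par {a w z : Fin 3 → ℚ} (ha : dot z a = 0) (hw : dot z w = 0) (i j : Fin 3) :
    z i * thCr a w j = z j * thCr a w i := by
  unfold dot at ha hw
  fin_cases i <;> fin_cases j <;> simp [thCr] <;>
    first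
    | linear_combination 0
    | linear_combination a 0 * hw - w 0 * ha
    | linear_combination a 1 * hw - w 1 * ha
    | linear_combination a 2 * hw - w 2 * ha
    | linear_combination - a 0 * hw + w 0 * ha
    | linear_combination - a 1 * hw + w 1 * ha
    | linear_combination - a 2 * hw + w 2 * ha

private theorem th_prop {a w y z : Fin 3 → ℚ} (h : 0 < thN a w) (hya : dot y a = 0)
    (hyw : dot y w = 0) (hza : dot z a = 0) (hzw : dot z w = 0) (i j : Fin 3) :
    y i * z j = y j * z i := by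
  have hk : ∀ k, (y i * z j - y j * z i) * thCr a w k = 0 := by
    intro k
    linear_combination z j * th_par hya hyw i k - z i * th_par hya hyw j k +
      y k * th_par hza hzw j i
  have h1 : (y i * z j - y j * z i) * thN a w = 0 := by
    have e0 := hk 0
    have e1 := hk 1
    have e2 := hk 2
    simp only [thCr, Matrix.cons_val_zero, Matrix.cons_val_one, Matrix.cons_val] at e0 e1 e2
    unfold thN
    linear_combination (a 1 * w 2 - a 2 * w 1) * e0 + (a 2 * w 0 - a 0 * w 2) * e1 +
      (a 0 * w 1 - a 1 * w 0) * e2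
  have := (mul_eq_zero.1 h1).resolve_right h.ne'
  linarith

private theorem th_abs {y z : Fin 3 → ℤ} (hy : prim y) (hz : prim z)
    (h : ∀ i j, y i * z j = y j * z i) (i : Fin 3) : |y i| = |z i| := by
  have e1 : Finset.univ.gcd (fun j => y i * z j) = Finset.univ.gcd (fun j => y j * z i) := by
    congr 1
    funext j
    exact h i j
  rw [Finset.gcd_mul_left, Finset.gcd_mul_right] at e1
  unfold prim at hy hz
  rw [hy, show (Finset.univ.gcd fun j => z j) = 1 from hz] at e1
  simpa [Int.normalize_coe_nat, Int.abs_eq_normalize] using e1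

private theorem th_ortho {a w : Fin 3 → ℚ} (h : 0 < thN a w) :
    {y : Fin 3 → ℤ | prim y ∧ dot (rat y) a = 0 ∧ dot (rat y) w = 0}.Finite ∧
    {y : Fin 3 → ℤ | prim y ∧ dot (rat y) a = 0 ∧ dot (rat y) w = 0}.ncard ≤ 2 := by
  rcases Set.eq_empty_or_nonempty
    {y : Fin 3 → ℤ | prim y ∧ dot (rat y) a = 0 ∧ dot (rat y) w = 0} with h0 | ⟨z, hz1, hza, hzw⟩
  · rw [h0]; simp
  · have hsub : {y : Fin 3 → ℤ | prim y ∧ dot (rat y) a = 0 ∧ dot (rat y) w = 0} ⊆ {z, -z} := by
      rintro y ⟨hy1, hya, hyw⟩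
      have hp : ∀ i j, y i * z j = y j * z i := by
        intro i j
        have := th_prop h hya hyw hza hzw i j
        unfold rat at this
        exact_mod_cast this
      have habs := th_abs hy1 hz1 hp
      obtain ⟨i, hi⟩ : ∃ i, z i ≠ 0 := by
        by_contra hcon
        push Not at hcon
        unfold prim at hz1
        have h0 : Finset.univ.gcd z = 0 := Finset.gcd_eq_zero_iff.2 fun j _ => hcon j
        rw [h0] at hz1
        exact zero_ne_one hz1
      rw [Set.mem_insert_iff, Set.mem_singleton_iff]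
      rcases abs_eq_abs.1 (habs i) with hi1 | hi1
      · left
        funext j
        have := hp i j
        rw [hi1, mul_comm] at this
        exact (mul_right_cancel₀ hi this).symm
      · right
        funext j
        have := hp i j
        rw [hi1] at this
        have h3 : y j * z i = (-z) j * z i := by
          rw [← this, Pi.neg_apply]; ring
        exact mul_right_cancel₀ hi h3
    refine ⟨(Set.toFinite _).subset hsub, (Set.ncard_le_ncard hsub (Set.toFinite _)).trans ?_⟩
    exact (Set.ncard_insert_le _ _).trans (by simp)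

private theorem th_hom {R S : Type*} [CommRing R] [CommRing S] (φ : R →+* S)
    (f : (MvPolynomial (Fin 3) ℤ)[X]) (x : Fin 3 → R) (P : R) :
    φ ((sp f x).eval P) = (sp f (fun c => φ (x c))).eval (φ P) := by
  rw [← sp_map φ f x, eval_map, eval₂_at_apply]

private noncomputable def thH (f : (MvPolynomial (Fin 3) ℤ)[X]) (a : Fin 3 → ℚ)
    (P : MvPolynomial (Fin 3) ℚ) : MvPolynomial (Fin 3) ℚ :=
  (sp f (fun c => MvPolynomial.X c + MvPolynomial.C (a c))).eval P

private theorem thH_ne {f : (MvPolynomial (Fin 3) ℤ)[X]} (hnr : NoRoot f) (a : Fin 3 → ℚ)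
    (P : MvPolynomial (Fin 3) ℚ) : thH f a P ≠ 0 := by
  intro h0
  let ψ : MvPolynomial (Fin 3) ℚ →+* MvPolynomial (Fin 3) ℚ :=
    (MvPolynomial.aeval (fun c => MvPolynomial.X c - MvPolynomial.C (a c)) :
      MvPolynomial (Fin 3) ℚ →ₐ[ℚ] MvPolynomial (Fin 3) ℚ).toRingHom
  apply hnr (ψ P)
  have h1 : ψ (thH f a P) = 0 := by rw [h0, map_zero]
  unfold thH at h1
  rw [th_hom] at h1
  have h2 : (fun c => ψ (MvPolynomial.X c + MvPolynomial.C (a c))) =
      (fun c => (MvPolynomial.X c : MvPolynomial (Fin 3) ℚ)) := by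
    funext c
    simp [ψ]
  rwa [h2] at h1

private theorem th_eval2_natDegree_le {P : MvPolynomial (Fin 3) ℤ} {n : ℕ}
    (hP : P.IsHomogeneous n) (x : Fin 3 → ℚ[X]) (hx : ∀ c, (x c).natDegree ≤ 1) :
    (MvPolynomial.eval₂ (Int.castRingHom ℚ[X]) x P).natDegree ≤ n := by
  rw [MvPolynomial.eval₂_eq']
  apply natDegree_sum_le_of_forall_le
  intro d hd
  have hdeg : d.sum (fun _ e => e) = n := by
    have := hP (MvPolynomial.mem_support_iff.mp hd)
    simpa [Finsupp.weight_apply, Finsupp.sum] using this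
  refine natDegree_mul_le.trans ?_
  have h1 : ((Int.castRingHom ℚ[X]) (MvPolynomial.coeff d P)).natDegree = 0 := by
    rw [eq_intCast]
    exact natDegree_intCast _
  have h2 : (∏ i, x i ^ d i).natDegree ≤ ∑ i, d i := by
    refine (natDegree_prod_le _ _).trans ?_
    refine Finset.sum_le_sum fun i _ => ?_
    refine natDegree_pow_le.trans ?_
    exact (Nat.mul_le_mul_left _ (hx i)).trans (by omega)
  rw [h1, zero_add]
  refine h2.trans ?_
  rw [← hdeg, Finsupp.sum_fintype]
  simp

private theorem th_deg {m D : ℕ} {f : (MvPolynomial (Fin 3) ℤ)[X]} (hf : WMonic m D f)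
    (a w0 w1 : Fin 3 → ℚ) (P : MvPolynomial (Fin 3) ℚ) (hP : P.totalDegree ≤ m) :
    (MvPolynomial.aeval (fun c => C (w1 c) * X + C (w0 c)) (thH f a P) : ℚ[X]).natDegree ≤
      m * D := by
  let φ : MvPolynomial (Fin 3) ℚ →+* ℚ[X] :=
    (MvPolynomial.aeval (fun c => C (w1 c) * X + C (w0 c)) :
      MvPolynomial (Fin 3) ℚ →ₐ[ℚ] ℚ[X]).toRingHom
  have h1 : (MvPolynomial.aeval (fun c => C (w1 c) * X + C (w0 c)) (thH f a P) : ℚ[X]) =
      (sp f (fun c => φ (MvPolynomial.X c + MvPolynomial.C (a c)))).eval (φ P) :=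
    th_hom φ f _ P
  rw [h1]
  have hφP : (φ P).natDegree ≤ m := by
    have := MvPolynomial.aeval_natDegree_le (m := m) P hP
      (fun c => C (w1 c) * X + C (w0 c)) (n := 1) (fun c => natDegree_linear_le)
    simpa [φ] using this
  have hx : ∀ c, (φ (MvPolynomial.X c + MvPolynomial.C (a c))).natDegree ≤ 1 := by
    intro c
    have : φ (MvPolynomial.X c + MvPolynomial.C (a c)) = C (w1 c) * X + C (w0 c + a c) := by
      simp [φ]
      ring
    rw [this]
    exact natDegree_linear_le
  rw [Polynomial.eval_eq_sum_range' (n := D + 1) (by rw [sp_natDegree hf]; omega)]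
  apply natDegree_sum_le_of_forall_le
  intro i hi
  have hi' : i ≤ D := Nat.lt_succ_iff.mp (Finset.mem_range.mp hi)
  refine natDegree_mul_le.trans ?_
  rw [sp_coeff]
  have e1 := th_eval2_natDegree_le (hf.hom i hi') _ hx
  have e2 : (φ P ^ i).natDegree ≤ i * m := natDegree_pow_le.trans (Nat.mul_le_mul_left _ hφP)
  have e3 : m * (D - i) + i * m = m * D := by
    rw [mul_comm i, ← mul_add, Nat.sub_add_cancel hi']
  omega

/-- Bad lines through a point `a` over which all rational roots are simple.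
Proof. For each rational root `τ0` of `sp f a` (at most `D`) take `P` from `root_along` and
`h = (sp f (fun c => X c + C (a c))).eval P`, of total degree `≤ m D`; `h ≠ 0` by `NoRoot`
(substitute `X c - C (a c)`). Let `ℓ` be a nonzero linear form with `ℓ a = 0`; choose `w0` with
`(h * ℓ)(w0) ≠ 0` and `w1` with `a, w0, w1` linearly independent. If `y` is bad, `dot y a = 0` and
`dot y w1 ≠ 0`, let `t = - dot y w0 / dot y w1`, `w = w0 + t w1`, so `dot y w = 0` and `w, a` are
independent: `root_any_basis` gives `p` with `(gline f w a).eval p = 0`, `τ0 = p.eval 0` is a root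
of `sp f a`, `p = along w P`, and evaluating at `1`: `h(w0 + t w1) = 0`, a polynomial in `t` of
degree `≤ m D`, nonzero at `t = 0`. `y` is determined up to sign by `t` (or by `dot y w1 = 0`),
being orthogonal to `a` and `w`. -/
theorem bad_through {m D : ℕ} (hD : 1 ≤ D) {f : (MvPolynomial (Fin 3) ℤ)[X]} (hf : WMonic m D f)
    (hnr : NoRoot f) (a : Fin 3 → ℤ) (ha : a ≠ 0)
    (hs : ∀ τ : ℚ, (sp f (rat a)).eval τ = 0 → (derivative (sp f (rat a))).eval τ ≠ 0) :
    {y : Fin 3 → ℤ | prim y ∧ dot y a = 0 ∧ BadLine f y}.Finite ∧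
    {y : Fin 3 → ℤ | prim y ∧ dot y a = 0 ∧ BadLine f y}.ncard ≤ 2 * D * (m * D + 1) + 2 := by
  classical
  have key : ∀ τ : ℚ, (sp f (rat a)).eval τ = 0 →
      ∃ P : MvPolynomial (Fin 3) ℚ, P.totalDegree ≤ m ∧
      ∀ (w : Fin 3 → ℚ) (p : ℚ[X]), p.eval 0 = τ → (gline f w (rat a)).eval p = 0 →
        p = along w P := fun τ hτ => root_along hD hf (rat a) τ hτ (hs τ hτ)
  choose! P hPd hP using key
  set T : Finset ℚ := (sp f (rat a)).roots.toFinset with hT
  have hTc : T.card ≤ D := by
    refine (Multiset.toFinset_card_le _).trans ?_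
    exact (card_roots' _).trans (sp_natDegree hf _).le
  have hTm : ∀ τ, τ ∈ T ↔ (sp f (rat a)).eval τ = 0 := by
    intro τ
    rw [hT, Multiset.mem_toFinset, mem_roots (sp_monic hf _).ne_zero, IsRoot.def]
  -- a linear form vanishing at `a`
  obtain ⟨ℓ, hℓ0, hℓ⟩ : ∃ ℓ : MvPolynomial (Fin 3) ℚ, ℓ ≠ 0 ∧
      ∀ w, MvPolynomial.eval w ℓ ≠ 0 → 0 < thN (rat a) w := by
    have hN : ∀ w, (∃ k, thCr (rat a) w k ≠ 0) → 0 < thN (rat a) w := by
      rintro w ⟨k, hk⟩
      have h4 : 0 < (thCr (rat a) w k) ^ 2 := by positivity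
      have h0 := sq_nonneg (rat a 1 * w 2 - rat a 2 * w 1)
      have h1 := sq_nonneg (rat a 2 * w 0 - rat a 0 * w 2)
      have h2 := sq_nonneg (rat a 0 * w 1 - rat a 1 * w 0)
      unfold thN
      fin_cases k <;> simp [thCr] at h4 <;> linarith
    have hra : ∃ i, rat a i ≠ 0 := by
      by_contra hcon
      push Not at hcon
      apply ha
      funext i
      have := hcon i
      unfold rat at this
      exact_mod_cast this
    obtain ⟨i, hi⟩ := hra
    have main : ∀ i j k : Fin 3, rat a i ≠ 0 → i ≠ j →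
        (∀ w, rat a i * w j - rat a j * w i ≠ 0 → thCr (rat a) w k ≠ 0) →
        ∃ ℓ : MvPolynomial (Fin 3) ℚ, ℓ ≠ 0 ∧
          ∀ w, MvPolynomial.eval w ℓ ≠ 0 → 0 < thN (rat a) w := by
      intro i j k hi hij hk
      refine ⟨MvPolynomial.C (rat a i) * MvPolynomial.X j -
        MvPolynomial.C (rat a j) * MvPolynomial.X i, ?_, ?_⟩
      · intro h0
        have := congrArg (MvPolynomial.eval (Pi.single j (1 : ℚ))) h0
        simp [Pi.single_eq_of_ne hij] at this
        exact hi this
      · intro w hw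
        exact hN w ⟨k, hk w (by simpa using hw)⟩
    fin_cases i
    · exact main 0 1 2 hi (by decide) (fun w h => by simpa [thCr] using h)
    · exact main 1 2 0 hi (by decide) (fun w h => by simpa [thCr] using h)
    · exact main 2 0 1 hi (by decide) (fun w h => by simpa [thCr] using h)
  -- choice of `w0`
  have hQ : (∏ τ ∈ T, thH f (rat a) (P τ)) * ℓ ≠ 0 :=
    mul_ne_zero (Finset.prod_ne_zero_iff.2 fun τ _ => thH_ne hnr _ _) hℓ0
  obtain ⟨w0, hw0⟩ : ∃ w0, MvPolynomial.eval w0 ((∏ τ ∈ T, thH f (rat a) (P τ)) * ℓ) ≠ 0 := by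
    by_contra hcon
    push Not at hcon
    exact hQ (MvPolynomial.funext fun w => by rw [hcon w, map_zero])
  rw [map_mul, map_prod] at hw0
  have hw0N := hℓ w0 (right_ne_zero_of_mul hw0)
  have hw0H : ∀ τ ∈ T, MvPolynomial.eval w0 (thH f (rat a) (P τ)) ≠ 0 :=
    Finset.prod_ne_zero_iff.1 (left_ne_zero_of_mul hw0)
  set A : Fin 3 → ℚ := rat a with hA
  set w1 : Fin 3 → ℚ := thCr A w0 with hw1
  have hA2 : 0 < A 0 ^ 2 + A 1 ^ 2 + A 2 ^ 2 := by
    by_contra hcon
    have h0 : A 0 = 0 := by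
      have := sq_nonneg (A 1); have := sq_nonneg (A 2); have := sq_nonneg (A 0)
      exact pow_eq_zero_iff (n := 2) (by norm_num) |>.1 (by linarith)
    have h1 : A 1 = 0 := by
      have := sq_nonneg (A 1); have := sq_nonneg (A 2); have := sq_nonneg (A 0)
      exact pow_eq_zero_iff (n := 2) (by norm_num) |>.1 (by linarith)
    have h2 : A 2 = 0 := by
      have := sq_nonneg (A 1); have := sq_nonneg (A 2); have := sq_nonneg (A 0)
      exact pow_eq_zero_iff (n := 2) (by norm_num) |>.1 (by linarith)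
    unfold thN at hw0N
    rw [h0, h1, h2] at hw0N
    simp at hw0N
  have hNw1 : thN A w1 = (A 0 ^ 2 + A 1 ^ 2 + A 2 ^ 2) * thN A w0 := by
    simp only [hw1, thN, thCr, Matrix.cons_val_zero, Matrix.cons_val_one, Matrix.cons_val]
    ring
  have hNt : ∀ t : ℚ, thN A (fun c => w1 c * t + w0 c) =
      thN A w0 + t ^ 2 * thN A w1 := by
    intro t
    simp only [hw1, thN, thCr, Matrix.cons_val_zero, Matrix.cons_val_one, Matrix.cons_val]
    ring
  have hNw1' : 0 < thN A w1 := by rw [hNw1]; positivity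
  have hNt' : ∀ t : ℚ, 0 < thN A (fun c => w1 c * t + w0 c) := by
    intro t; rw [hNt]; positivity
  let φ : MvPolynomial (Fin 3) ℚ → ℚ[X] :=
    fun Q => MvPolynomial.aeval (fun c => C (w1 c) * X + C (w0 c)) Q
  have hφe : ∀ Q t, (φ Q).eval t = MvPolynomial.eval (fun c => w1 c * t + w0 c) Q := by
    intro Q t
    have : ((evalRingHom t).comp (MvPolynomial.aeval (fun c => C (w1 c) * X + C (w0 c)) :
        MvPolynomial (Fin 3) ℚ →ₐ[ℚ] ℚ[X]).toRingHom) =
        MvPolynomial.eval (fun c => w1 c * t + w0 c) := by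
      apply MvPolynomial.ringHom_ext
      · intro r; simp
      · intro i; simp
    exact congrArg (fun g : MvPolynomial (Fin 3) ℚ →+* ℚ => g Q) this
  have hφ0 : ∀ τ ∈ T, φ (thH f A (P τ)) ≠ 0 := by
    intro τ hτ h0
    apply hw0H τ hτ
    have := hφe (thH f A (P τ)) 0
    rw [h0, eval_zero] at this
    simpa using this.symm
  let R : Finset ℚ := T.biUnion (fun τ => (φ (thH f A (P τ))).roots.toFinset)
  have hRc : R.card ≤ D * (m * D) := by
    refine (Finset.card_biUnion_le_card_mul _ _ (m * D) fun τ hτ => ?_).trans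
      (Nat.mul_le_mul_right _ hTc)
    refine (Multiset.toFinset_card_le _).trans ((card_roots' _).trans ?_)
    exact th_deg hf A w0 w1 (P τ) (hPd τ ((hTm τ).1 hτ))
  have hsub : {y : Fin 3 → ℤ | prim y ∧ dot y a = 0 ∧ BadLine f y} ⊆
      {y : Fin 3 → ℤ | prim y ∧ dot (rat y) A = 0 ∧ dot (rat y) w1 = 0} ∪
      ⋃ t ∈ R, {y : Fin 3 → ℤ | prim y ∧ dot (rat y) A = 0 ∧
        dot (rat y) (fun c => w1 c * t + w0 c) = 0} := by
    rintro y ⟨hy1, hya, hyb⟩
    have hya' : dot (rat y) A = 0 := by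
      unfold dot at hya ⊢
      rw [hA]
      unfold rat
      exact_mod_cast hya
    by_cases hyw : dot (rat y) w1 = 0
    · exact Or.inl ⟨hy1, hya', hyw⟩
    · right
      rw [Set.mem_iUnion₂]
      have hyw' : dot (rat y) (fun c => w1 c * (-dot (rat y) w0 / dot (rat y) w1) + w0 c) = 0 := by
        have e : dot (rat y) (fun c => w1 c * (-dot (rat y) w0 / dot (rat y) w1) + w0 c) =
            dot (rat y) w1 * (-dot (rat y) w0 / dot (rat y) w1) + dot (rat y) w0 := by
          generalize -dot (rat y) w0 / dot (rat y) w1 = s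
          unfold dot; ring
        rw [e]
        field_simp
        ring
      refine ⟨-dot (rat y) w0 / dot (rat y) w1, ?_, hy1, hya', hyw'⟩
      generalize -dot (rat y) w0 / dot (rat y) w1 = t at hyw' ⊢
      have hy0 : y ≠ 0 := by
        rintro rfl
        apply hyw
        unfold dot rat
        simp
      obtain ⟨p, hp⟩ := root_any_basis hf y hy0 hyb _ A (th_li (hNt' t)) hyw' hya'
      have hp0 : (sp f A).eval (p.eval 0) = 0 := by
        have := congrArg (evalRingHom (0 : ℚ)) hp
        unfold gline at this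
        rw [th_hom, map_zero] at this
        simpa using this
      have hpP := hP (p.eval 0) hp0 _ p rfl hp
      rw [Finset.mem_biUnion]
      refine ⟨p.eval 0, (hTm _).2 hp0, ?_⟩
      rw [Multiset.mem_toFinset, mem_roots (hφ0 _ ((hTm _).2 hp0)), IsRoot.def, hφe]
      unfold thH
      rw [th_hom]
      have h1 := congrArg (evalRingHom (1 : ℚ)) hp
      unfold gline at h1
      rw [th_hom, map_zero] at h1
      have h2 : (evalRingHom (1 : ℚ)) p =
          MvPolynomial.eval (fun c => w1 c * t + w0 c) (P (p.eval 0)) := by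
        conv_lhs => rw [hpP]
        unfold along
        have : ((evalRingHom (1 : ℚ)).comp
            (MvPolynomial.aeval (fun c => C (w1 c * t + w0 c) * X) :
            MvPolynomial (Fin 3) ℚ →ₐ[ℚ] ℚ[X]).toRingHom) =
            MvPolynomial.eval (fun c => w1 c * t + w0 c) := by
          apply MvPolynomial.ringHom_ext
          · intro r; simp
          · intro i; simp
        exact congrArg (fun g : MvPolynomial (Fin 3) ℚ →+* ℚ => g (P (p.eval 0))) this
      rw [h2] at h1
      simpa using h1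
  have hfin1 := (th_ortho hNw1').1
  have hfin2 : (⋃ t ∈ R, {y : Fin 3 → ℤ | prim y ∧ dot (rat y) A = 0 ∧
        dot (rat y) (fun c => w1 c * t + w0 c) = 0}).Finite :=
    Set.Finite.biUnion (Finset.finite_toSet R) fun t _ => (th_ortho (hNt' t)).1
  refine ⟨(hfin1.union hfin2).subset hsub, ?_⟩
  refine (Set.ncard_le_ncard hsub (hfin1.union hfin2)).trans ?_
  refine (Set.ncard_union_le _ _).trans ?_
  have h2 : (⋃ t ∈ R, {y : Fin 3 → ℤ | prim y ∧ dot (rat y) A = 0 ∧
        dot (rat y) (fun c => w1 c * t + w0 c) = 0}).ncard ≤ R.card * 2 := by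
    refine (Finset.set_ncard_biUnion_le R _).trans ?_
    refine (Finset.sum_le_card_nsmul _ _ 2 fun t _ => (th_ortho (hNt' t)).2).trans ?_
    simp
  have h1 := (th_ortho hNw1').2
  have h3 : R.card * 2 ≤ D * (m * D) * 2 := Nat.mul_le_mul_right _ hRc
  have h4 : 2 * D * (m * D + 1) = D * (m * D) * 2 + 2 * D := by ring
  omega

end Pool.MP_aab329_nt.SerreP
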