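import Pool.Agent.Lib.MP_aab329_nt.LineDeg

set_option autoImplicit false

namespace Pool.MP_aab329_nt.SerreP

open Polynomial

/-- The polynomial `P` restricted to the line spanned by `w`. -/
noncomputable def along (w : Fin 3 → ℚ) (P : MvPolynomial (Fin 3) ℚ) : ℚ[X] :=
  MvPolynomial.aeval (fun c => C (w c) * X) P

private theorem along_hom (w : Fin 3 → ℚ) {H : MvPolynomial (Fin 3) ℚ} {k : ℕ}
    (hH : H.IsHomogeneous k) : along w H = C (MvPolynomial.eval w H) * X ^ k := by
  unfold along
  rw [MvPolynomial.aeval_def, MvPolynomial.eval₂_eq', MvPolynomial.eval_eq', map_sum,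
    Finset.sum_mul]
  apply Finset.sum_congr rfl
  intro d hd
  have hdeg : d.sum (fun _ e => e) = k := by
    have := hH (MvPolynomial.mem_support_iff.mp hd)
    simpa [Finsupp.weight_apply, Finsupp.sum] using this
  have h2 : ∏ i, (C (w i) * X : ℚ[X]) ^ d i = C (∏ i, w i ^ d i) * X ^ k := by
    simp_rw [mul_pow]
    rw [Finset.prod_mul_distrib, Finset.prod_pow_eq_pow_sum, map_prod]
    congr 1
    · simp
    · congr 1
      rw [← hdeg, Finsupp.sum_fintype]
      simp
  rw [h2, map_mul]
  rw [Polynomial.algebraMap_apply]
  simp only [Algebra.algebraMap_self, RingHom.id_apply]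
  ring

private theorem along_eq_sum (w : Fin 3 → ℚ) (P : MvPolynomial (Fin 3) ℚ) :
    along w P = ∑ k ∈ Finset.range (P.totalDegree + 1),
      C (MvPolynomial.eval w (MvPolynomial.homogeneousComponent k P)) * X ^ k := by
  conv_lhs => rw [← MvPolynomial.sum_homogeneousComponent P]
  have : ∀ s : Finset ℕ, along w (∑ k ∈ s, MvPolynomial.homogeneousComponent k P) =
      ∑ k ∈ s, along w (MvPolynomial.homogeneousComponent k P) := by
    intro s
    unfold along
    rw [map_sum]
  rw [this]
  exact Finset.sum_congr rfl fun k _ =>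
    along_hom w (MvPolynomial.homogeneousComponent_isHomogeneous k P)

private theorem along_natDegree (w : Fin 3 → ℚ) (P : MvPolynomial (Fin 3) ℚ) :
    (along w P).natDegree ≤ P.totalDegree := by
  rw [along_eq_sum]
  apply Polynomial.natDegree_sum_le_of_forall_le
  intro k hk
  rw [Finset.mem_range] at hk
  exact (Polynomial.natDegree_C_mul_X_pow_le _ _).trans (by omega)

private theorem along_coeff (w : Fin 3 → ℚ) (P : MvPolynomial (Fin 3) ℚ) (n : ℕ) :
    (along w P).coeff n = MvPolynomial.eval w (MvPolynomial.homogeneousComponent n P) := by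
  rw [along_eq_sum, Polynomial.finsetSum_coeff]
  simp only [Polynomial.coeff_C_mul, Polynomial.coeff_X_pow]
  by_cases hn : n ∈ Finset.range (P.totalDegree + 1)
  · rw [Finset.sum_eq_single n]
    · simp
    · intro k _ hk
      simp [Ne.symm hk]
    · intro h
      exact absurd hn h
  · rw [Finset.sum_eq_zero]
    · rw [Finset.mem_range, not_lt] at hn
      rw [MvPolynomial.homogeneousComponent_eq_zero _ _ (by omega), map_zero]
    · intro k hk
      have : n ≠ k := fun h => hn (h ▸ hk)
      simp [this]

/-- Truncated power series root at a simple root `τ0` over `a`, uniform in the direction `w`.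
Proof by induction on `n`. `n = 0`: `P = C τ0`. Step: let `E = (sp f (a + X)).eval P` in
`MvPolynomial (Fin 3) ℚ` and `P' = P - C (1 / f_T(τ0; a)) * homogeneousComponent (n + 1) E`.
If `p - along w P = X^(n+1) * q` then expanding `0 = (gline f w a).eval p` at `along w P`
(`Polynomial.binomExpansion`) gives `X^(n+2) ∣ along w E + X^(n+1) * C (f_T(τ0; a)) * q`; compare
the coefficients of `X^(n+1)`; that of `along w E` is the value at `w` of the homogeneous
component. -/
theorem trunc_root {m D : ℕ} {f : (MvPolynomial (Fin 3) ℤ)[X]} (hf : WMonic m D f)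
    (a : Fin 3 → ℚ) (τ0 : ℚ) (h0 : (sp f a).eval τ0 = 0)
    (h1 : (derivative (sp f a)).eval τ0 ≠ 0) (n : ℕ) :
    ∃ P : MvPolynomial (Fin 3) ℚ, P.totalDegree ≤ n ∧
      ∀ (w : Fin 3 → ℚ) (p : ℚ[X]), p.eval 0 = τ0 → (gline f w a).eval p = 0 →
        X ^ (n + 1) ∣ p - along w P := by
  induction n with
  | zero =>
    refine ⟨MvPolynomial.C τ0, by simp, fun w p hp _ => ?_⟩
    have h2 : along w (MvPolynomial.C τ0) = C τ0 := by
      unfold along
      rw [MvPolynomial.aeval_C]
      rfl
    rw [h2, zero_add, pow_one, Polynomial.X_dvd_iff, Polynomial.coeff_zero_eq_eval_zero]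
    simp [hp]
  | succ n ih =>
    obtain ⟨P, hP, hroot⟩ := ih
    set s : ℚ := (derivative (sp f a)).eval τ0 with hs
    set F : (MvPolynomial (Fin 3) ℚ)[X] :=
      sp f (fun c => MvPolynomial.C (a c) + MvPolynomial.X c) with hF
    set E : MvPolynomial (Fin 3) ℚ := F.eval P with hE
    refine ⟨P - MvPolynomial.C (1 / s) * MvPolynomial.homogeneousComponent (n + 1) E, ?_, ?_⟩
    · refine (MvPolynomial.totalDegree_sub _ _).trans (max_le (by omega) ?_)
      refine (MvPolynomial.totalDegree_mul _ _).trans ?_
      rw [MvPolynomial.totalDegree_C, zero_add]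
      exact (MvPolynomial.homogeneousComponent_isHomogeneous (n + 1) E).totalDegree_le
    · intro w p hp hgp
      obtain ⟨q, hq⟩ := hroot w p hp hgp
      set A : ℚ[X] := along w P with hA
      have hpA : p = A + X ^ (n + 1) * q := by rw [← hq]; ring
      -- `gline` as an image of `F`
      let φ : MvPolynomial (Fin 3) ℚ →+* ℚ[X] :=
        (MvPolynomial.aeval (fun c => C (w c) * X) : MvPolynomial (Fin 3) ℚ →ₐ[ℚ] ℚ[X]).toRingHom
      have hφ : ∀ Q, φ Q = along w Q := fun Q => rfl
      have hFg : F.map φ = gline f w a := by
        rw [hF, sp_map]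
        unfold gline
        congr 1
        funext c
        rw [map_add, hφ, hφ]
        unfold along
        rw [MvPolynomial.aeval_C, MvPolynomial.aeval_X, add_comm]
        rfl
      have hEg : along w E = (gline f w a).eval A := by
        rw [← hφ, hE, ← hFg, Polynomial.eval_map]
        have hAφ : A = φ P := rfl
        rw [hAφ, Polynomial.eval₂_hom]
      set g : ℚ[X][X] := gline f w a with hg
      obtain ⟨k, hk⟩ := Polynomial.binomExpansion g A (X ^ (n + 1) * q)
      rw [← hpA, hgp, ← hEg] at hk
      -- value at `0`
      have hA0 : A.eval 0 = τ0 := by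
        have : p.eval 0 = A.eval 0 := by
          rw [hpA]
          simp
        rw [← this, hp]
      have hg0 : g.map (evalRingHom (0 : ℚ)) = sp f a := by
        rw [hg]
        unfold gline
        rw [sp_map]
        congr 1
        funext c
        simp
      have hder : ((derivative g).eval A).eval 0 = s := by
        have h2 : ((derivative g).eval A).eval 0 =
            ((derivative g).map (evalRingHom (0 : ℚ))).eval (A.eval 0) := by
          rw [Polynomial.eval_map]
          have := Polynomial.hom_eval₂ (derivative g) (RingHom.id ℚ[X]) (evalRingHom (0 : ℚ)) A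
          simp only [Polynomial.eval₂_id, RingHom.comp_id, Polynomial.coe_evalRingHom] at this
          exact this
        rw [h2, hA0, ← Polynomial.derivative_map, hg0]
      have hcoef : (along w E).coeff (n + 1) = - (s * q.eval 0) := by
        have h3 : along w E = -((derivative g).eval A * q) * X ^ (n + 1) -
            (k * q ^ 2 * X ^ n) * X ^ (n + 1 + 1) := by
          have h4 : along w E = -((derivative g).eval A * (X ^ (n + 1) * q)) -
              k * (X ^ (n + 1) * q) ^ 2 := by
            linear_combination -hk
          rw [h4]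
          ring
        rw [h3, Polynomial.coeff_sub, Polynomial.coeff_mul_X_pow', Polynomial.coeff_mul_X_pow']
        simp only [le_refl, if_true, Nat.sub_self]
        rw [if_neg (by omega), sub_zero, Polynomial.coeff_neg, Polynomial.coeff_zero_eq_eval_zero,
          Polynomial.eval_mul, hder]
      have hal : along w (P - MvPolynomial.C (1 / s) * MvPolynomial.homogeneousComponent (n + 1) E)
          = A + C (q.eval 0) * X ^ (n + 1) := by
        rw [← hφ, map_sub, map_mul, hφ, hφ, hφ,
          along_hom w (MvPolynomial.homogeneousComponent_isHomogeneous (n + 1) E), ← along_coeff,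
          hcoef]
        have h2 : along w (MvPolynomial.C (1 / s)) = C (1 / s) := by
          unfold along
          rw [MvPolynomial.aeval_C]
          rfl
        rw [h2, ← mul_assoc, ← map_mul]
        have h3 : 1 / s * -(s * q.eval 0) = - (q.eval 0) := by
          field_simp
        rw [h3, map_neg]
        ring
      rw [hal, hpA]
      have h5 : A + X ^ (n + 1) * q - (A + C (q.eval 0) * X ^ (n + 1)) =
          X ^ (n + 1) * (q - C (q.eval 0)) := by ring
      rw [h5, pow_succ X (n + 1)]
      apply mul_dvd_mul_left
      rw [Polynomial.X_dvd_iff, Polynomial.coeff_zero_eq_eval_zero]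
      simp

/-- Consequence: the polynomial roots along all lines through `a` with value `τ0` at `a` are
restrictions of one polynomial of degree at most `m`. -/
theorem root_along {m D : ℕ} (hD : 1 ≤ D) {f : (MvPolynomial (Fin 3) ℤ)[X]} (hf : WMonic m D f)
    (a : Fin 3 → ℚ) (τ0 : ℚ) (h0 : (sp f a).eval τ0 = 0)
    (h1 : (derivative (sp f a)).eval τ0 ≠ 0) :
    ∃ P : MvPolynomial (Fin 3) ℚ, P.totalDegree ≤ m ∧
      ∀ (w : Fin 3 → ℚ) (p : ℚ[X]), p.eval 0 = τ0 → (gline f w a).eval p = 0 →
        p = along w P := by
  obtain ⟨P, hP, h⟩ := trunc_root hf a τ0 h0 h1 m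
  refine ⟨P, hP, fun w p hp hgp => ?_⟩
  have h2 := h w p hp hgp
  have h3 : (p - along w P).natDegree < m + 1 := by
    have h4 : (p - along w P).natDegree ≤ m :=
      (Polynomial.natDegree_sub_le _ _).trans
        (max_le (root_natDegree_le hD hf w a p hgp) ((along_natDegree w P).trans hP))
    omega
  have h4 : p - along w P = 0 := by
    by_contra hne
    have h5 := Polynomial.natDegree_le_of_dvd h2 hne
    rw [Polynomial.natDegree_X_pow] at h5
    omega
  exact sub_eq_zero.1 h4

end Pool.MP_aab329_nt.SerreP
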